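import Pool.Agent.R100.FC.Stm

/-! Project FC: assembly of the core theorem from the pieces. -/

namespace R100FC

open MeasureTheory Set

lemma Cat.add {x y : Multiset ℝ} (h : Cat x y) (w : Multiset ℝ) : Cat (x + w) (y + w) := by
  obtain ⟨c, hc, hp, h⟩ := h
  refine ⟨c, hc, hp, fun t ht => ?_⟩
  rw [ten_add_left, ten_add_left, Ph_add, Ph_add]
  have := h t ht
  linarith

lemma Cat.refl (x : Multiset ℝ) : Cat x x :=
  ⟨{1}, by simp, by intro v hv; rw [Multiset.mem_singleton.1 hv]; norm_num, fun _ _ => le_rfl⟩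

lemma card_mul_le {x y : Multiset ℝ} {η : ℕ → Multiset ℝ} (hx : Pos x) (hy : Pos y)
    (hxs : x.sum = 1) (hys : y.sum = 1) (h : Chain x y η) (k : ℕ) :
    y.card * (η (k + 1)).card ≤ x.card * (η k).card := by
  have := card_le_of_Ph_le (ten x (η k)) (ten y (η (k + 1))) (hx.ten (h.1 k).1)
    (hy.ten (h.1 (k + 1)).1) (by rw [sum_ten, sum_ten, hxs, hys, (h.1 k).2, (h.1 (k + 1)).2])
    (h.2 k)
  simpa using this

lemma card_pos_of_sum {s : Multiset ℝ} (h : s.sum = 1) : 0 < s.card := by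
  rcases Nat.eq_zero_or_pos s.card with h0 | h0
  · rw [Multiset.card_eq_zero.1 h0] at h
    simp at h
  · exact h0

lemma card_le {x y : Multiset ℝ} {η : ℕ → Multiset ℝ} (hx : Pos x) (hy : Pos y)
    (hxs : x.sum = 1) (hys : y.sum = 1) (h : Chain x y η) : y.card ≤ x.card := by
  by_contra hlt
  push Not at hlt
  have key : ∀ k, (η (k + 1)).card < (η k).card := by
    intro k
    have h1 := card_mul_le hx hy hxs hys h k
    have h2 := card_pos_of_sum (h.1 k).2
    by_contra hge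
    push Not at hge
    have h3 : x.card * (η k).card < y.card * (η k).card := Nat.mul_lt_mul_of_pos_right hlt h2
    have h4 : y.card * (η k).card ≤ y.card * (η (k + 1)).card := Nat.mul_le_mul_left _ hge
    omega
  have key2 : ∀ k, (η k).card + k ≤ (η 0).card := by
    intro k
    induction k with
    | zero => simp
    | succ k ih => have := key k; omega
  have := key2 ((η 0).card + 1)
  omega

/-- combination of the C3 pieces -/
theorem c3_all (h3h : StmC3h) (h3a : StmC3a) (h3b : StmC3b) (h3c : StmC3c)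
    (x y : Multiset ℝ) (hyp : HypC3 x y) (htop : ∃ v ∈ y, ∀ u ∈ x, u < v)
    (hI : ∀ r > 0, 0 < I x y r) :
    ∃ δ q : ℝ, 0 < δ ∧ δ < 1 ∧ 1 < q ∧
      (∀ t, 0 < t → Ph (yd y (x.card - y.card) δ) (t / q) ≤ Ph y t) ∧
      ∃ K₀ : ℕ, ∀ K, K₀ ≤ K → ∀ r : ℝ, 0 < Rs x (yd y (x.card - y.card) δ) q K r := by
  obtain ⟨r₁, hr1, hr1', δa, hδa, Ha⟩ := h3a x y hyp
  obtain ⟨R₀, hR0, δc, hδc, Hc⟩ := h3c x y hyp htop
  obtain ⟨δb, hδb, Hb⟩ := h3b x y hyp hI r₁ R₀ hr1 hr1' hR0
  obtain ⟨δh, hδh, Hh⟩ := h3h x y hyp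
  obtain ⟨δ, hδ0, hδ⟩ : ∃ δ : ℝ, 0 < δ ∧ δ < min (min (min δa δb) (min δc δh)) 1 :=
    exists_between (by simp only [lt_min_iff]; exact ⟨⟨⟨hδa, hδb⟩, ⟨hδc, hδh⟩⟩, one_pos⟩)
  simp only [lt_min_iff] at hδ
  obtain ⟨⟨⟨d1, d2⟩, ⟨d3, d4⟩⟩, d5⟩ := hδ
  obtain ⟨qa, hqa, Ha⟩ := Ha δ hδ0 d1
  obtain ⟨qb, hqb, Hb⟩ := Hb δ hδ0 d2
  obtain ⟨qc, hqc, Hc⟩ := Hc δ hδ0 d3
  obtain ⟨qh, hqh, Hh⟩ := Hh δ hδ0 d4
  obtain ⟨q, hq1, hq⟩ : ∃ q : ℝ, 1 < q ∧ q < min (min qa qb) (min qc qh) :=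
    exists_between (by simp only [lt_min_iff]; exact ⟨⟨hqa, hqb⟩, ⟨hqc, hqh⟩⟩)
  simp only [lt_min_iff] at hq
  obtain ⟨⟨e1, e2⟩, ⟨e3, e4⟩⟩ := hq
  obtain ⟨Ka, Ha⟩ := Ha q hq1 e1
  obtain ⟨Kb, Hb⟩ := Hb q hq1 e2
  obtain ⟨Kc, Hc⟩ := Hc q hq1 e3
  refine ⟨δ, q, hδ0, d5, hq1, Hh q hq1 e4, max Ka (max Kb Kc), ?_⟩
  intro K hK r
  have k1 : Ka ≤ K := (le_max_left _ _).trans hK
  have k2 : Kb ≤ K := ((le_max_left _ _).trans (le_max_right _ _)).trans hK
  have k3 : Kc ≤ K := ((le_max_right _ _).trans (le_max_right _ _)).trans hK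
  rcases le_total r r₁ with hr | hr
  · exact Ha K k1 r hr
  rcases le_total r R₀ with hr' | hr'
  · exact Hb K k2 r hr hr'
  · exact Hc K k3 r hr'

lemma yd_pos {y : Multiset ℝ} (hy : Pos y) (hs : 0 < y.sum) {z : ℕ} (hz : 0 < z) {δ : ℝ}
    (h0 : 0 < δ) (h1 : δ < 1) : Pos (yd y z δ) := by
  intro v hv
  rcases Multiset.mem_add.1 hv with hv | hv
  · obtain ⟨a, ha, rfl⟩ := Multiset.mem_map.1 hv
    exact mul_pos (by linarith) (hy a ha)
  · rw [Multiset.eq_of_mem_replicate hv]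
    have : (0:ℝ) < z := by exact_mod_cast hz
    positivity

lemma yd_sum {y : Multiset ℝ} {z : ℕ} (hz : 0 < z) {δ : ℝ} : (yd y z δ).sum = y.sum := by
  have : (z:ℝ) ≠ 0 := by exact_mod_cast hz.ne'
  rw [yd, Multiset.sum_add, Multiset.sum_map_mul_left, Multiset.map_id', Multiset.sum_replicate,
    nsmul_eq_mul]
  field_simp
  ring

lemma yd_card {y : Multiset ℝ} {z : ℕ} {δ : ℝ} : (yd y z δ).card = y.card + z := by
  rw [yd, Multiset.card_add, Multiset.card_map, Multiset.card_replicate]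

lemma sum_pos_of_pos {y : Multiset ℝ} (hy : Pos y) (h0 : y ≠ 0) : 0 < y.sum := by
  obtain ⟨a, ha⟩ := Multiset.exists_mem_of_ne_zero h0
  obtain ⟨s, rfl⟩ := Multiset.exists_cons_of_mem ha
  rw [Multiset.sum_cons]
  have h1 := hy a (Multiset.mem_cons_self a s)
  have h2 : 0 ≤ s.sum := Multiset.sum_nonneg (fun v hv => (hy v (Multiset.mem_cons_of_mem hv)).le)
  linarith

lemma le_sum_of_mem' {y : Multiset ℝ} (hy : Pos y) {a : ℝ} (ha : a ∈ y) : a ≤ y.sum := by
  obtain ⟨s, rfl⟩ := Multiset.exists_cons_of_mem ha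
  rw [Multiset.sum_cons]
  have h2 : 0 ≤ s.sum := Multiset.sum_nonneg (fun v hv => (hy v (Multiset.mem_cons_of_mem hv)).le)
  linarith

/-- the reduced pair -/
lemma reduce (x y : Multiset ℝ) : ∃ x' y' w : Multiset ℝ, x = x' + w ∧ y = y' + w ∧
    (∀ u ∈ x', u ∉ y') := by
  classical
  refine ⟨x - y, y - x, x ∩ y, ?_, ?_, ?_⟩
  · ext a
    simp only [Multiset.count_add, Multiset.count_sub, Multiset.count_inter]
    omega
  · ext a
    simp only [Multiset.count_add, Multiset.count_sub, Multiset.count_inter]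
    omega
  · intro u hu hu'
    have h1 := Multiset.count_pos.2 hu
    have h2 := Multiset.count_pos.2 hu'
    rw [Multiset.count_sub] at h1 h2
    omega

theorem core (hB1 : StmB1) (hB2 : StmB2) (hB3 : StmB3) (hC1 : StmC1) (hC2 : StmC2)
    (h3h : StmC3h) (h3a : StmC3a) (h3b : StmC3b) (h3c : StmC3c) (h4f : StmC4f) (h4a : StmC4a)
    (h4b : StmC4b) (h6 : StmC6) (x y : Multiset ℝ) (η : ℕ → Multiset ℝ) (hx : Pos x) (hy : Pos y)
    (hxs : x.sum = 1) (hys : y.sum = 1) (h : Chain x y η) : Cat x y := by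
  by_cases hxy : x = y
  · rw [hxy]; exact Cat.refl y
  have hcard := card_le hx hy hxs hys h
  rcases hcard.eq_or_lt with heq | hlt
  · obtain ⟨R, m, M, θ, hm, hmM, hθ, hR, hb, hT, hBt⟩ := hB1 x y η hx hy hxs hys heq.symm h
    obtain ⟨x', y', w, C, s1, s2, s3, s4, e1, e2, hW⟩ :=
      hB2 x y R m M θ hx hy hxs hys heq.symm hxy hm hmM hθ hR hb hT hBt
    have hx' : Pos x' := fun v hv => hx v (by rw [e1]; exact Multiset.mem_add.2 (Or.inl hv))
    have hy' : Pos y' := fun v hv => hy v (by rw [e2]; exact Multiset.mem_add.2 (Or.inl hv))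
    have hs : x'.sum = y'.sum := by
      have h1 : x.sum = x'.sum + w.sum := by rw [e1, Multiset.sum_add]
      have h2 : y.sum = y'.sum + w.sum := by rw [e2, Multiset.sum_add]
      linarith
    have hc : x'.card = y'.card := by
      have h1 : x.card = x'.card + w.card := by rw [e1, Multiset.card_add]
      have h2 : y.card = y'.card + w.card := by rw [e2, Multiset.card_add]
      omega
    have := hB3 x' y' m M C s1 s2 s3 s4 hx' hy' hs hc hm hmM hW
    rw [e1, e2]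
    exact this.add w
  · obtain ⟨x', y', w, e1, e2, hdis⟩ := reduce x y
    have hx' : Pos x' := fun v hv => hx v (by rw [e1]; exact Multiset.mem_add.2 (Or.inl hv))
    have hy' : Pos y' := fun v hv => hy v (by rw [e2]; exact Multiset.mem_add.2 (Or.inl hv))
    have hs : x'.sum = y'.sum := by
      have h1 : x.sum = x'.sum + w.sum := by rw [e1, Multiset.sum_add]
      have h2 : y.sum = y'.sum + w.sum := by rw [e2, Multiset.sum_add]
      linarith
    have hc : y'.card < x'.card := by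
      have h1 : x.card = x'.card + w.card := by rw [e1, Multiset.card_add]
      have h2 : y.card = y'.card + w.card := by rw [e2, Multiset.card_add]
      omega
    have hx0 : x' ≠ 0 := by
      intro h0
      rw [h0] at hc
      simp at hc
    have hy0 : y' ≠ 0 := by
      intro h0
      have := sum_pos_of_pos hx' hx0
      rw [hs, h0] at this
      simp at this
    have hx1 : ∀ u ∈ x', u ≤ 1 := by
      intro u hu
      rw [← hxs]
      exact le_sum_of_mem' hx (by rw [e1]; exact Multiset.mem_add.2 (Or.inl hu))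
    have hy1 : ∀ v ∈ y', v ≤ 1 := by
      intro v hv
      rw [← hys]
      exact le_sum_of_mem' hy (by rw [e2]; exact Multiset.mem_add.2 (Or.inl hv))
    have hyp : HypC3 x' y' := ⟨hx', hy', hs, hy1, hx1, hc, hy0⟩
    have hI : ∀ r > 0, 0 < I x y r := by
      intro r hr
      by_contra hle
      push Not at hle
      obtain ⟨μ, hμ, A, h1, h2⟩ := h4a h4f x y η r hx hy hxs hys h hr hle
      exact h4b x y η r μ A hx hy hxs hys hxy h hr hμ h1 h2
    have hII : ∀ r, I x y r = I x' y' r := by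
      intro r
      rw [I, I, e1, e2]
      congr 1
      ext t
      rw [Ph_add, Ph_add]
      ring
    have hI' : ∀ r > 0, 0 < I x' y' r := fun r hr => by rw [← hII]; exact hI r hr
    have htop := h6 h4f x' y' hx' hy' hs hy1 hx1 hx0 hy0 hdis hI'
    obtain ⟨δ, q, hδ0, hδ1, hq, H1, K₀, H2⟩ := c3_all h3h h3a h3b h3c x' y' hyp htop hI'
    have hz : 0 < x'.card - y'.card := by omega
    have := hC2 hC1 x' y' (yd y' (x'.card - y'.card) δ) q K₀ hx' hy'
      (yd_pos hy' (sum_pos_of_pos hy' hy0) hz hδ0 hδ1) (by rw [yd_sum hz, hs])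
      (by rw [yd_card]; omega) hq H1 H2
    rw [e1, e2]
    exact this.add w

end R100FC
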