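import Pool.Agent.R100.FC.Stm

/-! Project FC (MP_261b1b_mp): piece B1, compactness: from a chain with equal cardinalities to an
extremal chain. -/

namespace R100FC

open MeasureTheory Set

namespace B1

/-- the multiset of the entries of a vector -/
noncomputable def mv {R : ℕ} (v : Fin R → ℝ) : Multiset ℝ := Finset.univ.val.map v

@[simp] lemma card_mv {R : ℕ} (v : Fin R → ℝ) : (mv v).card = R := by
  simp [mv]

lemma mem_mv {R : ℕ} {v : Fin R → ℝ} {a : ℝ} : a ∈ mv v ↔ ∃ i, v i = a := by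
  simp [mv]

lemma sum_map_mv {R : ℕ} (v : Fin R → ℝ) (g : ℝ → ℝ) : ((mv v).map g).sum = ∑ i, g (v i) := by
  unfold mv
  rw [Multiset.map_map]
  rfl

lemma sum_mv {R : ℕ} (v : Fin R → ℝ) : (mv v).sum = ∑ i, v i := by
  have := sum_map_mv v id
  simpa using this

/-- `Ph (ten x (mv v)) t` as a function of the vector -/
noncomputable def PT (x : Multiset ℝ) {R : ℕ} (v : Fin R → ℝ) (t : ℝ) : ℝ :=
  (x.map (fun a => ∑ i, max (a * v i - t) 0)).sum

lemma PT_eq (x : Multiset ℝ) {R : ℕ} (v : Fin R → ℝ) (t : ℝ) : Ph (ten x (mv v)) t = PT x v t := by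
  unfold ten PT
  rw [Ph_bind]
  congr 1
  apply Multiset.map_congr rfl
  intro a _
  unfold Ph
  rw [Multiset.map_map]
  exact sum_map_mv v (fun b => max (a * b - t) 0)

lemma continuous_PT (x : Multiset ℝ) {R : ℕ} (t : ℝ) :
    Continuous (fun v : Fin R → ℝ => PT x v t) := by
  unfold PT
  apply continuous_multiset_sum
  intro a _
  apply continuous_finset_sum
  intro i _
  fun_prop

/-- the compact set of vector chains -/
def CR (x y : Multiset ℝ) (R : ℕ) : Set (ℕ → Fin R → ℝ) :=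
  {f | (∀ k i, 0 ≤ f k i) ∧ (∀ k, ∑ i, f k i = 1) ∧
    ∀ k t, 0 < t → PT x (f k) t ≤ PT y (f (k + 1)) t}

lemma isClosed_CR (x y : Multiset ℝ) (R : ℕ) : IsClosed (CR x y R) := by
  have h1 : IsClosed {f : ℕ → Fin R → ℝ | ∀ k i, 0 ≤ f k i} := by
    simp only [Set.setOf_forall]
    exact isClosed_iInter fun k => isClosed_iInter fun i =>
      isClosed_le continuous_const (by fun_prop)
  have h2 : IsClosed {f : ℕ → Fin R → ℝ | ∀ k, ∑ i, f k i = 1} := by
    simp only [Set.setOf_forall]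
    exact isClosed_iInter fun k => isClosed_eq (by fun_prop) continuous_const
  have h3 : IsClosed {f : ℕ → Fin R → ℝ | ∀ k t, 0 < t → PT x (f k) t ≤ PT y (f (k + 1)) t} := by
    simp only [Set.setOf_forall]
    refine isClosed_iInter fun k => isClosed_iInter fun t => isClosed_iInter fun _ => ?_
    exact isClosed_le ((continuous_PT x t).comp (continuous_apply k))
      ((continuous_PT y t).comp (continuous_apply (k + 1)))
  exact h1.inter (h2.inter h3)

lemma isCompact_CR (x y : Multiset ℝ) (R : ℕ) : IsCompact (CR x y R) := by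
  have hK : IsCompact (Set.univ.pi (fun _ : ℕ => Set.univ.pi (fun _ : Fin R => Icc (0 : ℝ) 1))) :=
    isCompact_univ_pi fun _ => isCompact_univ_pi fun _ => isCompact_Icc
  refine hK.of_isClosed_subset (isClosed_CR x y R) ?_
  rintro f ⟨h0, h1, -⟩ k - i -
  refine ⟨h0 k i, ?_⟩
  rw [← h1 k]
  exact Finset.single_le_sum (f := fun i => f k i) (fun j _ => h0 k j) (Finset.mem_univ i)

lemma shift_CR (x y : Multiset ℝ) (R : ℕ) {f : ℕ → Fin R → ℝ} (hf : f ∈ CR x y R) (n : ℕ) :
    (fun k => f (k + n)) ∈ CR x y R := by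
  obtain ⟨h0, h1, h2⟩ := hf
  refine ⟨fun k i => h0 _ i, fun k => h1 _, fun k t ht => ?_⟩
  have := h2 (k + n) t ht
  rwa [show k + n + 1 = k + 1 + n by ring] at this

/-- padding with zeros -/
lemma exists_pad (R : ℕ) (s : Multiset ℝ) (hs : s.card ≤ R) :
    ∃ v : Fin R → ℝ, mv v = s + Multiset.replicate (R - s.card) 0 := by
  obtain ⟨l, hl⟩ := Quot.exists_rep (s + Multiset.replicate (R - s.card) (0 : ℝ))
  have hl' : (l : Multiset ℝ) = s + Multiset.replicate (R - s.card) (0 : ℝ) := hl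
  have hlen : l.length = R := by
    have := congrArg Multiset.card hl'
    rw [Multiset.coe_card, Multiset.card_add, Multiset.card_replicate] at this
    omega
  subst hlen
  refine ⟨l.get, ?_⟩
  rw [← hl', mv, Fin.univ_val_map, List.ofFn_get]

lemma Ph_ten_replicate (x : Multiset ℝ) (n : ℕ) {t : ℝ} (ht : 0 < t) :
    Ph (ten x (Multiset.replicate n 0)) t = 0 := by
  apply Ph_eq_zero
  intro v hv
  obtain ⟨a, _, b, hb, rfl⟩ := mem_ten.1 hv
  rw [Multiset.eq_of_mem_replicate hb, mul_zero]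
  exact ht.le

/-- a chain of bounded cardinalities gives an element of `CR` -/
lemma CR_of_chain (x y : Multiset ℝ) (R : ℕ) (η : ℕ → Multiset ℝ) (h : Chain x y η)
    (hR : ∀ k, (η k).card ≤ R) : (CR x y R).Nonempty := by
  choose f hf using fun k => exists_pad R (η k) (hR k)
  have hP : ∀ (z : Multiset ℝ) k t, 0 < t → PT z (f k) t = Ph (ten z (η k)) t := by
    intro z k t ht
    rw [← PT_eq, hf, ten_add_right, Ph_add, Ph_ten_replicate z _ ht, add_zero]
  refine ⟨f, ?_, ?_, ?_⟩
  · intro k i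
    have : f k i ∈ mv (f k) := mem_mv.2 ⟨i, rfl⟩
    rw [hf, Multiset.mem_add] at this
    rcases this with h1 | h1
    · exact ((h.1 k).1 _ h1).le
    · rw [Multiset.eq_of_mem_replicate h1]
  · intro k
    rw [← sum_mv, hf, Multiset.sum_add, (h.1 k).2]
    simp
  · intro k t ht
    rw [hP x k t ht, hP y (k + 1) t ht]
    exact h.2 k t ht

/-- the positive entries of a vector -/
noncomputable def pe {R : ℕ} (v : Fin R → ℝ) : Multiset ℝ := (mv v).filter (fun a => 0 < a)

lemma pe_add {R : ℕ} (v : Fin R → ℝ) (h : ∀ i, 0 ≤ v i) :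
    ∃ n, mv v = pe v + Multiset.replicate n 0 := by
  refine ⟨((mv v).filter (fun a => ¬ 0 < a)).card, ?_⟩
  have h1 : (mv v).filter (fun a => ¬ 0 < a) =
      Multiset.replicate ((mv v).filter (fun a => ¬ 0 < a)).card 0 := by
    rw [Multiset.eq_replicate]
    refine ⟨rfl, fun b hb => ?_⟩
    rw [Multiset.mem_filter] at hb
    obtain ⟨⟨i, rfl⟩, hb2⟩ := And.imp_left mem_mv.1 hb
    exact le_antisymm (not_lt.1 hb2) (h i)
  rw [← h1]
  exact (Multiset.filter_add_not _ _).symm

/-- the chain of the positive entries -/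
lemma chain_pe {x y : Multiset ℝ} {R : ℕ} {f : ℕ → Fin R → ℝ} (hf : f ∈ CR x y R) :
    Chain x y (fun k => pe (f k)) := by
  obtain ⟨h0, h1, h2⟩ := hf
  have hP : ∀ (z : Multiset ℝ) k t, 0 < t → PT z (f k) t = Ph (ten z (pe (f k))) t := by
    intro z k t ht
    obtain ⟨n, hn⟩ := pe_add (f k) (h0 k)
    rw [← PT_eq, hn, ten_add_right, Ph_add, Ph_ten_replicate z _ ht, add_zero]
  refine ⟨fun k => ⟨?_, ?_⟩, ?_⟩
  · intro v hv
    exact (Multiset.mem_filter.1 hv).2
  · obtain ⟨n, hn⟩ := pe_add (f k) (h0 k)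
    have := congrArg Multiset.sum hn
    rw [sum_mv, h1, Multiset.sum_add] at this
    simpa using this.symm
  · intro k t ht
    have := h2 k t ht
    rwa [hP x k t ht, hP y (k + 1) t ht] at this

/-- the cardinalities of a chain are non-increasing -/
lemma chain_card {x y : Multiset ℝ} {η : ℕ → Multiset ℝ} (hx : Pos x) (hy : Pos y)
    (hxs : x.sum = 1) (hys : y.sum = 1) (hc : x.card = y.card) (h : Chain x y η) (k : ℕ) :
    (η k).card ≤ (η 0).card := by
  have hx0 : 0 < x.card := by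
    rw [Multiset.card_pos]
    rintro rfl
    simp at hxs
  induction k with
  | zero => exact le_rfl
  | succ k ih =>
    refine le_trans ?_ ih
    have := card_le_of_Ph_le (ten x (η k)) (ten y (η (k + 1))) (hx.ten (h.1 k).1)
      (hy.ten (h.1 (k + 1)).1) (by rw [sum_ten, sum_ten, hxs, hys, (h.1 k).2, (h.1 (k + 1)).2])
      (h.2 k)
    rw [card_ten, card_ten, hc] at this
    exact Nat.le_of_mul_le_mul_left this (hc ▸ hx0)

/-- the extremum principle: `φ` is minimised in the sup norm along the orbit, and it comes back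
close to the extremal value in bounded time -/
lemma extremal {E : Type*} [TopologicalSpace E] (C : Set (ℕ → E)) (hC : IsCompact C)
    (hcl : IsClosed C) (hne : C.Nonempty) (φ : E → ℝ) (hφ : Continuous φ)
    (hsh : ∀ f ∈ C, ∀ n, (fun k => f (k + n)) ∈ C) :
    ∃ L : ℝ, {f | f ∈ C ∧ ∀ k, φ (f k) ≤ L}.Nonempty ∧
      ∀ ε > 0, ∃ g : ℕ, 0 < g ∧ ∀ f ∈ C, ∃ j < g, L - ε < φ (f j) := by
  -- bounds
  obtain ⟨f0, hf0, hmax⟩ := hC.exists_isMaxOn hne (f := fun f => φ (f 0))
    (hφ.comp (continuous_apply 0)).continuousOn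
  obtain ⟨f1, hf1, hmin⟩ := hC.exists_isMinOn hne (f := fun f => φ (f 0))
    (hφ.comp (continuous_apply 0)).continuousOn
  have hub : ∀ f ∈ C, ∀ k, φ (f k) ≤ φ (f0 0) := by
    intro f hf k
    have := hmax (hsh f hf k)
    simpa using this
  set A : Set ℝ := {M | ∃ f ∈ C, ∀ k, φ (f k) ≤ M} with hA
  have hAne : A.Nonempty := ⟨φ (f0 0), f0, hf0, hub f0 hf0⟩
  have hAbd : BddBelow A := by
    refine ⟨φ (f1 0), ?_⟩
    rintro M ⟨f, hf, hM⟩
    have h1 : φ (f1 0) ≤ φ (f 0) := hmin hf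
    exact h1.trans (hM 0)
  refine ⟨sInf A, ?_, ?_⟩
  · set T : ℕ → Set (ℕ → E) := fun n => {f | f ∈ C ∧ ∀ k, φ (f k) ≤ sInf A + 1 / ((n : ℝ) + 1)}
      with hT
    have hTcl : ∀ n, IsClosed (T n) := by
      intro n
      have h2 : IsClosed {f : ℕ → E | ∀ k, φ (f k) ≤ sInf A + 1 / ((n : ℝ) + 1)} := by
        simp only [Set.setOf_forall]
        exact isClosed_iInter fun k =>
          isClosed_le (hφ.comp (continuous_apply k)) continuous_const
      exact hcl.inter h2
    have hne2 : (⋂ n, T n).Nonempty := by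
      apply IsCompact.nonempty_iInter_of_sequence_nonempty_isCompact_isClosed T
      · rintro n f ⟨h1, h2⟩
        refine ⟨h1, fun k => (h2 k).trans ?_⟩
        have : 1 / (((n + 1 : ℕ) : ℝ) + 1) ≤ 1 / ((n : ℝ) + 1) := by
          apply one_div_le_one_div_of_le (by positivity)
          push_cast
          linarith
        linarith
      · intro n
        have hlt : sInf A < sInf A + 1 / ((n : ℝ) + 1) := by
          have : (0 : ℝ) < 1 / ((n : ℝ) + 1) := by positivity
          linarith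
        obtain ⟨M, ⟨f, hf, hM⟩, hM2⟩ := exists_lt_of_csInf_lt hAne hlt
        exact ⟨f, hf, fun k => (hM k).trans hM2.le⟩
      · exact hC.of_isClosed_subset (hTcl 0) (fun f hf => hf.1)
      · exact hTcl
    obtain ⟨f, hf⟩ := hne2
    rw [Set.mem_iInter] at hf
    refine ⟨f, (hf 0).1, fun k => ?_⟩
    have h3 : ∀ n : ℕ, φ (f k) ≤ sInf A + 1 / ((n : ℝ) + 1) := fun n => (hf n).2 k
    refine le_of_forall_pos_le_add fun ε hε => ?_
    obtain ⟨n, hn⟩ := exists_nat_one_div_lt hε
    exact (h3 n).trans (by linarith)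
  · intro ε hε
    by_contra hcon
    push Not at hcon
    set T : ℕ → Set (ℕ → E) := fun n => {f | f ∈ C ∧ ∀ j < n + 1, φ (f j) ≤ sInf A - ε} with hT
    have hTcl : ∀ n, IsClosed (T n) := by
      intro n
      have h2 : IsClosed {f : ℕ → E | ∀ j < n + 1, φ (f j) ≤ sInf A - ε} := by
        simp only [Set.setOf_forall]
        exact isClosed_iInter fun k => isClosed_iInter fun _ =>
          isClosed_le (hφ.comp (continuous_apply k)) continuous_const
      exact hcl.inter h2
    have hne2 : (⋂ n, T n).Nonempty := by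
      apply IsCompact.nonempty_iInter_of_sequence_nonempty_isCompact_isClosed T
      · rintro n f ⟨h1, h2⟩
        exact ⟨h1, fun j hj => h2 j (by omega)⟩
      · intro n
        obtain ⟨f, hf, h⟩ := hcon (n + 1) (Nat.succ_pos n)
        exact ⟨f, hf, fun j hj => h j hj⟩
      · exact hC.of_isClosed_subset (hTcl 0) (fun f hf => hf.1)
      · exact hTcl
    obtain ⟨f, hf⟩ := hne2
    rw [Set.mem_iInter] at hf
    have h3 : sInf A ≤ sInf A - ε :=
      csInf_le hAbd ⟨f, (hf 0).1, fun k => (hf k).2 k (Nat.lt_succ_self k)⟩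
    linarith

end B1

open B1

theorem sB1 : StmB1 := by
  intro x y η hx hy hxs hys hc hη
  -- the minimal size
  have hex : ∃ R, (CR x y R).Nonempty :=
    ⟨_, CR_of_chain x y (η 0).card η hη (chain_card hx hy hxs hys hc hη)⟩
  classical
  obtain ⟨R, hRne, hRmin⟩ : ∃ R, (CR x y R).Nonempty ∧ ∀ R' < R, ¬ (CR x y R').Nonempty :=
    ⟨Nat.find hex, Nat.find_spec hex, fun R' h => Nat.find_min hex h⟩
  have hR0 : 0 < R := by
    rcases Nat.eq_zero_or_pos R with h | h
    · subst h
      obtain ⟨f, -, h1, -⟩ := hRne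
      have := h1 0
      simp at this
    · exact h
  -- all entries are positive
  have hpos : ∀ f ∈ CR x y R, ∀ k i, 0 < f k i := by
    intro f hf k0 i0
    by_contra hcon
    have hz : f k0 i0 = 0 := le_antisymm (not_lt.1 hcon) (hf.1 k0 i0)
    have hf' := shift_CR x y R hf k0
    have hch := chain_pe hf'
    have hcard := chain_card hx hy hxs hys hc hch
    have h0 : (pe (f (0 + k0))).card < R := by
      have h1 : (pe (f (0 + k0))).card < (mv (f (0 + k0))).card := by
        refine Multiset.card_lt_card (lt_of_le_of_ne (Multiset.filter_le _ _) ?_)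
        intro he
        have h2 : (0 : ℝ) ∈ mv (f (0 + k0)) := mem_mv.2 ⟨i0, by rw [zero_add]; exact hz⟩
        rw [← he] at h2
        have := (Multiset.mem_filter.1 h2).2
        exact lt_irrefl _ this
      rwa [card_mv] at h1
    exact hRmin (R - 1) (by omega) (CR_of_chain x y (R - 1) _ hch
      (fun k => (hcard k).trans (by show (pe (f (0 + k0))).card ≤ R - 1; omega)))
  have hFin : (Finset.univ : Finset (Fin R)).Nonempty := ⟨⟨0, hR0⟩, Finset.mem_univ _⟩
  -- top
  set φ : (Fin R → ℝ) → ℝ := fun v => Finset.univ.sup' hFin (fun i => v i) with hφ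
  have hφc : Continuous φ := Continuous.finset_sup'_apply hFin (fun i _ => continuous_apply i)
  have hφle : ∀ v M, φ v ≤ M ↔ ∀ i, v i ≤ M := by
    intro v M
    simp only [hφ, Finset.sup'_le_iff, Finset.mem_univ, true_implies]
  have hφlt : ∀ v M, M < φ v ↔ ∃ i, M < v i := by
    intro v M
    simp only [hφ, Finset.lt_sup'_iff, Finset.mem_univ, true_and]
  obtain ⟨M, hMne, hMrec⟩ := extremal (CR x y R) (isCompact_CR x y R) (isClosed_CR x y R) hRne φ
    hφc (fun f hf n => shift_CR x y R hf n)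
  set C1 : Set (ℕ → Fin R → ℝ) := {f | f ∈ CR x y R ∧ ∀ k, φ (f k) ≤ M} with hC1
  have hC1cl : IsClosed C1 := by
    have h2 : IsClosed {f : ℕ → Fin R → ℝ | ∀ k, φ (f k) ≤ M} := by
      simp only [Set.setOf_forall]
      exact isClosed_iInter fun k =>
        isClosed_le (hφc.comp (continuous_apply k)) continuous_const
    exact (isClosed_CR x y R).inter h2
  have hC1co : IsCompact C1 := (isCompact_CR x y R).of_isClosed_subset hC1cl (fun f hf => hf.1)
  -- bottom
  set ψ : (Fin R → ℝ) → ℝ := fun v => Finset.univ.sup' hFin (fun i => - v i) with hψ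
  have hψc : Continuous ψ :=
    Continuous.finset_sup'_apply hFin (fun i _ => (continuous_apply i).neg)
  have hψle : ∀ v M, ψ v ≤ M ↔ ∀ i, - v i ≤ M := by
    intro v M
    simp only [hψ, Finset.sup'_le_iff, Finset.mem_univ, true_implies]
  have hψlt : ∀ v M, M < ψ v ↔ ∃ i, M < - v i := by
    intro v M
    simp only [hψ, Finset.lt_sup'_iff, Finset.mem_univ, true_and]
  obtain ⟨L, hLne, hLrec⟩ := extremal C1 hC1co hC1cl hMne ψ hψc
    (fun f hf n => ⟨shift_CR x y R hf.1 n, fun k => hf.2 _⟩)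
  obtain ⟨f, hf1, hf2⟩ := hLne
  have hfC : f ∈ CR x y R := hf1.1
  -- the lower bound is positive
  obtain ⟨f0, hf0, hmax⟩ := (isCompact_CR x y R).exists_isMaxOn hRne (f := fun f => ψ (f 0))
    (hψc.comp (continuous_apply 0)).continuousOn
  have hneg : ψ (f0 0) < 0 := by
    by_contra hge
    push Not at hge
    have : ∀ ε : ℝ, 0 < ε → ∃ i, - ε < - f0 0 i := fun ε hε => (hψlt _ _).1 (by linarith)
    obtain ⟨i, _, hi⟩ := Finset.exists_mem_eq_sup' hFin (fun i => - f0 0 i)
    have h1 : ψ (f0 0) = - f0 0 i := hi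
    have h2 := hpos f0 hf0 0 i
    linarith
  have hall : ∀ h ∈ CR x y R, ∀ k, ψ (h k) ≤ ψ (f0 0) := by
    intro h hh k
    have := hmax (shift_CR x y R hh k)
    simpa using this
  have hL : L < 0 := by
    obtain ⟨g, _, hg⟩ := hLrec (- ψ (f0 0) / 2) (by linarith)
    obtain ⟨j, _, hj⟩ := hg f hf1
    have := hall f hfC j
    linarith
  have hle : ∀ k i, - L ≤ f k i := by
    intro k i
    have := (hψle _ _).1 (hf2 k) i
    linarith
  have hge : ∀ k i, f k i ≤ M := fun k i => (hφle _ _).1 (hf1.2 k) i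
  have hM : - L ≤ M := (hle 0 ⟨0, hR0⟩).trans (hge 0 ⟨0, hR0⟩)
  refine ⟨R, - L, M, fun k => mv (f k), by linarith, hM, ⟨fun k => ⟨?_, ?_⟩, ?_⟩, ?_, ?_, ?_, ?_⟩
  · intro v hv
    obtain ⟨i, rfl⟩ := mem_mv.1 hv
    exact hpos f hfC k i
  · rw [sum_mv]
    exact hfC.2.1 k
  · intro k t ht
    rw [PT_eq, PT_eq]
    exact hfC.2.2 k t ht
  · intro k
    exact card_mv _
  · intro k v hv
    obtain ⟨i, rfl⟩ := mem_mv.1 hv
    exact ⟨hle k i, hge k i⟩
  · intro ε hε
    obtain ⟨g, hg0, hg⟩ := hMrec (M * ε) (by nlinarith)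
    refine ⟨g, hg0, fun k => ?_⟩
    obtain ⟨j, hj, hj2⟩ := hg _ (shift_CR x y R hfC k)
    obtain ⟨i, hi⟩ := (hφlt _ _).1 hj2
    exact ⟨j + k, by omega, by omega, f (j + k) i, mem_mv.2 ⟨i, rfl⟩, by linarith⟩
  · intro ε hε
    obtain ⟨g, hg0, hg⟩ := hLrec (- L * ε) (by nlinarith)
    refine ⟨g, hg0, fun k => ?_⟩
    obtain ⟨j, hj, hj2⟩ := hg (fun n => f (n + k)) ⟨shift_CR x y R hfC k, fun n => hf1.2 _⟩
    obtain ⟨i, hi⟩ := (hψlt _ _).1 hj2
    exact ⟨j + k, by omega, by omega, f (j + k) i, mem_mv.2 ⟨i, rfl⟩, by linarith⟩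

end R100FC
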