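import Pool.Agent.R100.FC.Stm

/-! # FC-B2: the extremal chain gives a window -/

set_option autoImplicit false

namespace R100FC

open Finset

lemma b2_max {s : Multiset ℝ} (h : s ≠ 0) : ∃ X ∈ s, ∀ u ∈ s, u ≤ X := by
  classical
  obtain ⟨X, hX, hm⟩ := s.toFinset.exists_max_image id (by

    obtain ⟨a, ha⟩ := Multiset.exists_mem_of_ne_zero h
    exact ⟨a, Multiset.mem_toFinset.2 ha⟩)
  exact ⟨X, Multiset.mem_toFinset.1 hX, fun u hu => hm u (Multiset.mem_toFinset.2 hu)⟩

lemma b2_min {s : Multiset ℝ} (h : s ≠ 0) : ∃ X ∈ s, ∀ u ∈ s, X ≤ u := by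
  classical
  obtain ⟨X, hX, hm⟩ := s.toFinset.exists_min_image id (by
    obtain ⟨a, ha⟩ := Multiset.exists_mem_of_ne_zero h
    exact ⟨a, Multiset.mem_toFinset.2 ha⟩)
  exact ⟨X, Multiset.mem_toFinset.1 hX, fun u hu => hm u (Multiset.mem_toFinset.2 hu)⟩

/-- the lower counterpart of `Ph` -/
noncomputable def b2_Ps (s : Multiset ℝ) (t : ℝ) : ℝ := (s.map (fun v => max (t - v) 0)).sum

lemma b2_cons (a : ℝ) (s : Multiset ℝ) (t : ℝ) :
    b2_Ps (a ::ₘ s) t = max (t - a) 0 + b2_Ps s t := by simp [b2_Ps]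

lemma b2_nonneg (s : Multiset ℝ) (t : ℝ) : 0 ≤ b2_Ps s t := by
  apply Multiset.sum_nonneg
  intro v hv
  obtain ⟨a, _, rfl⟩ := Multiset.mem_map.1 hv
  exact le_max_right _ _

lemma b2_Ph_eq (s : Multiset ℝ) (t : ℝ) : Ph s t = s.sum - s.card * t + b2_Ps s t := by
  induction s using Multiset.induction_on with
  | empty => simp [b2_Ps]
  | cons a s ih =>
    rw [Ph_cons, Multiset.sum_cons, Multiset.card_cons, b2_cons, ih]
    have : max (a - t) 0 = a - t + max (t - a) 0 := by
      rcases le_total t a with h | h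
      · rw [max_eq_left (by linarith), max_eq_right (by linarith)]; ring
      · rw [max_eq_right (by linarith), max_eq_left (by linarith)]; ring
    rw [this]
    push_cast
    ring

lemma b2_eq_zero (s : Multiset ℝ) (t : ℝ) (h : ∀ v ∈ s, t ≤ v) : b2_Ps s t = 0 := by
  have h1 := b2_Ph_eq s t
  rw [Ph_eq_of_le s t h] at h1
  linarith

lemma b2_mem (s : Multiset ℝ) (t : ℝ) {v : ℝ} (hv : v ∈ s) : t - v ≤ b2_Ps s t := by
  obtain ⟨s', rfl⟩ := Multiset.exists_cons_of_mem hv
  rw [b2_cons]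
  have := le_max_left (t - v) 0
  have := b2_nonneg s' t
  linarith

/-- sums over blocks -/
lemma b2_blk {f : ℕ → ℝ} {g : ℕ} {δ : ℝ} (h0 : ∀ k, 0 ≤ f k)
    (h : ∀ k, ∃ j, k ≤ j ∧ j < k + g ∧ δ ≤ f j) (n : ℕ) {N : ℕ} (hN : n * g ≤ N) :
    n * δ ≤ ∑ k ∈ range N, f k := by
  have h1 : ∀ n : ℕ, n * δ ≤ ∑ k ∈ range (n * g), f k := by
    intro n
    induction n with
    | zero => simp
    | succ n ih =>
      obtain ⟨j, hj1, hj2, hj3⟩ := h (n * g)
      have e : (n + 1) * g = n * g + g := by ring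
      rw [e, sum_range_add]
      have h2 : δ ≤ ∑ k ∈ range g, f (n * g + k) := by
        refine hj3.trans ?_
        have h3 := single_le_sum (f := fun k => f (n * g + k)) (s := range g)
          (fun k _ => h0 _) (mem_range.2 (by omega : j - n * g < g))
        have e2 : n * g + (j - n * g) = j := by omega
        simp only [e2] at h3
        exact h3
      push_cast
      linarith
  exact (h1 n).trans (sum_le_sum_of_subset_of_nonneg (range_subset_range.2 hN)
    fun k _ _ => h0 k)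

theorem sB2 : StmB2 := by
  classical
  intro x y R m M θ hx hy hxs hys hcard hne hm hmM hch hR hb htop hbot
  obtain ⟨hθ, hch⟩ := hch
  have hMp : 0 < M := hm.trans_le hmM
  set w := x ∩ y with hw
  set x' := x - y with hx'
  set y' := y - x with hy'
  have ex : x = x' + w := (Multiset.sub_add_inter x y).symm
  have ey : y = y' + w := by
    have := Multiset.sub_add_inter y x
    rw [Multiset.inter_comm] at this
    exact this.symm
  have hdis : ∀ u, u ∈ x' → u ∉ y' := by
    intro u h1 h2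
    have c1 := Multiset.count_pos.2 h1
    have c2 := Multiset.count_pos.2 h2
    rw [hx', Multiset.count_sub] at c1
    rw [hy', Multiset.count_sub] at c2
    omega
  have hx'0 : x' ≠ 0 := by
    intro h
    have h1 : x ≤ y := by
      rw [ex, h, zero_add]
      exact Multiset.inter_le_right
    exact hne (Multiset.eq_of_le_of_card_le h1 hcard.ge)
  have hy'0 : y' ≠ 0 := by
    intro h
    have h1 : y ≤ x := by
      rw [ey, h, zero_add]
      exact Multiset.inter_le_left
    exact hne (Multiset.eq_of_le_of_card_le h1 hcard.le).symm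
  have hx'p : Pos x' := fun v hv => hx v (by rw [ex]; exact Multiset.mem_add.2 (Or.inl hv))
  have hy'p : Pos y' := fun v hv => hy v (by rw [ey]; exact Multiset.mem_add.2 (Or.inl hv))
  have hs' : x'.sum = y'.sum := by
    have h1 : x.sum = x'.sum + w.sum := by conv_lhs => rw [ex, Multiset.sum_add]
    have h2 : y.sum = y'.sum + w.sum := by conv_lhs => rw [ey, Multiset.sum_add]
    linarith
  have hc' : x'.card = y'.card := by
    have h1 : x.card = x'.card + w.card := by conv_lhs => rw [ex, Multiset.card_add]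
    have h2 : y.card = y'.card + w.card := by conv_lhs => rw [ey, Multiset.card_add]
    omega
  set C : ℕ → Multiset ℝ := fun N => ∑ k ∈ range (N + 1), θ k with hC
  have hθ0 : ∀ k, θ k ≠ 0 := by
    intro k h
    have := (hθ k).2
    rw [h, Multiset.sum_zero] at this
    norm_num at this
  -- the difference as a sum
  set D : ℕ → ℝ → ℝ := fun k s => Ph (ten y' (θ k)) s - Ph (ten x' (θ k)) s with hDdef
  have hDsum : ∀ N s, Ph (ten y' (C N)) s - Ph (ten x' (C N)) s
      = ∑ k ∈ range (N + 1), D k s := by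
    intro N s
    rw [hC]
    simp only
    rw [ten_sum_right, ten_sum_right, Ph_sum, Ph_sum, ← sum_sub_distrib]
  have hDxy : ∀ k s, D k s = Ph (ten y (θ k)) s - Ph (ten x (θ k)) s := by
    intro k s
    have h1 : Ph (ten x (θ k)) s = Ph (ten x' (θ k)) s + Ph (ten w (θ k)) s := by
      conv_lhs => rw [ex, ten_add_left, Ph_add]
    have h2 : Ph (ten y (θ k)) s = Ph (ten y' (θ k)) s + Ph (ten w (θ k)) s := by
      conv_lhs => rw [ey, ten_add_left, Ph_add]
    rw [h1, h2, hDdef]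
    ring
  have hD1 : ∀ N s, 0 < s → -1 ≤ ∑ k ∈ range (N + 1), D k s := by
    intro N s hs
    have h1 : ∑ k ∈ range (N + 1), (Ph (ten y (θ k)) s - Ph (ten y (θ (k + 1))) s)
        ≤ ∑ k ∈ range (N + 1), D k s := by
      refine sum_le_sum fun k _ => ?_
      rw [hDxy]
      have := hch k s hs
      linarith
    rw [sum_range_sub'] at h1
    have h2 := Ph_nonneg (ten y (θ 0)) s
    have h3 := Ph_le_sum (ten y (θ (N + 1))) hs.le
      (fun v hv => (hy.ten (hθ (N + 1)).1 v hv).le)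
    rw [sum_ten, hys, (hθ (N + 1)).2] at h3
    linarith
  have hDPs : ∀ k s, D k s = b2_Ps (ten y' (θ k)) s - b2_Ps (ten x' (θ k)) s := by
    intro k s
    rw [hDdef]
    simp only
    rw [b2_Ph_eq, b2_Ph_eq, sum_ten, sum_ten, card_ten, card_ten, hs', hc']
    ring
  obtain ⟨X, hX, hXm⟩ := b2_max hx'0
  obtain ⟨Y, hY, hYm⟩ := b2_max hy'0
  obtain ⟨x0, hx0, hx0m⟩ := b2_min hx'0
  obtain ⟨y0, hy0, hy0m⟩ := b2_min hy'0
  have hXp := hx'p X hX
  have hYp := hy'p Y hY
  have hx0p := hx'p x0 hx0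
  have hy0p := hy'p y0 hy0
  -- entries of the products
  have eU : ∀ (s : Multiset ℝ) (Z : ℝ), Pos s → (∀ u ∈ s, u ≤ Z) → ∀ k, ∀ v ∈ ten s (θ k),
      v ≤ Z * M := by
    intro s Z hs hZ k v hv
    obtain ⟨a, ha, b, hb', rfl⟩ := mem_ten.1 hv
    have h1 := (hb k b hb')
    exact mul_le_mul (hZ a ha) h1.2 (hm.le.trans h1.1) ((hs a ha).le.trans (hZ a ha))
  have eL : ∀ (s : Multiset ℝ) (Z : ℝ), Pos s → 0 < Z → (∀ u ∈ s, Z ≤ u) → ∀ k,
      ∀ v ∈ ten s (θ k), Z * m ≤ v := by
    intro s Z hs hZ0 hZ k v hv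
    obtain ⟨a, ha, b, hb', rfl⟩ := mem_ten.1 hv
    have h1 := (hb k b hb')
    exact mul_le_mul (hZ a ha) h1.1 hm.le (hs a ha).le
  -- the general top and bottom estimates
  have topE : ∀ (P Q : Multiset ℝ) (p q : ℝ), Pos P → p ∈ P → Pos Q → (∀ u ∈ Q, u ≤ q) → 0 < q →
      q < p → ∃ g : ℕ, ∀ k, ∃ j, k ≤ j ∧ j < k + g ∧ ∀ s, s ≤ M * (p + q) / 2 →
        M * (p - q) / 4 ≤ Ph (ten P (θ j)) s := by
    intro P Q p q hP hp hQ hq hq0 hqp
    have hp0 : 0 < p := hq0.trans hqp
    obtain ⟨g, hg, hrec⟩ := htop ((p - q) / (4 * p)) (div_pos (by linarith) (by linarith))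
    refine ⟨g, fun k => ?_⟩
    obtain ⟨j, hj1, hj2, v, hv, hv2⟩ := hrec k
    refine ⟨j, hj1, hj2, fun s hs => ?_⟩
    have h1 := le_Ph_of_mem (ten P (θ j)) s (mem_ten.2 ⟨p, hp, v, hv, rfl⟩)
    have h2 : p * (M * (1 - (p - q) / (4 * p))) ≤ p * v := mul_le_mul_of_nonneg_left hv2.le hp0.le
    have h3 : p * (M * (1 - (p - q) / (4 * p))) = M * (p - (p - q) / 4) := by
      field_simp
    linarith
  have botE : ∀ (P Q : Multiset ℝ) (p q : ℝ), Pos P → p ∈ P → Pos Q → (∀ u ∈ Q, q ≤ u) → 0 < p →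
      p < q → ∃ g : ℕ, ∀ k, ∃ j, k ≤ j ∧ j < k + g ∧ ∀ s, m * (p + q) / 2 ≤ s →
        m * (q - p) / 4 ≤ b2_Ps (ten P (θ j)) s := by
    intro P Q p q hP hp hQ hq hp0 hqp
    obtain ⟨g, hg, hrec⟩ := hbot ((q - p) / (4 * p)) (div_pos (by linarith) (by linarith))
    refine ⟨g, fun k => ?_⟩
    obtain ⟨j, hj1, hj2, v, hv, hv2⟩ := hrec k
    refine ⟨j, hj1, hj2, fun s hs => ?_⟩
    have h1 := b2_mem (ten P (θ j)) s (mem_ten.2 ⟨p, hp, v, hv, rfl⟩)
    have h2 : p * v ≤ p * (m * (1 + (q - p) / (4 * p))) := mul_le_mul_of_nonneg_left hv2.le hp0.le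
    have h3 : p * (m * (1 + (q - p) / (4 * p))) = m * (p + (q - p) / 4) := by
      field_simp
    linarith
  -- comparison of the maxima
  have hXY : X < Y := by
    by_contra hcon
    have hne' : Y ≠ X := fun h => hdis X hX (h ▸ hY)
    have hlt : Y < X := lt_of_le_of_ne (not_lt.1 hcon) hne'
    obtain ⟨g, hg⟩ := topE x' y' X Y hx'p hX hy'p hYm hYp hlt
    set s := M * (X + Y) / 2 with hs
    have hs0 : 0 < s := by rw [hs]; positivity
    have hδ : 0 < M * (X - Y) / 4 := by
      have : 0 < X - Y := by linarith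
      positivity
    obtain ⟨n, hn⟩ := exists_nat_gt (1 / (M * (X - Y) / 4))
    rw [div_lt_iff₀ hδ] at hn
    have h1 := b2_blk (f := fun k => Ph (ten x' (θ k)) s) (g := g) (δ := M * (X - Y) / 4)
      (fun k => Ph_nonneg _ _) (fun k => by
        obtain ⟨j, a, b, c⟩ := hg k
        exact ⟨j, a, b, c s le_rfl⟩) n (N := n * g + 1) (by omega)
    have h2 := hD1 (n * g) s hs0
    have h3 : ∑ k ∈ range (n * g + 1), D k s
        = -∑ k ∈ range (n * g + 1), Ph (ten x' (θ k)) s := by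
      rw [← sum_neg_distrib]
      refine sum_congr rfl fun k _ => ?_
      rw [hDdef]
      simp only
      rw [Ph_eq_zero (ten y' (θ k)) s, zero_sub]
      intro v hv
      have h4 := eU y' Y hy'p hYm k v hv
      have h5 : Y * M ≤ s := by
        rw [hs]
        nlinarith
      linarith
    rw [h3] at h2
    linarith
  have hyx : y0 < x0 := by
    by_contra hcon
    have hne' : x0 ≠ y0 := fun h => hdis x0 hx0 (h ▸ hy0)
    have hlt : x0 < y0 := lt_of_le_of_ne (not_lt.1 hcon) hne'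
    obtain ⟨g, hg⟩ := botE x' y' x0 y0 hx'p hx0 hy'p hy0m hx0p hlt
    set s := m * (x0 + y0) / 2 with hs
    have hs0 : 0 < s := by rw [hs]; positivity
    have hδ : 0 < m * (y0 - x0) / 4 := by
      have : 0 < y0 - x0 := by linarith
      positivity
    obtain ⟨n, hn⟩ := exists_nat_gt (1 / (m * (y0 - x0) / 4))
    rw [div_lt_iff₀ hδ] at hn
    have h1 := b2_blk (f := fun k => b2_Ps (ten x' (θ k)) s) (g := g) (δ := m * (y0 - x0) / 4)
      (fun k => b2_nonneg _ _) (fun k => by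
        obtain ⟨j, a, b, c⟩ := hg k
        exact ⟨j, a, b, c s le_rfl⟩) n (N := n * g + 1) (by omega)
    have h2 := hD1 (n * g) s hs0
    have h3 : ∑ k ∈ range (n * g + 1), D k s
        = -∑ k ∈ range (n * g + 1), b2_Ps (ten x' (θ k)) s := by
      rw [← sum_neg_distrib]
      refine sum_congr rfl fun k _ => ?_
      rw [hDPs, b2_eq_zero (ten y' (θ k)) s, zero_sub]
      intro v hv
      have h4 := eL y' y0 hy'p hy0p hy0m k v hv
      have h5 : s ≤ y0 * m := by
        rw [hs]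
        nlinarith
      linarith
    rw [h3] at h2
    linarith
  obtain ⟨g1, hg1⟩ := topE y' x' Y X hy'p hY hx'p hXm hXp hXY
  obtain ⟨g2, hg2⟩ := botE y' x' y0 x0 hy'p hy0 hx'p hx0m hy0p hyx
  refine ⟨x', y', w, C, X * M, M * (Y + X) / 2, m * (y0 + x0) / 2, x0 * m, ex, ey, ?_, ?_, ?_,
    ?_, ?_, ?_, ?_, ?_, ?_⟩
  · intro N h
    rw [hC] at h
    simp only at h
    rw [sum_range_succ] at h
    have h2 := congrArg Multiset.card h
    rw [Multiset.card_add, Multiset.card_zero] at h2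
    exact hθ0 N (Multiset.card_eq_zero.1 (by omega))
  · intro N v hv
    rw [hC] at hv
    simp only at hv
    rw [Multiset.mem_sum] at hv
    obtain ⟨k, _, hk⟩ := hv
    exact hb k v hk
  · intro N t ht
    rw [hDsum]
    exact hD1 N t ht
  · positivity
  · nlinarith
  · positivity
  · nlinarith
  · intro u hu
    exact ⟨mul_le_mul_of_nonneg_right (hXm u hu) hMp.le,
      mul_le_mul_of_nonneg_right (hx0m u hu) hm.le⟩
  · intro B
    have hδ1 : 0 < M * (Y - X) / 4 := by
      have : 0 < Y - X := by linarith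
      positivity
    have hδ2 : 0 < m * (x0 - y0) / 4 := by
      have : 0 < x0 - y0 := by linarith
      positivity
    obtain ⟨n1, hn1⟩ := exists_nat_gt (B / (M * (Y - X) / 4))
    obtain ⟨n2, hn2⟩ := exists_nat_gt (B / (m * (x0 - y0) / 4))
    rw [div_lt_iff₀ hδ1] at hn1
    rw [div_lt_iff₀ hδ2] at hn2
    refine ⟨n1 * g1 + n2 * g2, fun s hs => ?_⟩
    rw [hDsum]
    rcases hs with ⟨hs1, hs2⟩ | ⟨hs3, hs4⟩
    · have h1 := b2_blk (f := fun k => Ph (ten y' (θ k)) s) (g := g1) (δ := M * (Y - X) / 4)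
        (fun k => Ph_nonneg _ _) (fun k => by
          obtain ⟨j, a, b, c⟩ := hg1 k
          exact ⟨j, a, b, c s hs2⟩) n1 (N := n1 * g1 + n2 * g2 + 1) (by omega)
      refine hn1.le.trans (h1.trans (le_of_eq (sum_congr rfl fun k _ => ?_)))
      rw [hDdef]
      simp only
      rw [Ph_eq_zero (ten x' (θ k)) s, sub_zero]
      intro v hv
      exact (eU x' X hx'p hXm k v hv).trans hs1
    · have h1 := b2_blk (f := fun k => b2_Ps (ten y' (θ k)) s) (g := g2) (δ := m * (x0 - y0) / 4)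
        (fun k => b2_nonneg _ _) (fun k => by
          obtain ⟨j, a, b, c⟩ := hg2 k
          exact ⟨j, a, b, c s hs3⟩) n2 (N := n1 * g1 + n2 * g2 + 1) (by omega)
      refine hn2.le.trans (h1.trans (le_of_eq (sum_congr rfl fun k _ => ?_)))
      rw [hDPs, b2_eq_zero (ten x' (θ k)) s, sub_zero]
      intro v hv
      exact hs4.trans (eL x' x0 hx'p hx0p hx0m k v hv)

end R100FC
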