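import Pool.Agent.R100.FC.Stm

/-! # FC-B3: smoothing, a window gives a catalyst -/

set_option autoImplicit false

namespace R100FC

open Finset

lemma b3_map (s c : Multiset ℝ) (a : ℝ) :
    ten s (c.map (fun b => a * b)) = (ten s c).map (fun b => a * b) := by
  induction c using Multiset.induction_on with
  | empty => simp
  | cons b c ih =>
    rw [Multiset.map_cons, ten_cons_right, ten_cons_right, Multiset.map_add, ih, Multiset.map_map]
    congr 1
    refine Multiset.map_congr rfl fun v _ => ?_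
    simp only [Function.comp]
    ring

/-- grid points -/
lemma b3_grid {h A lo hi : ℝ} {J : ℕ} (hh : 0 < h) (hA : 2 * A = J * h) (h1 : -A ≤ lo)
    (h2 : hi ≤ A) (h3 : h ≤ hi - lo) : ∃ j ∈ range (J + 1), lo ≤ -A + j * h ∧ -A + j * h ≤ hi := by
  have h0 : 0 ≤ (lo + A) / h := div_nonneg (by linarith) hh.le
  have c1 := Nat.le_ceil ((lo + A) / h)
  have c2 := Nat.ceil_lt_add_one h0
  rw [div_le_iff₀ hh] at c1
  have c3 : (⌈(lo + A) / h⌉₊ : ℝ) * h < lo + A + h := by
    have := mul_lt_mul_of_pos_right c2 hh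
    rw [add_mul, div_mul_cancel₀ _ hh.ne', one_mul] at this
    exact this
  refine ⟨⌈(lo + A) / h⌉₊, ?_, by linarith, by linarith⟩
  rw [mem_range]
  have c4 : (⌈(lo + A) / h⌉₊ : ℝ) * h < J * h := by linarith
  have c5 : (⌈(lo + A) / h⌉₊ : ℝ) < J := lt_of_mul_lt_mul_right c4 hh.le
  have c6 : ⌈(lo + A) / h⌉₊ < J := by exact_mod_cast c5
  omega

theorem sB3 : StmB3 := by
  rintro x y m M C s1 s2 s3 s4 hx hy hsum hcard hm hmM ⟨hC0, hCb, hD, h3, h34, h1, h12, hu, hB⟩
  set h := min (Real.log (s2 / s1)) (Real.log (s4 / s3)) with hh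
  have hh0 : 0 < h := lt_min (Real.log_pos (by rw [one_lt_div h1]; exact h12))
    (Real.log_pos (by rw [one_lt_div h3]; exact h34))
  have hs2 : 0 < s2 := h1.trans h12
  have hs4 : 0 < s4 := h3.trans h34
  obtain ⟨J, hJ⟩ := exists_nat_gt (Real.log (s2 / s3) / h)
  rw [div_lt_iff₀ hh0] at hJ
  set A : ℝ := J * h / 2 with hA
  have hA2 : 2 * A = J * h := by rw [hA]; ring
  have hA0 : 0 ≤ A := by rw [hA]; positivity
  set E : ℕ → ℝ := fun j => Real.exp (-A + j * h) with hE
  have hE0 : ∀ j, 0 < E j := fun j => Real.exp_pos _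
  have hElo : ∀ j, Real.exp (-A) ≤ E j := fun j => Real.exp_le_exp.2 (by
    have : (0 : ℝ) ≤ j * h := by positivity
    linarith)
  have hEhi : ∀ j ∈ range (J + 1), E j ≤ Real.exp A := fun j hj => Real.exp_le_exp.2 (by
    have h4 : j ≤ J := by rw [mem_range] at hj; omega
    have h5 : (j : ℝ) ≤ J := by exact_mod_cast h4
    have := mul_le_mul_of_nonneg_right h5 hh0.le
    linarith)
  obtain ⟨N, hN⟩ := hB ((J + 1) * Real.exp (2 * A))
  set c : Multiset ℝ := ∑ j ∈ range (J + 1), (C N).map (fun b => E j * b) with hc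
  have hmem : ∀ v ∈ c, ∃ j ∈ range (J + 1), ∃ b ∈ C N, v = E j * b := by
    intro v hv
    rw [hc, Multiset.mem_sum] at hv
    obtain ⟨j, hj, hv⟩ := hv
    obtain ⟨b, hb, rfl⟩ := Multiset.mem_map.1 hv
    exact ⟨j, hj, b, hb, rfl⟩
  have hcpos : Pos c := by
    intro v hv
    obtain ⟨j, _, b, hb, rfl⟩ := hmem v hv
    exact mul_pos (hE0 j) (hm.trans_le (hCb N b hb).1)
  have hc0 : c ≠ 0 := by
    intro h0
    rw [hc, sum_range_succ] at h0
    have h5 := congrArg Multiset.card h0
    rw [Multiset.card_add, Multiset.card_map, Multiset.card_zero] at h5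
    have h6 : (C N).card = 0 := by omega
    exact hC0 N (Multiset.card_eq_zero.1 h6)
  have hPh : ∀ (s : Multiset ℝ) (t : ℝ), Ph (ten s c) t
      = ∑ j ∈ range (J + 1), E j * Ph (ten s (C N)) (t / E j) := by
    intro s t
    rw [hc, ten_sum_right, Ph_sum]
    refine sum_congr rfl fun j _ => ?_
    rw [b3_map, Ph_map_mul _ (hE0 j)]
  refine ⟨c, hc0, hcpos, fun t ht => ?_⟩
  by_cases ht1 : s1 * Real.exp A ≤ t
  · rw [Ph_eq_zero (ten x c) t]
    · exact Ph_nonneg _ _
    · intro v hv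
      obtain ⟨a, ha, w, hw, rfl⟩ := mem_ten.1 hv
      obtain ⟨j, hj, b, hb, rfl⟩ := hmem w hw
      have e1 := (hCb N b hb).2
      have e2 := (hu a ha).1
      have e3 : a * b ≤ s1 := (mul_le_mul_of_nonneg_left e1 (hx a ha).le).trans e2
      calc a * (E j * b) = (a * b) * E j := by ring
        _ ≤ s1 * Real.exp A := mul_le_mul e3 (hEhi j hj) (hE0 j).le h1.le
        _ ≤ t := ht1
  by_cases ht2 : t ≤ s4 * Real.exp (-A)
  · rw [Ph_eq_of_le (ten x c) t]
    · have := sum_sub_le_Ph (ten y c) t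
      rw [sum_ten, card_ten] at this ⊢
      rw [hsum, hcard]
      exact this
    · intro v hv
      obtain ⟨a, ha, w, hw, rfl⟩ := mem_ten.1 hv
      obtain ⟨j, hj, b, hb, rfl⟩ := hmem w hw
      have e1 := (hCb N b hb).1
      have e2 := (hu a ha).2
      have e3 : s4 ≤ a * b := e2.trans (mul_le_mul_of_nonneg_left e1 (hx a ha).le)
      calc t ≤ s4 * Real.exp (-A) := ht2
        _ ≤ (a * b) * E j := mul_le_mul e3 (hElo j) (Real.exp_pos _).le (hs4.le.trans e3)
        _ = a * (E j * b) := by ring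
  push Not at ht1 ht2
  -- a good grid point
  obtain ⟨j0, hj0, hwin⟩ : ∃ j ∈ range (J + 1), (s1 ≤ t / E j ∧ t / E j ≤ s2) ∨
      (s3 ≤ t / E j ∧ t / E j ≤ s4) := by
    have key : ∀ a b : ℝ, 0 < a → 0 < b → ∀ j : ℕ, Real.log (t / b) ≤ -A + j * h →
        -A + j * h ≤ Real.log (t / a) → a ≤ t / E j ∧ t / E j ≤ b := by
      intro a b ha hb j e1 e2
      rw [Real.log_le_iff_le_exp (div_pos ht hb)] at e1
      rw [Real.le_log_iff_exp_le (div_pos ht ha)] at e2
      have hEj := hE0 j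
      change t / b ≤ E j at e1
      change E j ≤ t / a at e2
      rw [div_le_iff₀ hb] at e1
      rw [le_div_iff₀ ha] at e2
      constructor
      · rw [le_div_iff₀ hEj]
        linarith
      · rw [div_le_iff₀ hEj]
        linarith
    have hlt1 : Real.log (t / s1) ≤ A := by
      rw [Real.log_le_iff_le_exp (div_pos ht h1), div_le_iff₀ h1]
      linarith
    have hlt4 : -A ≤ Real.log (t / s4) := by
      rw [Real.le_log_iff_exp_le (div_pos ht hs4), le_div_iff₀ hs4]
      linarith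
    by_cases ht3 : s2 * Real.exp (-A) ≤ t
    · have g1 : -A ≤ Real.log (t / s2) := by
        rw [Real.le_log_iff_exp_le (div_pos ht hs2), le_div_iff₀ hs2]
        linarith
      have g2 : h ≤ Real.log (t / s1) - Real.log (t / s2) := by
        rw [Real.log_div ht.ne' h1.ne', Real.log_div ht.ne' hs2.ne']
        have := min_le_left (Real.log (s2 / s1)) (Real.log (s4 / s3))
        rw [← hh, Real.log_div hs2.ne' h1.ne'] at this
        linarith
      obtain ⟨j, hj, e1, e2⟩ := b3_grid hh0 hA2 g1 hlt1 g2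
      exact ⟨j, hj, Or.inl (key s1 s2 h1 hs2 j e1 e2)⟩
    · push Not at ht3
      have g1 : Real.log (t / s3) ≤ A := by
        have e1 : t / s3 < s2 / s3 * Real.exp (-A) := by
          rw [div_mul_eq_mul_div]
          exact div_lt_div_of_pos_right ht3 h3
        have e2 := Real.log_lt_log (div_pos ht h3) e1
        rw [Real.log_mul (div_pos hs2 h3).ne' (Real.exp_pos _).ne', Real.log_exp] at e2
        linarith
      have g2 : h ≤ Real.log (t / s3) - Real.log (t / s4) := by
        rw [Real.log_div ht.ne' h3.ne', Real.log_div ht.ne' hs4.ne']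
        have := min_le_right (Real.log (s2 / s1)) (Real.log (s4 / s3))
        rw [← hh, Real.log_div hs4.ne' h3.ne'] at this
        linarith
      obtain ⟨j, hj, e1, e2⟩ := b3_grid hh0 hA2 hlt4 g1 g2
      exact ⟨j, hj, Or.inr (key s3 s4 h3 hs4 j e1 e2)⟩
  rw [← sub_nonneg, hPh, hPh, ← sum_sub_distrib]
  set G : ℕ → ℝ := fun j => Ph (ten y (C N)) (t / E j) - Ph (ten x (C N)) (t / E j) with hG
  have hG1 : ∀ j, 0 ≤ E j * (G j + 1) := fun j =>
    mul_nonneg (hE0 j).le (by have := hD N (t / E j) (div_pos ht (hE0 j)); linarith)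
  have e1 : ∑ j ∈ range (J + 1), (E j * Ph (ten y (C N)) (t / E j)
      - E j * Ph (ten x (C N)) (t / E j))
      = ∑ j ∈ range (J + 1), E j * (G j + 1) - ∑ j ∈ range (J + 1), E j := by
    rw [← sum_sub_distrib]
    refine sum_congr rfl fun j _ => ?_
    rw [hG]
    ring
  rw [e1]
  have e2 : E j0 * (G j0 + 1) ≤ ∑ j ∈ range (J + 1), E j * (G j + 1) :=
    single_le_sum (f := fun j => E j * (G j + 1)) (fun j _ => hG1 j) hj0
  have e3 : ∑ j ∈ range (J + 1), E j ≤ (J + 1) * Real.exp A := by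
    refine (sum_le_card_nsmul _ _ _ hEhi).trans (le_of_eq ?_)
    rw [card_range, nsmul_eq_mul]
    push_cast
    ring
  have e4 : (J + 1) * Real.exp (2 * A) ≤ G j0 := hN _ hwin
  have e5 : (J + 1) * Real.exp A ≤ E j0 * (G j0 + 1) := by
    have e6 : Real.exp A = Real.exp (-A) * Real.exp (2 * A) := by
      rw [← Real.exp_add]
      congr 1
      ring
    calc (J + 1) * Real.exp A = Real.exp (-A) * ((J + 1) * Real.exp (2 * A)) := by rw [e6]; ring
      _ ≤ E j0 * (G j0 + 1) := mul_le_mul (hElo j0) (by linarith) (by positivity) (hE0 j0).le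
  linarith

end R100FC
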