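import Pool.Agent.R100.FC.Asm

/-! Project FC: states, majorization, and the bridge to the multiset formulation. -/

namespace R100FC

open Finset

/-- Majorization of (nonnegative) finite vectors, padded with zeros: for every `k` the sum of any `k`
entries of `x` is at most the sum of some at most `k` entries of `y`; and the total sums agree. -/
def Maj {ι κ : Type} [Fintype ι] [Fintype κ] (x : ι → ℝ) (y : κ → ℝ) : Prop :=
  ∑ i, x i = ∑ j, y j ∧
    ∀ s : Finset ι, ∃ t : Finset κ, t.card ≤ s.card ∧ ∑ i ∈ s, x i ≤ ∑ j ∈ t, y j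

/-- `∑ i, max (x i - t) 0`. -/
noncomputable def Phf {ι : Type} [Fintype ι] (x : ι → ℝ) (t : ℝ) : ℝ := ∑ i, max (x i - t) 0

lemma Maj.phf {ι κ : Type} [Fintype ι] [Fintype κ] {x : ι → ℝ} {y : κ → ℝ} (h : Maj x y)
    {t : ℝ} (ht : 0 ≤ t) : Phf x t ≤ Phf y t := by
  classical
  obtain ⟨s', hs', hle⟩ := h.2 (Finset.univ.filter (fun i => t < x i))
  have h1 : Phf x t = ∑ i ∈ Finset.univ.filter (fun i => t < x i), (x i - t) := by
    rw [Phf, Finset.sum_filter]
    apply Finset.sum_congr rfl
    intro i _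
    split_ifs with hi
    · exact max_eq_left (by linarith)
    · exact max_eq_right (by linarith [not_lt.1 hi])
  have h2 : ∑ j ∈ s', (y j - t) ≤ Phf y t := by
    calc ∑ j ∈ s', (y j - t) ≤ ∑ j ∈ s', max (y j - t) 0 :=
          Finset.sum_le_sum (fun j _ => le_max_left _ _)
      _ ≤ Phf y t := Finset.sum_le_sum_of_subset_of_nonneg (Finset.subset_univ _)
          (fun j _ _ => le_max_right _ _)
  rw [h1]
  refine le_trans ?_ h2
  rw [Finset.sum_sub_distrib, Finset.sum_sub_distrib, Finset.sum_const, Finset.sum_const,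
    nsmul_eq_mul, nsmul_eq_mul]
  have h3 : ((s'.card : ℝ)) ≤ ((Finset.univ.filter (fun i => t < x i)).card : ℝ) := by
    exact_mod_cast hs'
  have := mul_le_mul_of_nonneg_right h3 ht
  linarith

lemma maj_of_phf {ι κ : Type} [Fintype ι] [Fintype κ] {x : ι → ℝ} {y : κ → ℝ}
    (hx : ∀ i, 0 ≤ x i) (hy : ∀ j, 0 ≤ y j) (hs : ∑ i, x i = ∑ j, y j)
    (h : ∀ t, 0 < t → Phf x t ≤ Phf y t) : Maj x y := by
  classical
  refine ⟨hs, ?_⟩
  intro s
  by_cases hk : s.card = 0
  · refine ⟨∅, by simp, ?_⟩
    rw [Finset.card_eq_zero.1 hk]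
    simp
  by_cases hbig : Fintype.card κ ≤ s.card
  · refine ⟨Finset.univ, by simpa using hbig, ?_⟩
    rw [← hs]
    exact Finset.sum_le_sum_of_subset_of_nonneg (Finset.subset_univ _) (fun i _ _ => hx i)
  have hbig' : s.card < Fintype.card κ := not_le.1 hbig
  -- choose an optimal set of size `s.card`
  have hne : (Finset.powersetCard s.card (Finset.univ : Finset κ)).Nonempty := by
    apply Finset.powersetCard_nonempty.2
    rw [Finset.card_univ]
    exact hbig'.le
  obtain ⟨T, hT, hmax⟩ := Finset.exists_max_image _ (fun T => ∑ j ∈ T, y j) hne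
  rw [Finset.mem_powersetCard] at hT
  refine ⟨T, hT.2.le, ?_⟩
  have hTne : T.Nonempty := by
    rw [← Finset.card_pos, hT.2]
    exact Nat.pos_of_ne_zero hk
  obtain ⟨j0, hj0, hmin⟩ := Finset.exists_min_image T y hTne
  set τ := y j0 with hτ
  have hout : ∀ j, j ∉ T → y j ≤ τ := by
    intro j hj
    by_contra hlt
    have hlt' : τ < y j := not_le.1 hlt
    have hmem : insert j (T.erase j0) ∈ Finset.powersetCard s.card (Finset.univ : Finset κ) := by
      rw [Finset.mem_powersetCard]
      refine ⟨Finset.subset_univ _, ?_⟩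
      rw [Finset.card_insert_of_notMem (by simp [hj]), Finset.card_erase_of_mem hj0, hT.2]
      omega
    have h1 := hmax _ hmem
    rw [Finset.sum_insert (by simp [hj])] at h1
    have h2 := Finset.add_sum_erase T y hj0
    linarith
  have hτ0 : 0 ≤ τ := hy j0
  have hphi : Phf x τ ≤ Phf y τ := by
    rcases hτ0.eq_or_lt with h0 | h0
    · rw [← h0, Phf, Phf]
      simp only [sub_zero]
      rw [Finset.sum_congr rfl (fun i _ => max_eq_left (hx i)),
        Finset.sum_congr rfl (fun i _ => max_eq_left (hy i)), hs]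
    · exact h τ h0
  have h1 : ∑ i ∈ s, (x i - τ) ≤ Phf x τ := by
    calc ∑ j ∈ s, (x j - τ) ≤ ∑ j ∈ s, max (x j - τ) 0 :=
          Finset.sum_le_sum (fun j _ => le_max_left _ _)
      _ ≤ Phf x τ := Finset.sum_le_sum_of_subset_of_nonneg (Finset.subset_univ _)
          (fun j _ _ => le_max_right _ _)
  have h2 : Phf y τ = ∑ j ∈ T, (y j - τ) := by
    rw [Phf]
    symm
    rw [← Finset.sum_subset (Finset.subset_univ T)]
    · apply Finset.sum_congr rfl
      intro j hj
      rw [max_eq_left]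
      have := hmin j hj
      linarith
    · intro j _ hj
      rw [max_eq_right]
      have := hout j hj
      linarith
  rw [Finset.sum_sub_distrib, Finset.sum_const, nsmul_eq_mul] at h1
  rw [h2, Finset.sum_sub_distrib, Finset.sum_const, nsmul_eq_mul, hT.2] at hphi
  linarith

/-- the multiset of positive entries -/
noncomputable def posM {ι : Type} [Fintype ι] (x : ι → ℝ) : Multiset ℝ :=
  (Finset.univ.val.map x).filter (fun v => 0 < v)

lemma posM_pos {ι : Type} [Fintype ι] (x : ι → ℝ) : Pos (posM x) := by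
  intro v hv
  exact (Multiset.mem_filter.1 hv).2

/-- sums over the positive entries -/
lemma sum_map_filter (s : Multiset ℝ) (f : ℝ → ℝ) (hs : ∀ v ∈ s, 0 ≤ v) (hf : f 0 = 0) :
    ((s.filter (fun v => 0 < v)).map f).sum = (s.map f).sum := by
  induction s using Multiset.induction_on with
  | empty => simp
  | cons a s ih =>
    have ih' := ih (fun v hv => hs v (Multiset.mem_cons_of_mem hv))
    have ha := hs a (Multiset.mem_cons_self a s)
    rcases ha.eq_or_lt with h0 | h0
    · rw [Multiset.filter_cons_of_neg _ (by rw [← h0]; exact lt_irrefl _), Multiset.map_cons,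
        Multiset.sum_cons, ← h0, hf, zero_add, ih']
    · rw [Multiset.filter_cons_of_pos _ h0, Multiset.map_cons, Multiset.map_cons,
        Multiset.sum_cons, Multiset.sum_cons, ih']

lemma posM_sum_map {ι : Type} [Fintype ι] (x : ι → ℝ) (hx : ∀ i, 0 ≤ x i) (f : ℝ → ℝ)
    (hf : f 0 = 0) : ((posM x).map f).sum = ∑ i, f (x i) := by
  rw [posM, sum_map_filter _ f _ hf]
  · rw [Multiset.map_map]; rfl
  · intro v hv
    obtain ⟨i, _, rfl⟩ := Multiset.mem_map.1 hv
    exact hx i

lemma posM_sum {ι : Type} [Fintype ι] (x : ι → ℝ) (hx : ∀ i, 0 ≤ x i) :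
    (posM x).sum = ∑ i, x i := by
  have := posM_sum_map x hx (fun v => v) rfl
  simpa using this

/-- `Ph` of a product of multisets as a double sum -/
lemma Ph_ten_eq (s s' : Multiset ℝ) (t : ℝ) :
    Ph (ten s s') t = (s.map (fun a => (s'.map (fun b => max (a * b - t) 0)).sum)).sum := by
  rw [ten, Ph_bind]
  congr 1
  apply Multiset.map_congr rfl
  intro a _
  rw [Ph, Multiset.map_map]
  rfl

lemma Ph_ten_posM {ι κ : Type} [Fintype ι] [Fintype κ] (x : ι → ℝ) (z : κ → ℝ)
    (hx : ∀ i, 0 ≤ x i) (hz : ∀ i, 0 ≤ z i) {t : ℝ} (ht : 0 < t) :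
    Ph (ten (posM x) (posM z)) t = Phf (fun p : ι × κ => x p.1 * z p.2) t := by
  rw [Ph_ten_eq, Phf, Fintype.sum_prod_type]
  have h0 : max (0 - t) 0 = 0 := max_eq_right (by linarith)
  rw [posM_sum_map x hx]
  · apply Finset.sum_congr rfl
    intro i _
    rw [posM_sum_map z hz (fun b => max (x i * b - t) 0) (by simp [ht.le])]
  · have : (fun b : ℝ => max (0 * b - t) 0) = fun _ => 0 := by
      ext b; rw [zero_mul]; exact h0
    rw [this]
    simp

/-- A pure bipartite state of finite dimension, up to local unitaries, is given by its Schmidt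
vector: a probability vector of finite length. -/
structure State where
  d : ℕ
  p : Fin d → ℝ
  nonneg : ∀ i, 0 ≤ p i
  sum_one : ∑ i, p i = 1

/-- Schmidt vector of the tensor product of two states. -/
def State.tensor (ψ η : State) : Fin ψ.d × Fin η.d → ℝ := fun i => ψ.p i.1 * η.p i.2

/-- `ψ ⊗ η → φ ⊗ η'` is possible in LOCC (Nielsen's criterion). -/
def Possible (ψ η φ η' : State) : Prop := Maj (ψ.tensor η) (φ.tensor η')

/-- standard catalysis -/
def CatLOCC : Set (State × State) := {P | ∃ η : State, Possible P.1 η P.2 η}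

/-- flexible catalysis with catalysts from `S` -/
def CatFlexible (S : Set State) : Set (State × State) :=
  {P | ∀ η ∈ S, ∃ η' ∈ S, Possible P.1 η P.2 η'}

/-- flexible catalysis -/
def CatFlexibleLOCC : Set (State × State) := {P | ∃ S : Set State, S.Nonempty ∧ P ∈ CatFlexible S}

lemma possible_iff (ψ η φ η' : State) : Possible ψ η φ η' ↔
    ∀ t, 0 < t → Ph (ten (posM ψ.p) (posM η.p)) t ≤ Ph (ten (posM φ.p) (posM η'.p)) t := by
  constructor
  · intro h t ht
    rw [Ph_ten_posM _ _ ψ.nonneg η.nonneg ht, Ph_ten_posM _ _ φ.nonneg η'.nonneg ht]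
    exact Maj.phf h ht.le
  · intro h
    apply maj_of_phf
    · intro i; exact mul_nonneg (ψ.nonneg _) (η.nonneg _)
    · intro i; exact mul_nonneg (φ.nonneg _) (η'.nonneg _)
    · simp only [State.tensor, Fintype.sum_prod_type]
      simp only [← Finset.mul_sum, η.sum_one, η'.sum_one, mul_one, ψ.sum_one, φ.sum_one]
    · intro t ht
      have := h t ht
      rw [Ph_ten_posM _ _ ψ.nonneg η.nonneg ht, Ph_ten_posM _ _ φ.nonneg η'.nonneg ht] at this
      exact this

/-- a state from a nonempty positive multiset -/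
lemma exists_state (c : Multiset ℝ) (hc : c ≠ 0) (hp : Pos c) :
    ∃ η : State, ∃ S : ℝ, 0 < S ∧ posM η.p = c.map (fun v => S * v) := by
  obtain ⟨l, rfl⟩ := Quot.exists_rep c
  have hsum : 0 < (l : Multiset ℝ).sum := sum_pos_of_pos hp hc
  have hnn : ∀ i : Fin l.length, 0 < l.get i := fun i => hp _ (by
    change l.get i ∈ (l : Multiset ℝ)
    exact Multiset.mem_coe.2 (List.get_mem l i))
  have hS : 0 < ((l : Multiset ℝ).sum)⁻¹ := inv_pos.2 hsum
  refine ⟨⟨l.length, fun i => ((l : Multiset ℝ).sum)⁻¹ * l.get i, fun i =>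
    (mul_pos hS (hnn i)).le, ?_⟩, ((l : Multiset ℝ).sum)⁻¹, hS, ?_⟩
  · rw [← Finset.mul_sum]
    have h1 : ∑ i : Fin l.length, l.get i = l.sum := by
      rw [← List.sum_ofFn, List.ofFn_get]
    rw [h1, Multiset.sum_coe] at *
    exact inv_mul_cancel₀ hsum.ne'
  · have h1 : (Finset.univ.val.map (fun i : Fin l.length => ((l : Multiset ℝ).sum)⁻¹ * l.get i))
        = (l : Multiset ℝ).map (fun v => ((l : Multiset ℝ).sum)⁻¹ * v) := by
      have h2 : (Finset.univ.val.map (fun i : Fin l.length => l.get i)) = (l : Multiset ℝ) := by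
        rw [Fin.univ_val_map, List.ofFn_get]
      conv_rhs => rw [← h2]
      rw [Multiset.map_map]
      rw [h2]
      rfl
    rw [posM]
    simp only
    rw [h1, Multiset.filter_eq_self.2]
    · rfl
    · intro v hv
      obtain ⟨a, ha, rfl⟩ := Multiset.mem_map.1 hv
      exact mul_pos hS (hp a ha)

lemma ten_map_mul (s c : Multiset ℝ) (S : ℝ) :
    ten s (c.map (fun v => S * v)) = (ten s c).map (fun v => S * v) := by
  rw [ten, ten, Multiset.map_bind]
  congr 1
  ext1 a
  rw [Multiset.map_map, Multiset.map_map]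
  apply Multiset.map_congr rfl
  intro b _
  simp only [Function.comp]
  ring

theorem final (hcore : ∀ (x y : Multiset ℝ) (η : ℕ → Multiset ℝ), Pos x → Pos y →
    x.sum = 1 → y.sum = 1 → Chain x y η → Cat x y) : CatFlexibleLOCC = CatLOCC := by
  apply Set.Subset.antisymm
  · rintro ⟨ψ, φ⟩ ⟨S, ⟨η₀, hη₀⟩, hS⟩
    -- the chain
    choose! f hf1 hf2 using hS
    let e : ℕ → State := fun k => f^[k] η₀
    have heS : ∀ k, e k ∈ S := by
      intro k
      induction k with
      | zero => exact hη₀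
      | succ k ih =>
        change f^[k+1] η₀ ∈ S
        rw [Function.iterate_succ_apply']
        exact hf1 _ ih
    have hstep : ∀ k, Possible ψ (e k) φ (e (k + 1)) := by
      intro k
      have h1 := hf2 (e k) (heS k)
      have h2 : e (k + 1) = f (e k) := by
        change f^[k+1] η₀ = f (f^[k] η₀)
        rw [Function.iterate_succ_apply']
      rw [h2]
      exact h1
    obtain ⟨c, hc, hp, hcat⟩ := hcore (posM ψ.p) (posM φ.p) (fun k => posM (e k).p)
      (posM_pos _) (posM_pos _) (by rw [posM_sum _ ψ.nonneg, ψ.sum_one])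
      (by rw [posM_sum _ φ.nonneg, φ.sum_one])
      ⟨fun k => ⟨posM_pos _, by rw [posM_sum _ (e k).nonneg, (e k).sum_one]⟩,
        fun k t ht => (possible_iff _ _ _ _).1 (hstep k) t ht⟩
    obtain ⟨η, T, hT, hη⟩ := exists_state c hc hp
    refine ⟨η, ?_⟩
    rw [possible_iff]
    intro t ht
    simp only
    rw [hη, ten_map_mul, ten_map_mul, Ph_map_mul _ hT, Ph_map_mul _ hT]
    exact mul_le_mul_of_nonneg_left (hcat _ (div_pos ht hT)) hT.le
  · rintro ⟨ψ, φ⟩ ⟨η, hη⟩
    exact ⟨{η}, ⟨η, rfl⟩, fun η' h' => ⟨η, rfl, by rw [Set.mem_singleton_iff.1 h']; exact hη⟩⟩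

end R100FC
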