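import Pool.Agent.R100.FC.Stm

/-! Project FC, piece C1: Poincare / Polya theorem for univariate real polynomials. -/

namespace R100FC

namespace C1

open Polynomial

/-- some multiple by a power of `1 + X` has nonnegative coefficients -/
def G (p : Polynomial ℝ) : Prop :=
  ∃ N : ℕ, ∀ m, 0 ≤ ((1 + X) ^ N * p).coeff m

theorem coeff_mul_nonneg {p q : Polynomial ℝ} (hp : ∀ m, 0 ≤ p.coeff m)
    (hq : ∀ m, 0 ≤ q.coeff m) (m : ℕ) : 0 ≤ (p * q).coeff m := by
  rw [coeff_mul]
  exact Finset.sum_nonneg fun x _ => mul_nonneg (hp _) (hq _)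

theorem G_mul {p q : Polynomial ℝ} (hp : G p) (hq : G q) : G (p * q) := by
  obtain ⟨N, hN⟩ := hp
  obtain ⟨M, hM⟩ := hq
  refine ⟨N + M, fun m => ?_⟩
  have h : (1 + X) ^ (N + M) * (p * q) = ((1 + X) ^ N * p) * ((1 + X) ^ M * q) := by
    rw [pow_add]; ring
  rw [h]
  exact coeff_mul_nonneg hN hM m

theorem G_of_nonneg {p : Polynomial ℝ} (hp : ∀ m, 0 ≤ p.coeff m) : G p :=
  ⟨0, fun m => by rw [pow_zero, one_mul]; exact hp m⟩

theorem ch1 (N k : ℕ) : ((N : ℝ) + 1) * (N.choose k : ℝ) = ((N + 1).choose k : ℝ) * (N + 1 - k) := by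
  rcases le_or_gt k (N + 1) with h | h
  · have := Nat.choose_mul_succ_eq N k
    have h2 : ((N.choose k * (N + 1) : ℕ) : ℝ) = (((N + 1).choose k * (N + 1 - k) : ℕ) : ℝ) := by
      exact_mod_cast this
    push_cast [Nat.cast_sub h] at h2
    linarith
  · rw [Nat.choose_eq_zero_of_lt h, Nat.choose_eq_zero_of_lt (by omega : N < k)]
    simp

theorem ch2 (N j : ℕ) : ((N : ℝ) + 1) * (N.choose j : ℝ) =
    ((N + 1).choose (j + 1) : ℝ) * (j + 1) := by
  have := Nat.add_one_mul_choose_eq N j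
  exact_mod_cast this

theorem id0 (N k : ℕ) : ((N : ℝ) + 1) * (N + 2) * (N.choose k : ℝ) =
    ((N + 2).choose k : ℝ) * ((N + 2 - k) * (N + 2 - k - 1)) := by
  have h1 := ch1 N k
  have h2 := ch1 (N + 1) k
  push_cast at h2
  have h3 : ((N : ℝ) + 1) * (N + 2) * (N.choose k : ℝ) =
      (N + 2) * (((N + 1).choose k : ℝ) * (N + 1 - k)) := by rw [← h1]; ring
  rw [h3]
  have h4 : ((N : ℝ) + 2) * (((N + 1).choose k : ℝ) * (N + 1 - k)) =
      (((N : ℝ) + 1 + 1) * ((N + 1).choose k : ℝ)) * (N + 1 - k) := by ring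
  rw [h4, h2]
  ring

theorem id1 (N j : ℕ) : ((N : ℝ) + 1) * (N + 2) * (N.choose j : ℝ) =
    ((N + 2).choose (j + 1) : ℝ) * ((j + 1) * (N + 2 - (j + 1))) := by
  have h1 := ch2 N j
  have h2 := ch1 (N + 1) (j + 1)
  push_cast at h2
  have h3 : ((N : ℝ) + 1) * (N + 2) * (N.choose j : ℝ) =
      (((N : ℝ) + 1 + 1) * ((N + 1).choose (j + 1) : ℝ)) * (j + 1) := by
    linear_combination ((N : ℝ) + 2) * h1
  rw [h3, h2]
  ring

theorem id2 (N j : ℕ) : ((N : ℝ) + 1) * (N + 2) * (N.choose j : ℝ) =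
    ((N + 2).choose (j + 2) : ℝ) * ((j + 2) * (j + 1)) := by
  have h1 := ch2 N j
  have h2 := ch2 (N + 1) (j + 1)
  push_cast at h2
  have h3 : ((N : ℝ) + 1) * (N + 2) * (N.choose j : ℝ) =
      (((N : ℝ) + 1 + 1) * ((N + 1).choose (j + 1) : ℝ)) * (j + 1) := by
    linear_combination ((N : ℝ) + 2) * h1
  rw [h3, h2]
  ring

theorem quad_coeff (N k : ℕ) (b c : ℝ) :
    ((N : ℝ) + 1) * (N + 2) * ((1 + X) ^ N * (X ^ 2 - C (2 * b) * X + C c)).coeff k =
    ((N + 2).choose k : ℝ) * (c * ((N + 2 - k) * (N + 2 - k - 1)) - 2 * b * (k * (N + 2 - k))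
      + k * (k - 1)) := by
  have hexp : (1 + X) ^ N * (X ^ 2 - C (2 * b) * X + C c) =
      (1 + X) ^ N * X ^ 2 - C (2 * b) * ((1 + X) ^ N * X) + C c * (1 + X) ^ N := by ring
  rw [hexp, coeff_add, coeff_sub, coeff_C_mul, coeff_C_mul]
  rcases k with _ | _ | j
  · have h0 := id0 N 0
    simp only [coeff_mul_X_pow', coeff_one_add_X_pow]
    simp at h0 ⊢
    linear_combination c * h0
  · have h0 := id0 N 1
    have h1 := id1 N 0
    simp only [coeff_mul_X_pow', coeff_one_add_X_pow, zero_add, coeff_mul_X]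
    simp at h0 h1 ⊢
    linear_combination c * h0 - 2 * b * h1
  · have h0 := id0 N (j + 2)
    have h1 := id1 N (j + 1)
    have h2 := id2 N j
    have e1 : ((1 + X : Polynomial ℝ) ^ N * X ^ 2).coeff (j + 2) = (N.choose j : ℝ) := by
      rw [coeff_mul_X_pow, coeff_one_add_X_pow]
    have e2 : ((1 + X : Polynomial ℝ) ^ N * X).coeff (j + 2) = (N.choose (j + 1) : ℝ) := by
      rw [show j + 2 = (j + 1) + 1 from rfl, coeff_mul_X, coeff_one_add_X_pow]
    rw [show j + 1 + 1 = j + 2 from rfl, e1, e2, coeff_one_add_X_pow]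
    push_cast at h0 h1 h2 ⊢
    rw [show j + 1 + 1 = j + 2 from rfl] at h1
    linear_combination c * h0 - 2 * b * h1 + h2

theorem form_bound (b c : ℝ) (h : b ^ 2 < c) (u k : ℝ) :
    (c - b ^ 2) / (c + 1) * (u ^ 2 + k ^ 2) ≤ c * u ^ 2 - 2 * b * (k * u) + k ^ 2 := by
  have hc : 0 < c + 1 := by nlinarith [sq_nonneg b]
  set l := (c - b ^ 2) / (c + 1) with hl
  have hl1 : l * (c + 1) = c - b ^ 2 := by rw [hl]; field_simp
  have hl2 : l < 1 := by
    rw [hl, div_lt_one hc]; nlinarith [sq_nonneg b]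
  have h1 : 0 < 1 - l := by linarith
  have key : 0 ≤ (1 - l) * (c * u ^ 2 - 2 * b * (k * u) + k ^ 2 - l * (u ^ 2 + k ^ 2)) := by
    have : (1 - l) * (c * u ^ 2 - 2 * b * (k * u) + k ^ 2 - l * (u ^ 2 + k ^ 2)) =
        ((1 - l) * k - b * u) ^ 2 + l ^ 2 * u ^ 2 := by
      linear_combination (-u ^ 2) * hl1
    rw [this]; positivity
  have := nonneg_of_mul_nonneg_right key h1
  linarith

theorem G_quad (b c : ℝ) (h : b ^ 2 < c) : G (X ^ 2 - C (2 * b) * X + C c) := by
  have hc0 : 0 < c := lt_of_le_of_lt (sq_nonneg b) h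
  have hc : 0 < c + 1 := by linarith
  set l := (c - b ^ 2) / (c + 1) with hl
  have hlpos : 0 < l := by rw [hl]; exact div_pos (by linarith) hc
  obtain ⟨N, hN⟩ := exists_nat_ge (2 * (c + 1) / l)
  refine ⟨N, fun k => ?_⟩
  have hq := quad_coeff N k b c
  have hpos : 0 < ((N : ℝ) + 1) * (N + 2) := by positivity
  have hrhs : 0 ≤ ((N + 2).choose k : ℝ) * (c * ((N + 2 - k) * (N + 2 - k - 1)) -
      2 * b * (k * (N + 2 - k)) + k * (k - 1)) := by
    rcases le_or_gt k (N + 2) with hk | hk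
    · refine mul_nonneg (Nat.cast_nonneg _) ?_
      have hk' : (k : ℝ) ≤ N + 2 := by exact_mod_cast hk
      have hk0 : (0 : ℝ) ≤ k := Nat.cast_nonneg _
      set u : ℝ := N + 2 - k with hu
      have hu0 : 0 ≤ u := by rw [hu]; linarith
      have hsum : u + k = N + 2 := by rw [hu]; ring
      have hf := form_bound b c h u k
      rw [← hl] at hf
      have hsq : (N + 2 : ℝ) ^ 2 / 2 ≤ u ^ 2 + k ^ 2 := by
        rw [← hsum]; nlinarith [sq_nonneg (u - k)]
      have hNl : 2 * (c + 1) ≤ l * (N + 2) := by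
        have : 2 * (c + 1) / l ≤ N + 2 := by linarith
        rw [div_le_iff₀ hlpos] at this
        linarith
      have h3 : l * ((N + 2 : ℝ) ^ 2 / 2) ≤ l * (u ^ 2 + k ^ 2) :=
        mul_le_mul_of_nonneg_left hsq hlpos.le
      have h4 : (c + 1) * (N + 2 : ℝ) ≤ l * ((N + 2 : ℝ) ^ 2 / 2) := by
        have : (0 : ℝ) ≤ N + 2 := by positivity
        nlinarith
      have h5 : c * u + k ≤ (c + 1) * (N + 2 : ℝ) := by
        rw [← hsum]; nlinarith
      nlinarith
    · rw [Nat.choose_eq_zero_of_lt hk]; simp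
  rw [← hq] at hrhs
  exact nonneg_of_mul_nonneg_right hrhs hpos

theorem main (n : ℕ) : ∀ p : Polynomial ℝ, p.natDegree = n → (∀ z : ℝ, 0 < z → 0 < p.eval z) →
    G p := by
  induction n using Nat.strong_induction_on with
  | _ n ih =>
    intro p hpn hp
    have hp0 : p ≠ 0 := by
      rintro rfl
      simpa using hp 1 one_pos
    rcases Nat.eq_zero_or_pos n with hn | hn
    · rw [hn] at hpn
      rw [natDegree_eq_zero] at hpn
      obtain ⟨a, rfl⟩ := hpn
      have ha := hp 1 one_pos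
      rw [eval_C] at ha
      apply G_of_nonneg
      intro m
      rw [coeff_C]
      split_ifs <;> linarith
    · by_cases hr : ∃ ρ : ℝ, p.IsRoot ρ
      · obtain ⟨ρ, hρ⟩ := hr
        have hρ0 : ρ ≤ 0 := by
          by_contra hcon
          have := hp ρ (not_le.mp hcon)
          rw [IsRoot.def] at hρ
          linarith
        obtain ⟨q, hq⟩ := dvd_iff_isRoot.mpr hρ
        have hq0 : q ≠ 0 := by rintro rfl; rw [mul_zero] at hq; exact hp0 hq
        have hdeg : p.natDegree = 1 + q.natDegree := by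
          rw [hq, natDegree_mul (X_sub_C_ne_zero ρ) hq0, natDegree_X_sub_C]
        rw [hq]
        apply G_mul
        · apply G_of_nonneg
          intro m
          rw [coeff_sub, coeff_X, coeff_C]
          split_ifs <;> linarith
        · apply ih q.natDegree (by omega) q rfl
          intro z hz
          have h1 := hp z hz
          rw [hq, eval_mul, eval_sub, eval_X, eval_C] at h1
          exact pos_of_mul_pos_right h1 (by linarith)
      · have hdeg : p.degree ≠ 0 := by
          rw [degree_eq_natDegree hp0, hpn]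
          exact_mod_cast hn.ne'
        obtain ⟨w, hw⟩ := IsAlgClosed.exists_aeval_eq_zero ℂ p hdeg
        have him : w.im ≠ 0 := by
          intro him
          apply hr
          refine ⟨w.re, ?_⟩
          have hwr : w = algebraMap ℝ ℂ w.re := by
            apply Complex.ext <;> simp [him]
          rw [hwr, aeval_algebraMap_apply] at hw
          have : (p.aeval w.re : ℝ) = 0 := by
            have h2 := hw
            rw [← map_zero (algebraMap ℝ ℂ)] at h2
            exact (algebraMap ℝ ℂ).injective h2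
          rw [IsRoot.def]
          simpa [coe_aeval_eq_eval] using this
        obtain ⟨q, hq⟩ := quadratic_dvd_of_aeval_eq_zero_im_ne_zero p hw him
        have hbc : w.re ^ 2 < ‖w‖ ^ 2 := by
          rw [← Complex.normSq_eq_norm_sq, Complex.normSq_apply]
          have : 0 < w.im * w.im := mul_self_pos.mpr him
          nlinarith
        have hq0 : q ≠ 0 := by rintro rfl; rw [mul_zero] at hq; exact hp0 hq
        have hquad0 : (X ^ 2 - C (2 * w.re) * X + C (‖w‖ ^ 2) : Polynomial ℝ) ≠ 0 := by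
          intro h0; rw [h0, zero_mul] at hq; exact hp0 hq
        have hqd : (X ^ 2 - C (2 * w.re) * X + C (‖w‖ ^ 2) : Polynomial ℝ).natDegree = 2 := by
          compute_degree!
        have hdeg2 : p.natDegree = 2 + q.natDegree := by
          rw [hq, natDegree_mul hquad0 hq0, hqd]
        rw [hq]
        apply G_mul (G_quad _ _ hbc)
        apply ih q.natDegree (by omega) q rfl
        intro z hz
        have h1 := hp z hz
        rw [hq, eval_mul] at h1
        have h2 : 0 ≤ (X ^ 2 - C (2 * w.re) * X + C (‖w‖ ^ 2) : Polynomial ℝ).eval z := by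
          simp only [eval_add, eval_sub, eval_mul, eval_pow, eval_X, eval_C]
          nlinarith [sq_nonneg (z - w.re)]
        exact pos_of_mul_pos_right h1 h2

end C1

theorem sC1 : StmC1 := fun p hp => C1.main p.natDegree p rfl hp

end R100FC
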