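import Pool.Agent.R100.FC.Stm

/-! # FC-C2: positivity of the sums gives a catalyst -/

set_option autoImplicit false

namespace R100FC

open Finset

lemma c2_rep (s : Multiset ℝ) (n : ℕ) {a : ℝ} (ha : 0 < a) (t : ℝ) :
    Ph (ten s (Multiset.replicate n a)) t = n * (a * Ph s (t / a)) := by
  rw [Ph_ten_right s _ (fun v hv => by rw [Multiset.eq_of_mem_replicate hv]; exact ha),
    Multiset.map_replicate, Multiset.sum_replicate, nsmul_eq_mul]

/-- the catalyst -/
noncomputable def c2_c (q : ℝ) (N : ℕ) : Multiset ℝ :=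
  ∑ j ∈ range (N + 1), Multiset.replicate (N.choose j) (q ^ j)

lemma c2_Ph (s : Multiset ℝ) {q : ℝ} (hq : 0 < q) (N : ℕ) (t : ℝ) :
    Ph (ten s (c2_c q N)) t = ∑ j ∈ range (N + 1), (N.choose j : ℝ) * (q ^ j * Ph s (t / q ^ j)) := by
  unfold c2_c
  rw [ten_sum_right, Ph_sum]
  exact sum_congr rfl fun j _ => c2_rep s _ (pow_pos hq j) t

lemma c2_pos {q : ℝ} (hq : 0 < q) (N : ℕ) : Pos (c2_c q N) := by
  intro v hv
  unfold c2_c at hv
  rw [Multiset.mem_sum] at hv
  obtain ⟨j, _, hj⟩ := hv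
  rw [Multiset.eq_of_mem_replicate hj]
  exact pow_pos hq j

lemma c2_ne {q : ℝ} (N : ℕ) : c2_c q N ≠ 0 := by
  intro h
  unfold c2_c at h
  rw [sum_range_succ'] at h
  have h2 := congrArg Multiset.card h
  simp at h2

lemma c2_up (s : Multiset ℝ) : ∃ T : ℝ, ∀ v ∈ s, v ≤ T := by
  induction s using Multiset.induction_on with
  | empty => exact ⟨0, by simp⟩
  | cons a s ih =>
    obtain ⟨T, hT⟩ := ih
    refine ⟨max a T, fun v hv => ?_⟩
    rcases Multiset.mem_cons.1 hv with rfl | hv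
    · exact le_max_left _ _
    · exact (hT v hv).trans (le_max_right _ _)

lemma c2_lo (s : Multiset ℝ) (hs : Pos s) : ∃ T : ℝ, 0 < T ∧ ∀ v ∈ s, T ≤ v := by
  induction s using Multiset.induction_on with
  | empty => exact ⟨1, one_pos, by simp⟩
  | cons a s ih =>
    obtain ⟨T, hT0, hT⟩ := ih (fun v hv => hs v (Multiset.mem_cons_of_mem hv))
    refine ⟨min a T, lt_min (hs a (Multiset.mem_cons_self a s)) hT0, fun v hv => ?_⟩
    rcases Multiset.mem_cons.1 hv with rfl | hv
    · exact min_le_left _ _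
    · exact (min_le_right _ _).trans (hT v hv)

theorem sC2 : StmC2 := by
  intro hC1 x y y₁ q K₀ hx hy hy₁ hsum hcard hq hcomp hRs
  have hq0 : 0 < q := by linarith
  -- the differences
  set Δ : ℤ → ℝ := fun l => Ph y₁ (q ^ l) - Ph x (q ^ l) with hΔ
  obtain ⟨K, hK0, hKup, hKlo⟩ : ∃ K : ℕ, K₀ ≤ K ∧ (∀ l : ℤ, (K : ℤ) < l → Δ l = 0) ∧
      (∀ l : ℤ, l < -(K : ℤ) → Δ l = 0) := by
    obtain ⟨T1, h1⟩ := c2_up (x + y₁)
    obtain ⟨T2, h20, h2⟩ := c2_lo (x + y₁) (by
      intro v hv
      rcases Multiset.mem_add.1 hv with h | h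
      · exact hx v h
      · exact hy₁ v h)
    obtain ⟨k1, hk1⟩ := pow_unbounded_of_one_lt T1 hq
    obtain ⟨k2, hk2⟩ := pow_unbounded_of_one_lt (1 / T2) hq
    refine ⟨max K₀ (max k1 k2), le_max_left _ _, fun l hl => ?_, fun l hl => ?_⟩
    · have h3 : T1 ≤ q ^ l := by
        refine hk1.le.trans ?_
        rw [← zpow_natCast]
        refine zpow_le_zpow_right₀ hq.le ?_
        have : k1 ≤ max K₀ (max k1 k2) := (le_max_left _ _).trans (le_max_right _ _)
        omega
      have e1 : Ph y₁ (q ^ l) = 0 := Ph_eq_zero _ _ fun v hv =>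
        (h1 v (Multiset.mem_add.2 (Or.inr hv))).trans h3
      have e2 : Ph x (q ^ l) = 0 := Ph_eq_zero _ _ fun v hv =>
        (h1 v (Multiset.mem_add.2 (Or.inl hv))).trans h3
      rw [hΔ]
      simp only [e1, e2, sub_self]
    · have h3 : q ^ l ≤ T2 := by
        have h4 : q ^ l ≤ q ^ (-(k2 : ℤ)) := by
          refine zpow_le_zpow_right₀ hq.le ?_
          have : k2 ≤ max K₀ (max k1 k2) := (le_max_right _ _).trans (le_max_right _ _)
          omega
        refine h4.trans ?_
        rw [zpow_neg, zpow_natCast]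
        rw [inv_le_comm₀ (pow_pos hq0 _) h20]
        rw [one_div] at hk2
        exact hk2.le
      have e1 : Ph y₁ (q ^ l) = y₁.sum - y₁.card * q ^ l := Ph_eq_of_le _ _ fun v hv =>
        h3.trans (h2 v (Multiset.mem_add.2 (Or.inr hv)))
      have e2 : Ph x (q ^ l) = x.sum - x.card * q ^ l := Ph_eq_of_le _ _ fun v hv =>
        h3.trans (h2 v (Multiset.mem_add.2 (Or.inl hv)))
      rw [hΔ]
      simp only [e1, e2, hsum, hcard, sub_self]
  -- the polynomial
  set cf : ℕ → ℝ := fun i => Δ ((i : ℤ) - K) * (q ^ ((i : ℤ) - K))⁻¹ with hcf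
  set P : Polynomial ℝ := ∑ i ∈ range (2 * K + 1), Polynomial.monomial i (cf i) with hP
  have hcoef : ∀ i : ℕ, P.coeff i = cf i := by
    intro i
    rw [hP, Polynomial.finsetSum_coeff]
    simp only [Polynomial.coeff_monomial]
    rw [sum_ite_eq']
    split_ifs with h
    · rfl
    · rw [hcf]
      simp only
      rw [hKup _ (by rw [mem_range] at h; omega), zero_mul]
  have heval : ∀ z : ℝ, 0 < z → 0 < P.eval z := by
    intro z hz
    set r := Real.log z / Real.log q with hr
    have hlq : 0 < Real.log q := Real.log_pos hq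
    have hzr : q ^ r = z := by
      rw [Real.rpow_def_of_pos hq0, hr, mul_div_cancel₀ _ hlq.ne', Real.exp_log hz]
    have e : P.eval z = z ^ K * Rs x y₁ q K r := by
      rw [hP, Polynomial.eval_finsetSum]
      simp only [Polynomial.eval_monomial]
      unfold Rs
      have e2 : Finset.Icc (-(K : ℤ)) K = (range (2 * K + 1)).image (fun i : ℕ => (i : ℤ) - K) := by
        ext l
        rw [Finset.mem_Icc, mem_image]
        constructor
        · rintro ⟨h1, h2⟩
          exact ⟨(l + K).toNat, by rw [mem_range]; omega, by omega⟩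
        · rintro ⟨i, hi, rfl⟩
          rw [mem_range] at hi
          constructor <;> omega
      rw [e2, sum_image (by intro a _ b _ h; simp only at h; omega), mul_sum]
      refine sum_congr rfl fun i _ => ?_
      rw [hcf]
      simp only
      rw [hΔ]
      simp only
      have hql : 0 < q ^ ((i : ℤ) - K) := zpow_pos hq0 _
      have e3 : (q ^ ((i : ℤ) - K)) ^ (r - 1) = z ^ ((i : ℤ) - K) * (q ^ ((i : ℤ) - K))⁻¹ := by
        rw [Real.rpow_sub hql, Real.rpow_one, ← Real.rpow_intCast q, ← Real.rpow_mul hq0.le,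
          mul_comm ((((i : ℤ) - K : ℤ)) : ℝ) r, Real.rpow_mul hq0.le, hzr, Real.rpow_intCast]
        rw [div_eq_mul_inv]
      have e4 : z ^ i = z ^ K * z ^ ((i : ℤ) - K) := by
        rw [zpow_sub₀ hz.ne', zpow_natCast, zpow_natCast]
        field_simp
      rw [e3, e4]
      ring
    rw [e]
    exact mul_pos (pow_pos hz K) (hRs K hK0 r)
  obtain ⟨N, hN⟩ := hC1 P heval
  -- comparison at the points `q ^ m`
  have hmain : ∀ m : ℤ, Ph (ten x (c2_c q N)) (q ^ m) ≤ Ph (ten y₁ (c2_c q N)) (q ^ m) := by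
    intro m
    rw [← sub_nonneg, c2_Ph _ hq0, c2_Ph _ hq0, ← sum_sub_distrib]
    have e0 : ∀ j ∈ range (N + 1), (N.choose j : ℝ) * (q ^ j * Ph y₁ (q ^ m / q ^ j))
        - (N.choose j : ℝ) * (q ^ j * Ph x (q ^ m / q ^ j))
        = (N.choose j : ℝ) * (q ^ j * Δ (m - j)) := by
      intro j _
      rw [hΔ]
      simp only
      rw [zpow_sub₀ hq0.ne', zpow_natCast]
      ring
    rw [sum_congr rfl e0]
    by_cases hm : m + K < 0
    · rw [sum_eq_zero]
      intro j _
      rw [hKlo _ (by omega), mul_zero, mul_zero]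
    · obtain ⟨n, hn⟩ := Int.eq_ofNat_of_zero_le (not_lt.1 hm)
      have h1 := hN n
      rw [Polynomial.coeff_mul, Finset.Nat.sum_antidiagonal_eq_sum_range_succ_mk] at h1
      have e1 : ∑ j ∈ range (N + 1), (N.choose j : ℝ) * (q ^ j * Δ (m - j))
          = ∑ j ∈ range (N + n + 1), (N.choose j : ℝ) * (q ^ j * Δ (m - j)) := by
        refine sum_subset (range_subset_range.2 (by omega)) fun j _ hj => ?_
        rw [mem_range] at hj
        rw [Nat.choose_eq_zero_of_lt (by omega), Nat.cast_zero, zero_mul]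
      have e2 : ∑ j ∈ range (n + 1), (N.choose j : ℝ) * (q ^ j * Δ (m - j))
          = ∑ j ∈ range (N + n + 1), (N.choose j : ℝ) * (q ^ j * Δ (m - j)) := by
        refine sum_subset (range_subset_range.2 (by omega)) fun j _ hj => ?_
        rw [mem_range] at hj
        rw [hKlo _ (by omega), mul_zero, mul_zero]
      rw [e1, ← e2]
      have e3 : ∑ j ∈ range (n + 1), (N.choose j : ℝ) * (q ^ j * Δ (m - j))
          = q ^ m * ∑ j ∈ range n.succ, ((1 + Polynomial.X : Polynomial ℝ) ^ N).coeff j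
            * P.coeff (n - j) := by
        rw [mul_sum]
        refine sum_congr rfl fun j hj => ?_
        rw [mem_range] at hj
        rw [hcoef, Polynomial.coeff_one_add_X_pow, hcf]
        simp only
        have e4 : ((n - j : ℕ) : ℤ) - K = m - j := by
          omega
        rw [e4, zpow_sub₀ hq0.ne' m, zpow_natCast]
        have : q ^ m ≠ 0 := (zpow_pos hq0 m).ne'
        have : q ^ j ≠ 0 := (pow_pos hq0 j).ne'
        field_simp
      rw [e3]
      exact mul_nonneg (zpow_pos hq0 m).le h1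
  refine ⟨c2_c q N, c2_ne N, c2_pos hq0 N, fun t ht => ?_⟩
  obtain ⟨m, hm1, hm2⟩ := exists_mem_Ico_zpow ht hq
  have h1 : t / q ≤ q ^ m := by
    rw [div_le_iff₀ hq0, ← zpow_add_one₀ hq0.ne']
    exact hm2.le
  calc Ph (ten x (c2_c q N)) t ≤ Ph (ten x (c2_c q N)) (q ^ m) := Ph_antitone _ hm1
    _ ≤ Ph (ten y₁ (c2_c q N)) (q ^ m) := hmain m
    _ ≤ Ph (ten y₁ (c2_c q N)) (t / q) := Ph_antitone _ h1
    _ ≤ Ph (ten y (c2_c q N)) t := by
      rw [c2_Ph _ hq0, c2_Ph _ hq0]
      refine sum_le_sum fun j _ => ?_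
      refine mul_le_mul_of_nonneg_left ?_ (Nat.cast_nonneg _)
      refine mul_le_mul_of_nonneg_left ?_ (pow_pos hq0 j).le
      have h2 := hcomp (t / q ^ j) (div_pos ht (pow_pos hq0 j))
      have e : t / q / q ^ j = t / q ^ j / q := by
        rw [div_div, div_div, mul_comm]
      rwa [e]

end R100FC
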