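import Pool.Agent.R100.FC.C3aux

/-! C3a: positivity for small `r` (helper888). -/

namespace R100FC

open Set C3

theorem sC3a : StmC3a := by
  intro x y h
  obtain ⟨hσ, hz, t0, ht0, ht01, hx0, hy0, hlow⟩ := basic h
  set z : ℝ := ((x.card - y.card : ℕ) : ℝ) with hzdef
  set σ := x.sum with hσdef
  have hlog2 : 0 < Real.log 2 := Real.log_pos (by norm_num)
  -- choice of r₁
  set D := σ / t0 * (0 - Real.log t0) + 1 with hD
  have hlogt0 : Real.log t0 < 0 := Real.log_neg ht0 ht01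
  have hDpos : 0 < D := by
    have : 0 < σ / t0 * (0 - Real.log t0) := mul_pos (div_pos hσ ht0) (by linarith)
    linarith
  set r₁ := min (1 / 2) (z / 4 * Real.log 2 / D) with hr₁
  have hr₁pos : 0 < r₁ := lt_min (by norm_num) (by positivity)
  have hr₁lt : r₁ < 1 := (min_le_left _ _).trans_lt (by norm_num)
  have hr₁D : D ≤ z / 4 * (Real.log 2 / r₁) := by
    have h1 : r₁ ≤ z / 4 * Real.log 2 / D := min_le_right _ _
    rw [le_div_iff₀ hDpos] at h1
    rw [← mul_div_assoc, le_div_iff₀ hr₁pos]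
    linarith
  set t1 := t0 * (2:ℝ) ^ (-(1 / r₁)) with ht1
  have h2pos : 0 < (2:ℝ) ^ (-(1 / r₁)) := Real.rpow_pos_of_pos (by norm_num) _
  have ht1pos : 0 < t1 := mul_pos ht0 h2pos
  have ht1le : t1 ≤ t0 := by
    have : (2:ℝ) ^ (-(1 / r₁)) ≤ 1 := by
      apply Real.rpow_le_one_of_one_le_of_nonpos (by norm_num)
      have : 0 < 1 / r₁ := by positivity
      linarith
    nlinarith
  have ht1r : t1 ^ r₁ = t0 ^ r₁ / 2 := by
    rw [ht1, Real.mul_rpow ht0.le h2pos.le, ← Real.rpow_mul (by norm_num)]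
    have : -(1 / r₁) * r₁ = -1 := by field_simp
    rw [this, Real.rpow_neg_one]
    ring
  have hlogt1 : Real.log t0 - Real.log t1 = Real.log 2 / r₁ := by
    rw [ht1, Real.log_mul ht0.ne' h2pos.ne', Real.log_rpow (by norm_num)]
    ring
  refine ⟨r₁, hr₁pos, hr₁lt, min (1 / 2) (t1 * z / (2 * σ)), lt_min (by norm_num) (by positivity),
    ?_⟩
  intro δ hδ hδ1
  have hδ2 : δ ≤ 1 / 2 := (hδ1.trans_le (min_le_left _ _)).le
  have hτ : δ * σ / z ≤ t1 / 2 := by
    have h1 : δ ≤ t1 * z / (2 * σ) := (hδ1.trans_le (min_le_right _ _)).le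
    rw [le_div_iff₀ (by positivity)] at h1
    rw [div_le_iff₀ hz]
    nlinarith
  set C := z / 4 + σ / t0 with hC
  have hCpos : 0 < C := by positivity
  refine ⟨Real.exp (1 / C), Real.one_lt_exp_iff.2 (by positivity), ?_⟩
  intro q hq hq1
  have hL : 0 < Real.log q := Real.log_pos hq
  have hLC : Real.log q * C < 1 := by
    have : Real.log q < 1 / C := by
      rw [Real.log_lt_iff_lt_exp (by linarith)]
      exact hq1
    rwa [lt_div_iff₀ hCpos] at this
  obtain ⟨K₀, hK₀⟩ := sum_lower hq ht1pos ht1le ht0 ht01.le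
  refine ⟨K₀, ?_⟩
  intro K hK r hr
  have hmain := hK₀ K hK (fun t => (Ph (yd y (x.card - y.card) δ) t - Ph x t) * t ^ (r - 1))
    (z / 4 * t0 ^ r) (σ / t0 * t0 ^ r) (by positivity) (by positivity) ?_ ?_ ?_
  · have hRs : Rs x (yd y (x.card - y.card) δ) q K r
        = ∑ m ∈ Finset.Icc (-(K:ℤ)) K,
          (fun t => (Ph (yd y (x.card - y.card) δ) t - Ph x t) * t ^ (r - 1)) (q ^ m) := rfl
    rw [hRs]
    refine lt_of_lt_of_le ?_ hmain
    rw [hlogt1, Real.log_one]
    have ht0r : 0 < t0 ^ r := Real.rpow_pos_of_pos ht0 r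
    have key : 0 < z / 4 * (Real.log 2 / r₁ / Real.log q - 1)
        - σ / t0 * ((0 - Real.log t0) / Real.log q + 1) := by
      have e : z / 4 * (Real.log 2 / r₁ / Real.log q - 1)
        - σ / t0 * ((0 - Real.log t0) / Real.log q + 1)
        = (z / 4 * (Real.log 2 / r₁) - σ / t0 * (0 - Real.log t0) - Real.log q * C) / Real.log q := by
        rw [hC]; field_simp; ring
      rw [e]
      apply div_pos _ hL
      linarith
    have : z / 4 * t0 ^ r * (Real.log 2 / r₁ / Real.log q - 1)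
        - σ / t0 * t0 ^ r * ((0 - Real.log t0) / Real.log q + 1)
        = t0 ^ r * (z / 4 * (Real.log 2 / r₁ / Real.log q - 1)
        - σ / t0 * ((0 - Real.log t0) / Real.log q + 1)) := by ring
    rw [this]
    exact mul_pos ht0r key
  · intro t h1 h2
    have htpos : 0 < t := ht1pos.trans_le h1
    show z / 4 * t0 ^ r ≤ (Ph (yd y (x.card - y.card) δ) t - Ph x t) * t ^ (r - 1)
    rw [hlow δ hδ hδ2 t htpos h2, max_eq_left (by linarith)]
    have e1 : t * t ^ (r - 1) = t ^ r := by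
      rw [Real.rpow_sub_one htpos.ne']
      field_simp
    have hw : 0 < t ^ (r - 1) := Real.rpow_pos_of_pos htpos _
    have e2 : t ^ r = t ^ r₁ * t ^ (r - r₁) := by
      rw [← Real.rpow_add htpos]; ring_nf
    have e3 : t0 ^ r = t0 ^ r₁ * t0 ^ (r - r₁) := by
      rw [← Real.rpow_add ht0]; ring_nf
    have i1 : t0 ^ r₁ / 2 ≤ t ^ r₁ := by
      rw [← ht1r]
      exact Real.rpow_le_rpow ht1pos.le h1 hr₁pos.le
    have i2 : t0 ^ (r - r₁) ≤ t ^ (r - r₁) :=
      Real.rpow_le_rpow_of_nonpos htpos h2 (by linarith)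
    have i3 : t0 ^ r / 2 ≤ t ^ r := by
      rw [e2, e3]
      have p1 : 0 < t0 ^ r₁ := Real.rpow_pos_of_pos ht0 _
      have p2 : 0 < t0 ^ (r - r₁) := Real.rpow_pos_of_pos ht0 _
      calc t0 ^ r₁ * t0 ^ (r - r₁) / 2 = (t0 ^ r₁ / 2) * t0 ^ (r - r₁) := by ring
        _ ≤ t ^ r₁ * t ^ (r - r₁) := mul_le_mul i1 i2 p2.le (by linarith)
    have i4 : t / 2 * t ^ (r - 1) ≤ (t - δ * σ / z) * t ^ (r - 1) :=
      mul_le_mul_of_nonneg_right (by linarith) hw.le
    have i5 : t0 ^ r / 4 ≤ (t - δ * σ / z) * t ^ (r - 1) := by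
      have : t / 2 * t ^ (r - 1) = t ^ r / 2 := by rw [← e1]; ring
      linarith
    calc z / 4 * t0 ^ r = z * (t0 ^ r / 4) := by ring
      _ ≤ z * ((t - δ * σ / z) * t ^ (r - 1)) := mul_le_mul_of_nonneg_left i5 hz.le
      _ = z * (t - δ * σ / z) * t ^ (r - 1) := by ring
  · intro t h1 h2 h3
    have htpos : 0 < t := ht0.trans_le h1
    show -(σ / t0 * t0 ^ r) ≤ (Ph (yd y (x.card - y.card) δ) t - Ph x t) * t ^ (r - 1)
    have hd := delta_ge h (x.card - y.card) δ htpos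
    have hw : 0 < t ^ (r - 1) := Real.rpow_pos_of_pos htpos _
    have hw2 : t ^ (r - 1) ≤ t0 ^ (r - 1) :=
      Real.rpow_le_rpow_of_nonpos ht0 h1 (by linarith)
    have e : σ / t0 * t0 ^ r = σ * t0 ^ (r - 1) := by
      rw [Real.rpow_sub_one ht0.ne']; ring
    rw [e]
    nlinarith [mul_le_mul_of_nonneg_left hw2 hσ.le]
  · intro t htpos h1 h2
    show 0 ≤ (Ph (yd y (x.card - y.card) δ) t - Ph x t) * t ^ (r - 1)
    apply mul_nonneg _ (Real.rpow_nonneg htpos.le _)
    rcases le_total t t0 with h3 | h3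
    · rw [hlow δ hδ hδ2 t htpos h3]
      exact mul_nonneg hz.le (le_max_right _ _)
    · have h4 : 1 < t := by
        by_contra h5
        exact h1 ⟨h3, not_lt.1 h5⟩
      apply delta_nonneg_of_ge
      intro u hu
      exact (h.2.2.2.2.1 u hu).trans h4.le

end R100FC
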