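import Pool.Agent.R100.FC.Stm

/-! Auxiliary lemmas for C3a and C3c (helper888). -/

namespace R100FC.C3

open Set R100FC

/-- lower bound of the number of integers in a real interval -/
lemma card_lower (α β : ℝ) : β - α - 1 ≤ ((Finset.Icc ⌈α⌉ ⌊β⌋).card : ℝ) := by
  rw [Int.card_Icc]
  have h1 : ((⌊β⌋ + 1 - ⌈α⌉ : ℤ) : ℝ) ≤ (((⌊β⌋ + 1 - ⌈α⌉).toNat : ℤ) : ℝ) := by
    exact_mod_cast Int.self_le_toNat _
  have h2 := Int.lt_floor_add_one β
  have h3 := Int.ceil_lt_add_one α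
  push_cast at h1
  linarith

lemma card_upper (α β : ℝ) (h : α ≤ β) : ((Finset.Icc ⌈α⌉ ⌊β⌋).card : ℝ) ≤ β - α + 1 := by
  rw [Int.card_Icc]
  have h2 := Int.floor_le β
  have h3 := Int.le_ceil α
  rcases le_total 0 (⌊β⌋ + 1 - ⌈α⌉) with h0 | h0
  · have h1 : (((⌊β⌋ + 1 - ⌈α⌉).toNat : ℤ) : ℝ) = ((⌊β⌋ + 1 - ⌈α⌉ : ℤ) : ℝ) := by
      exact_mod_cast Int.toNat_of_nonneg h0
    have h4 : (((⌊β⌋ + 1 - ⌈α⌉).toNat : ℕ) : ℝ) = (((⌊β⌋ + 1 - ⌈α⌉).toNat : ℤ) : ℝ) := by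
      push_cast; rfl
    rw [h4, h1]
    push_cast
    linarith
  · rw [Int.toNat_of_nonpos h0]
    push_cast
    linarith

lemma mem_iff {q : ℝ} (hq : 1 < q) {a b : ℝ} (ha : 0 < a) (hb : 0 < b) (m : ℤ) :
    m ∈ Finset.Icc ⌈Real.log a / Real.log q⌉ ⌊Real.log b / Real.log q⌋ ↔
      (a ≤ q ^ m ∧ q ^ m ≤ b) := by
  have hL : 0 < Real.log q := Real.log_pos hq
  have hq0 : 0 < q := by linarith
  have hm : 0 < q ^ m := zpow_pos hq0 m
  rw [Finset.mem_Icc, Int.ceil_le, Int.le_floor, div_le_iff₀ hL, le_div_iff₀ hL]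
  rw [← Real.log_zpow, Real.log_le_log_iff ha hm, Real.log_le_log_iff hm hb]

/-- the main lower bound. -/
lemma sum_lower {q : ℝ} (hq : 1 < q) {a1 b1 a2 b2 : ℝ} (ha1 : 0 < a1) (hab1 : a1 ≤ b1)
    (ha2 : 0 < a2) (hab2 : a2 ≤ b2) :
    ∃ K₀ : ℕ, ∀ K, K₀ ≤ K → ∀ (F : ℝ → ℝ) (A B : ℝ), 0 ≤ A → 0 ≤ B →
      (∀ t, a1 ≤ t → t ≤ b1 → A ≤ F t) →
      (∀ t, a2 ≤ t → t ≤ b2 → ¬ (a1 ≤ t ∧ t ≤ b1) → -B ≤ F t) →
      (∀ t, 0 < t → ¬ (a2 ≤ t ∧ t ≤ b2) → ¬ (a1 ≤ t ∧ t ≤ b1) → 0 ≤ F t) →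
      A * ((Real.log b1 - Real.log a1) / Real.log q - 1)
        - B * ((Real.log b2 - Real.log a2) / Real.log q + 1) ≤
      ∑ m ∈ Finset.Icc (-(K:ℤ)) K, F (q ^ m) := by
  classical
  have hq0 : 0 < q := by linarith
  have hL : 0 < Real.log q := Real.log_pos hq
  have hb1 : 0 < b1 := by linarith
  have hb2 : 0 < b2 := by linarith
  set α1 := Real.log a1 / Real.log q with hα1
  set β1 := Real.log b1 / Real.log q with hβ1
  set α2 := Real.log a2 / Real.log q with hα2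
  set β2 := Real.log b2 / Real.log q with hβ2
  set P := Finset.Icc ⌈α1⌉ ⌊β1⌋ with hP
  set N := Finset.Icc ⌈α2⌉ ⌊β2⌋ with hN
  refine ⟨max (⌈α1⌉).natAbs (⌊β1⌋).natAbs, ?_⟩
  intro K hK F A B hA hB h1 h2 h3
  have hPK : P ⊆ Finset.Icc (-(K:ℤ)) K := by
    intro m hm
    rw [hP, Finset.mem_Icc] at hm
    rw [Finset.mem_Icc]
    omega
  have key : ∀ m ∈ Finset.Icc (-(K:ℤ)) K,
      A * (if m ∈ P then (1:ℝ) else 0) - B * (if m ∈ N then (1:ℝ) else 0) ≤ F (q ^ m) := by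
    intro m _
    have hm : 0 < q ^ m := zpow_pos hq0 m
    have e1 : m ∈ P ↔ (a1 ≤ q ^ m ∧ q ^ m ≤ b1) := mem_iff hq ha1 hb1 m
    have e2 : m ∈ N ↔ (a2 ≤ q ^ m ∧ q ^ m ≤ b2) := mem_iff hq ha2 hb2 m
    by_cases c1 : m ∈ P
    · have := h1 _ (e1.1 c1).1 (e1.1 c1).2
      rw [if_pos c1]
      split_ifs <;> nlinarith
    · rw [if_neg c1]
      by_cases c2 : m ∈ N
      · have := h2 _ (e2.1 c2).1 (e2.1 c2).2 (fun h => c1 (e1.2 h))
        rw [if_pos c2]
        linarith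
      · have := h3 _ hm (fun h => c2 (e2.2 h)) (fun h => c1 (e1.2 h))
        rw [if_neg c2]
        linarith
  have hsum := Finset.sum_le_sum key
  rw [Finset.sum_sub_distrib, ← Finset.mul_sum, ← Finset.mul_sum, Finset.sum_ite_mem,
    Finset.sum_ite_mem, Finset.inter_eq_right.2 hPK] at hsum
  simp only [Finset.sum_const, nsmul_eq_mul, mul_one] at hsum
  have c1 : β1 - α1 - 1 ≤ (P.card : ℝ) := card_lower α1 β1
  have c2 : ((Finset.Icc (-(K:ℤ)) K ∩ N).card : ℝ) ≤ (N.card : ℝ) := by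
    exact_mod_cast Finset.card_le_card Finset.inter_subset_right
  have hαβ : α2 ≤ β2 := by
    rw [hα2, hβ2]
    exact div_le_div_of_nonneg_right (Real.log_le_log ha2 hab2) hL.le
  have c3 : (N.card : ℝ) ≤ β2 - α2 + 1 := card_upper α2 β2 hαβ
  have e1 : (Real.log b1 - Real.log a1) / Real.log q = β1 - α1 := by
    rw [hα1, hβ1]; ring
  have e2 : (Real.log b2 - Real.log a2) / Real.log q = β2 - α2 := by
    rw [hα2, hβ2]; ring
  rw [e1, e2]
  have i1 : A * (β1 - α1 - 1) ≤ A * (P.card : ℝ) := mul_le_mul_of_nonneg_left c1 hA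
  have i2 : B * ((Finset.Icc (-(K:ℤ)) K ∩ N).card : ℝ) ≤ B * (β2 - α2 + 1) :=
    mul_le_mul_of_nonneg_left (c2.trans c3) hB
  linarith

/-- positive lower bound of a multiset of positive numbers -/
lemma exists_lower (w : Multiset ℝ) (hw : Pos w) : ∃ t : ℝ, 0 < t ∧ ∀ a ∈ w, t ≤ a := by
  induction w using Multiset.induction_on with
  | empty => exact ⟨1, one_pos, by simp⟩
  | cons a w ih =>
    obtain ⟨t, ht, h⟩ := ih (fun b hb => hw b (Multiset.mem_cons_of_mem hb))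
    refine ⟨min t a, lt_min ht (hw a (Multiset.mem_cons_self a w)), ?_⟩
    intro b hb
    rcases Multiset.mem_cons.1 hb with rfl | hb
    · exact min_le_right _ _
    · exact (min_le_left _ _).trans (h b hb)

/-- maximum of a nonempty multiset -/
lemma exists_max (w : Multiset ℝ) (hw : w ≠ 0) : ∃ X ∈ w, ∀ a ∈ w, a ≤ X := by
  induction w using Multiset.induction_on with
  | empty => exact absurd rfl hw
  | cons a w ih =>
    rcases eq_or_ne w 0 with rfl | h0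
    · exact ⟨a, Multiset.mem_cons_self _ _, by simp⟩
    · obtain ⟨X, hX, h⟩ := ih h0
      rcases le_total X a with h' | h'
      · refine ⟨a, Multiset.mem_cons_self _ _, ?_⟩
        intro b hb
        rcases Multiset.mem_cons.1 hb with rfl | hb
        · exact le_rfl
        · exact (h b hb).trans h'
      · refine ⟨X, Multiset.mem_cons_of_mem hX, ?_⟩
        intro b hb
        rcases Multiset.mem_cons.1 hb with rfl | hb
        · exact h'
        · exact h b hb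

lemma Ph_replicate (n : ℕ) (a t : ℝ) : Ph (Multiset.replicate n a) t = n * max (a - t) 0 := by
  simp [Ph]

/-- basic facts: the data `t0`, `σ`, `z`. -/
lemma basic {x y : Multiset ℝ} (h : HypC3 x y) :
    0 < x.sum ∧ 0 < ((x.card - y.card : ℕ) : ℝ) ∧ ∃ t0 : ℝ, 0 < t0 ∧ t0 < 1 ∧
      (∀ u ∈ x, 2 * t0 ≤ u) ∧ (∀ v ∈ y, 2 * t0 ≤ v) ∧
      ∀ δ, 0 < δ → δ ≤ 1 / 2 → ∀ t, 0 < t → t ≤ t0 →
        Ph (yd y (x.card - y.card) δ) t - Ph x t
          = ((x.card - y.card : ℕ) : ℝ) * max (t - δ * x.sum / ((x.card - y.card : ℕ) : ℝ)) 0 := by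
  obtain ⟨hx, hy, hs, hy1, hx1, hc, hy0⟩ := h
  have hz : 0 < x.card - y.card := by omega
  have hz' : (0:ℝ) < ((x.card - y.card : ℕ) : ℝ) := by exact_mod_cast hz
  have hσ : 0 < x.sum := by
    rw [hs]
    obtain ⟨v, hv⟩ := Multiset.exists_mem_of_ne_zero hy0
    have h1 : v ≤ y.sum := Multiset.single_le_sum (fun w hw => (hy w hw).le) v hv
    exact (hy v hv).trans_le h1
  obtain ⟨p, hp, hpx⟩ := exists_lower (x + y) (by
    intro v hv
    rcases Multiset.mem_add.1 hv with h | h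
    · exact hx v h
    · exact hy v h)
  refine ⟨hσ, hz', p / 2, by positivity, ?_, ?_, ?_, ?_⟩
  · obtain ⟨v, hv⟩ := Multiset.exists_mem_of_ne_zero hy0
    have := hpx v (Multiset.mem_add.2 (Or.inr hv))
    have := hy1 v hv
    linarith
  · intro u hu
    have := hpx u (Multiset.mem_add.2 (Or.inl hu))
    linarith
  · intro v hv
    have := hpx v (Multiset.mem_add.2 (Or.inr hv))
    linarith
  · intro δ hδ hδ2 t ht ht0
    have e1 : Ph x t = x.sum - x.card * t := by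
      apply Ph_eq_of_le
      intro u hu
      have := hpx u (Multiset.mem_add.2 (Or.inl hu))
      linarith
    have e2 : Ph (y.map (fun v => (1 - δ) * v)) t = (1 - δ) * y.sum - y.card * t := by
      rw [Ph_eq_of_le]
      · rw [Multiset.sum_map_mul_left, Multiset.map_id', Multiset.card_map]
      · intro w hw
        obtain ⟨v, hv, rfl⟩ := Multiset.mem_map.1 hw
        have h1 := hpx v (Multiset.mem_add.2 (Or.inr hv))
        nlinarith
    rw [yd, Ph_add, e1, e2, Ph_replicate, ← hs]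
    have hcard : (x.card : ℝ) = y.card + ((x.card - y.card : ℕ) : ℝ) := by
      have : x.card = y.card + (x.card - y.card) := by omega
      exact_mod_cast this
    set z : ℝ := ((x.card - y.card : ℕ) : ℝ) with hzdef
    set τ := δ * x.sum / z with hτ
    have hτz : z * τ = δ * x.sum := by
      rw [hτ]; field_simp
    rw [hcard]
    rcases le_total t τ with h | h
    · rw [max_eq_left (by linarith), max_eq_right (by linarith)]
      nlinarith
    · rw [max_eq_right (by linarith), max_eq_left (by linarith)]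
      nlinarith

lemma delta_ge {x y : Multiset ℝ} (h : HypC3 x y) (z : ℕ) (δ : ℝ) {t : ℝ} (ht : 0 < t) :
    - x.sum ≤ Ph (yd y z δ) t - Ph x t := by
  have h1 := Ph_nonneg (yd y z δ) t
  have h2 := Ph_le_sum x ht.le (fun v hv => (h.1 v hv).le)
  linarith

lemma delta_nonneg_of_ge (x y : Multiset ℝ) (z : ℕ) (δ : ℝ) {t : ℝ}
    (ht : ∀ u ∈ x, u ≤ t) : 0 ≤ Ph (yd y z δ) t - Ph x t := by
  have h1 := Ph_nonneg (yd y z δ) t
  rw [Ph_eq_zero x t ht]
  linarith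

end R100FC.C3
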