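import Pool.Agent.R100.FC.Stm

/-! Project FC, piece C3b: positivity for `r` in a compact interval. -/

namespace R100FC
namespace C3b

open MeasureTheory Set Filter Topology

/-- sum of the minima -/
noncomputable def mn (s : Multiset ℝ) (t : ℝ) : ℝ := (s.map (fun v => min v t)).sum

lemma Ph_mn (s : Multiset ℝ) (t : ℝ) : Ph s t = s.sum - mn s t := by
  induction s using Multiset.induction_on with
  | empty => simp [mn]
  | cons a s ih =>
    rw [Ph_cons, ih, Multiset.sum_cons, mn, mn, Multiset.map_cons, Multiset.sum_cons]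
    rcases le_total a t with h | h
    · rw [max_eq_right (by linarith), min_eq_left h]
      ring
    · rw [max_eq_left (by linarith), min_eq_right h]
      ring

lemma mn_add (s s' : Multiset ℝ) (t : ℝ) : mn (s + s') t = mn s t + mn s' t := by
  simp [mn]

lemma mn_replicate (z : ℕ) (a t : ℝ) : mn (Multiset.replicate z a) t = z * min a t := by
  simp [mn]

lemma mn_nonneg (s : Multiset ℝ) (hs : ∀ v ∈ s, 0 ≤ v) {t : ℝ} (ht : 0 ≤ t) : 0 ≤ mn s t := by
  apply Multiset.sum_nonneg
  intro v hv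
  obtain ⟨a, ha, rfl⟩ := Multiset.mem_map.1 hv
  exact le_min (hs a ha) ht

lemma mn_le (s : Multiset ℝ) (t : ℝ) : mn s t ≤ s.card * t := by
  induction s using Multiset.induction_on with
  | empty => simp [mn]
  | cons a s ih =>
    rw [mn] at ih
    rw [mn, Multiset.map_cons, Multiset.sum_cons, Multiset.card_cons]
    push_cast
    have := min_le_right a t
    linarith

lemma mn_map_le (s : Multiset ℝ) (hs : ∀ v ∈ s, 0 ≤ v) {δ : ℝ} (hδ : 0 ≤ δ) (t : ℝ) :
    mn (s.map (fun v => (1 - δ) * v)) t ≤ mn s t := by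
  rw [mn, mn, Multiset.map_map]
  apply Multiset.sum_map_le_sum_map
  intro v hv
  apply min_le_min _ le_rfl
  have := mul_nonneg hδ (hs v hv)
  linarith

lemma Ph_cont (s : Multiset ℝ) : Continuous (Ph s) := by
  induction s using Multiset.induction_on with
  | empty =>
    have : Ph 0 = fun _ => 0 := by
      funext t
      simp
    rw [this]
    exact continuous_const
  | cons a s ih =>
    have : Ph (a ::ₘ s) = fun t => max (a - t) 0 + Ph s t := by
      funext t
      simp
    rw [this]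
    exact ((continuous_const.sub continuous_id).max continuous_const).add ih

lemma D_bound (s s' : Multiset ℝ) (hs : ∀ v ∈ s, 0 ≤ v) (hs' : ∀ v ∈ s', 0 ≤ v)
    (hsum : s.sum = s'.sum) {r₁ r t : ℝ} (hr : r₁ ≤ r) (ht : 0 < t) (ht1 : t ≤ 1) :
    |(Ph s' t - Ph s t) * t ^ (r - 2)| ≤ (s.card + s'.card) * t ^ (r₁ - 1) := by
  have h1 : |Ph s' t - Ph s t| ≤ (s.card + s'.card) * t := by
    rw [Ph_mn, Ph_mn, hsum]
    have e1 := mn_nonneg s hs ht.le
    have e2 := mn_nonneg s' hs' ht.le
    have e3 := mn_le s t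
    have e4 := mn_le s' t
    rw [abs_le]
    constructor <;> linarith
  have h2 : t ^ (r - 2) ≤ t ^ (r₁ - 2) :=
    Real.rpow_le_rpow_of_exponent_ge ht ht1 (by linarith)
  have h3 : t * t ^ (r₁ - 2) = t ^ (r₁ - 1) := by
    have := Real.rpow_add ht 1 (r₁ - 2)
    rw [Real.rpow_one] at this
    rw [← this]
    congr 1
    ring
  rw [abs_mul, abs_of_nonneg (Real.rpow_nonneg ht.le _), ← h3, ← mul_assoc]
  exact mul_le_mul h1 h2 (Real.rpow_nonneg ht.le _) (by positivity)

lemma D_meas (s s' : Multiset ℝ) (r : ℝ) :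
    Measurable (fun t : ℝ => (Ph s' t - Ph s t) * t ^ (r - 2)) :=
  ((Ph_cont s').measurable.sub (Ph_cont s).measurable).mul (measurable_id.pow_const _)

lemma D_int (s s' : Multiset ℝ) (hs : ∀ v ∈ s, 0 ≤ v) (hs' : ∀ v ∈ s', 0 ≤ v)
    (hsum : s.sum = s'.sum) {r : ℝ} (hr : 0 < r) :
    IntervalIntegrable (fun t : ℝ => (Ph s' t - Ph s t) * t ^ (r - 2)) volume 0 1 := by
  have h1 : IntervalIntegrable (fun t : ℝ => ((s.card : ℝ) + s'.card) * t ^ (r - 1)) volume 0 1 :=
    (intervalIntegral.intervalIntegrable_rpow' (by linarith)).const_mul _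
  refine h1.mono_fun' (D_meas s s' r).aestronglyMeasurable ?_
  rw [uIoc_of_le zero_le_one]
  filter_upwards [self_mem_ae_restrict measurableSet_Ioc] with t ht
  rw [Real.norm_eq_abs]
  exact D_bound s s' hs hs' hsum le_rfl ht.1 ht.2

lemma I_cont (x y : Multiset ℝ) (hx : ∀ v ∈ x, 0 ≤ v) (hy : ∀ v ∈ y, 0 ≤ v)
    (hsum : x.sum = y.sum) {r₁ R₀ : ℝ} (hr₁ : 0 < r₁) :
    ContinuousOn (fun r => I x y r) (Icc r₁ R₀) := by
  intro r₀ _
  have h1 : IntervalIntegrable (fun t : ℝ => ((x.card : ℝ) + y.card) * t ^ (r₁ - 1)) volume 0 1 :=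
    (intervalIntegral.intervalIntegrable_rpow' (by linarith)).const_mul _
  refine intervalIntegral.continuousWithinAt_of_dominated_interval
    (F := fun r t => (Ph y t - Ph x t) * t ^ (r - 2)) ?_ ?_ h1 ?_
  · exact Eventually.of_forall (fun r => (D_meas x y r).aestronglyMeasurable)
  · filter_upwards [self_mem_nhdsWithin] with r hr
    refine Eventually.of_forall (fun t ht => ?_)
    rw [uIoc_of_le zero_le_one] at ht
    rw [Real.norm_eq_abs]
    exact D_bound x y hx hy hsum hr.1 ht.1 ht.2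
  · refine Eventually.of_forall (fun t ht => ?_)
    rw [uIoc_of_le zero_le_one] at ht
    apply Continuous.continuousWithinAt
    exact continuous_const.mul
      ((Real.continuous_const_rpow ht.1.ne').comp (continuous_id.sub continuous_const))

/-- lower bound of the entries -/
lemma low (w : Multiset ℝ) (hw : Pos w) : ∃ t : ℝ, 0 < t ∧ ∀ a ∈ w, t ≤ a := by
  induction w using Multiset.induction_on with
  | empty => exact ⟨1, one_pos, by simp⟩
  | cons a w ih =>
    obtain ⟨t, ht, h⟩ := ih (fun b hb => hw b (Multiset.mem_cons_of_mem hb))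
    refine ⟨min t a, lt_min ht (hw a (Multiset.mem_cons_self a w)), ?_⟩
    intro b hb
    rcases Multiset.mem_cons.1 hb with rfl | hb
    · exact min_le_right _ _
    · exact (min_le_left _ _).trans (h b hb)

/-- Riemann sums -/
lemma riem (F : ℝ → ℝ) (hF : ContinuousOn F (Ioi 0)) (p ω : ℝ) (hp0 : 0 < p) (hp1 : p < 1)
    (K : ℕ) (h : ∀ j : ℕ, ∀ t, p ^ (j + 1) ≤ t → t ≤ p ^ j → |F (p ^ (j + 1)) - F t| ≤ ω) :
    |∑ j ∈ Finset.range K, (p ^ j - p ^ (j + 1)) * F (p ^ (j + 1)) - ∫ t in (p ^ K)..1, F t| ≤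
      ω * (1 - p ^ K) := by
  have hint : ∀ a b : ℝ, 0 < a → 0 < b → IntervalIntegrable F volume a b := by
    intro a b ha hb
    apply ContinuousOn.intervalIntegrable
    apply hF.mono
    intro t ht
    exact lt_of_lt_of_le (lt_min ha hb) ht.1
  induction K with
  | zero => simp
  | succ K ih =>
    have hK : 0 < p ^ K := pow_pos hp0 K
    have hK1 : 0 < p ^ (K + 1) := pow_pos hp0 (K + 1)
    have hle : p ^ (K + 1) ≤ p ^ K := pow_le_pow_of_le_one hp0.le hp1.le (Nat.le_succ K)
    have e1 : ∫ t in (p ^ (K + 1))..1, F t =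
        (∫ t in (p ^ (K + 1))..(p ^ K), F t) + ∫ t in (p ^ K)..1, F t :=
      (intervalIntegral.integral_add_adjacent_intervals (hint _ _ hK1 hK)
        (hint _ _ hK one_pos)).symm
    have e2 : (p ^ K - p ^ (K + 1)) * F (p ^ (K + 1)) - ∫ t in (p ^ (K + 1))..(p ^ K), F t =
        ∫ t in (p ^ (K + 1))..(p ^ K), (F (p ^ (K + 1)) - F t) := by
      rw [intervalIntegral.integral_sub intervalIntegrable_const (hint _ _ hK1 hK),
        intervalIntegral.integral_const, smul_eq_mul]
    have e3 : |∫ t in (p ^ (K + 1))..(p ^ K), (F (p ^ (K + 1)) - F t)| ≤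
        ω * |p ^ K - p ^ (K + 1)| := by
      rw [← Real.norm_eq_abs]
      apply intervalIntegral.norm_integral_le_of_norm_le_const
      intro t ht
      rw [uIoc_of_le hle] at ht
      rw [Real.norm_eq_abs]
      exact h K t ht.1.le ht.2
    rw [abs_of_nonneg (sub_nonneg.2 hle)] at e3
    rw [Finset.sum_range_succ, e1]
    have e4 : ∑ j ∈ Finset.range K, (p ^ j - p ^ (j + 1)) * F (p ^ (j + 1)) +
        (p ^ K - p ^ (K + 1)) * F (p ^ (K + 1)) -
        ((∫ t in (p ^ (K + 1))..(p ^ K), F t) + ∫ t in (p ^ K)..1, F t) =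
        (∑ j ∈ Finset.range K, (p ^ j - p ^ (j + 1)) * F (p ^ (j + 1)) - ∫ t in (p ^ K)..1, F t) +
        ∫ t in (p ^ (K + 1))..(p ^ K), (F (p ^ (K + 1)) - F t) := by
      rw [← e2]
      ring
    rw [e4]
    refine (abs_add_le _ _).trans ?_
    linarith

lemma sum_neg (g : ℤ → ℝ) (hg : ∀ m : ℤ, 0 ≤ m → g m = 0) (K : ℕ) :
    ∑ m ∈ Finset.Icc (-(K : ℤ)) K, g m = ∑ j ∈ Finset.range K, g (-((j : ℤ) + 1)) := by
  have h1 : ∑ m ∈ Finset.Icc (-(K : ℤ)) (-1), g m = ∑ m ∈ Finset.Icc (-(K : ℤ)) K, g m := by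
    apply Finset.sum_subset
    · intro m hm
      rw [Finset.mem_Icc] at hm ⊢
      omega
    · intro m hm hm'
      rw [Finset.mem_Icc] at hm hm'
      apply hg
      omega
  rw [← h1]
  symm
  apply Finset.sum_bij (fun (j : ℕ) _ => -((j : ℤ) + 1))
  · intro j hj
    rw [Finset.mem_range] at hj
    rw [Finset.mem_Icc]
    omega
  · intro a _ b _ hab
    omega
  · intro m hm
    rw [Finset.mem_Icc] at hm
    refine ⟨(-m - 1).toNat, ?_, ?_⟩
    · rw [Finset.mem_range]
      omega
    · omega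
  · intro j _
    rfl

end C3b

open C3b MeasureTheory Set Filter Topology

theorem sC3b : StmC3b := by
  intro x y hyp hI r₁ R₀ hr₁ hr₁1 hR₀
  obtain ⟨hx, hy, hsum, hy1, hx1, hcard, hy0⟩ := hyp
  have hx0 : ∀ v ∈ x, 0 ≤ v := fun v hv => (hx v hv).le
  have hy0' : ∀ v ∈ y, 0 ≤ v := fun v hv => (hy v hv).le
  have hle : r₁ ≤ R₀ := by linarith
  -- the minimum of I
  obtain ⟨rs, hrs, hmin⟩ := isCompact_Icc.exists_isMinOn (nonempty_Icc.2 hle)
    (I_cont x y hx0 hy0' hsum hr₁ (R₀ := R₀))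
  set ι : ℝ := I x y rs with hι
  have hιpos : 0 < ι := hI rs (by linarith [hrs.1])
  have hImin : ∀ r, r₁ ≤ r → r ≤ R₀ → ι ≤ I x y r := fun r h1 h2 => hmin ⟨h1, h2⟩
  -- data
  set z : ℕ := x.card - y.card with hz
  have hz1 : 1 ≤ z := by omega
  have hzr : (1 : ℝ) ≤ z := by exact_mod_cast hz1
  have hσ : 0 < y.sum := by
    obtain ⟨a, ha⟩ := Multiset.exists_mem_of_ne_zero hy0
    obtain ⟨s', rfl⟩ := Multiset.exists_cons_of_mem ha
    rw [Multiset.sum_cons]
    have h1 := hy a ha
    have h2 : 0 ≤ s'.sum := Multiset.sum_nonneg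
      (fun v hv => hy0' v (Multiset.mem_cons_of_mem hv))
    linarith
  obtain ⟨mx, hmx, hmx'⟩ := low x hx
  obtain ⟨my, hmy, hmy'⟩ := low y hy
  set a : ℝ := r₁ / 2 with ha
  have ha0 : 0 < a := by positivity
  set τ₁ : ℝ := (ι * r₁ / (4 * z)) ^ (1 / a) with hτ₁
  have hτ₁0 : 0 < τ₁ := Real.rpow_pos_of_pos (by positivity) _
  refine ⟨min (1 / 2) (min (mx * z / y.sum) (min (my / 2 * z / y.sum) (τ₁ * z / y.sum))),
    by positivity, ?_⟩
  intro δ hδ hδ'
  have hδ1 : δ < 1 / 2 := lt_of_lt_of_le hδ' (min_le_left _ _)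
  have hδ2 : δ < mx * z / y.sum :=
    lt_of_lt_of_le hδ' ((min_le_right _ _).trans (min_le_left _ _))
  have hδ3 : δ < my / 2 * z / y.sum :=
    lt_of_lt_of_le hδ' ((min_le_right _ _).trans ((min_le_right _ _).trans (min_le_left _ _)))
  have hδ4 : δ < τ₁ * z / y.sum :=
    lt_of_lt_of_le hδ' ((min_le_right _ _).trans ((min_le_right _ _).trans (min_le_right _ _)))
  set τ : ℝ := δ * y.sum / z with hτ
  have hz0 : (0 : ℝ) < z := by linarith
  have hτ0 : 0 < τ := by positivity
  have hτx : τ ≤ mx := by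
    rw [lt_div_iff₀ hσ] at hδ2
    rw [hτ, div_le_iff₀ hz0]
    exact hδ2.le
  have hτy : τ ≤ my / 2 := by
    rw [lt_div_iff₀ hσ] at hδ3
    rw [hτ, div_le_iff₀ hz0]
    exact hδ3.le
  have hτt : τ < τ₁ := by
    rw [lt_div_iff₀ hσ] at hδ4
    rw [hτ, div_lt_iff₀ hz0]
    exact hδ4
  have hmy1 : my ≤ 1 := by
    obtain ⟨v, hv⟩ := Multiset.exists_mem_of_ne_zero hy0
    exact (hmy' v hv).trans (hy1 v hv)
  have hτ1 : τ ≤ 1 := by linarith
  set y' : Multiset ℝ := yd y z δ with hy'
  have hy'def : y' = y.map (fun v => (1 - δ) * v) + Multiset.replicate z τ := rfl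
  have hy'sum : x.sum = y'.sum := by
    rw [hy'def, Multiset.sum_add, Multiset.sum_map_mul_left, Multiset.map_id', Multiset.sum_replicate,
      nsmul_eq_mul, hτ, hsum]
    field_simp
    ring
  have hy'card : y'.card = x.card := by
    rw [hy'def, Multiset.card_add, Multiset.card_map, Multiset.card_replicate]
    omega
  have hy'low : ∀ v ∈ y', τ ≤ v := by
    intro v hv
    rw [hy'def, Multiset.mem_add] at hv
    rcases hv with hv | hv
    · obtain ⟨w, hw, rfl⟩ := Multiset.mem_map.1 hv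
      have h1 := hmy' w hw
      have h2 : (1 / 2) * w ≤ (1 - δ) * w :=
        mul_le_mul_of_nonneg_right (by linarith) (hy0' w hw)
      linarith
    · rw [Multiset.eq_of_mem_replicate hv]
  have hy'high : ∀ v ∈ y', v ≤ 1 := by
    intro v hv
    rw [hy'def, Multiset.mem_add] at hv
    rcases hv with hv | hv
    · obtain ⟨w, hw, rfl⟩ := Multiset.mem_map.1 hv
      have h1 := hy1 w hw
      have h2 := mul_nonneg hδ.le (hy0' w hw)
      linarith
    · rw [Multiset.eq_of_mem_replicate hv]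
      exact hτ1
  have hy'0 : ∀ v ∈ y', 0 ≤ v := fun v hv => hτ0.le.trans (hy'low v hv)
  -- vanishing
  have hvan1 : ∀ t, 1 ≤ t → Ph y' t - Ph x t = 0 := by
    intro t ht
    rw [Ph_eq_zero y' t (fun v hv => (hy'high v hv).trans ht),
      Ph_eq_zero x t (fun v hv => (hx1 v hv).trans ht), sub_zero]
  have hvan2 : ∀ t, t ≤ τ → Ph y' t - Ph x t = 0 := by
    intro t ht
    rw [Ph_eq_of_le y' t (fun v hv => ht.trans (hy'low v hv)),
      Ph_eq_of_le x t (fun v hv => ht.trans (hτx.trans (hmx' v hv))), hy'card, hy'sum, sub_self]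
  -- lower bound of the perturbed integral
  have hIδ : ∀ r, r₁ ≤ r → r ≤ R₀ → ι / 2 ≤ I x y' r := by
    intro r hr hrR
    have hr0 : 0 < r := by linarith
    have i1 := D_int x y' hx0 hy'0 hy'sum hr0
    have i2 := D_int x y hx0 hy0' hsum hr0
    have i3 : IntervalIntegrable (fun t : ℝ => (z * τ ^ a) * t ^ (a - 1)) volume 0 1 :=
      (intervalIntegral.intervalIntegrable_rpow' (by linarith)).const_mul _
    have hmono : ∫ t in (0 : ℝ)..1, (Ph y t - Ph x t) * t ^ (r - 2) ≤
        ∫ t in (0 : ℝ)..1, ((Ph y' t - Ph x t) * t ^ (r - 2) + (z * τ ^ a) * t ^ (a - 1)) := by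
      apply intervalIntegral.integral_mono_on_of_le_Ioo zero_le_one i2 (i1.add i3)
      intro t ht
      have ht0 := ht.1
      have ht1 := ht.2.le
      have e1 : Ph y t - Ph y' t ≤ z * min τ t := by
        rw [Ph_mn, Ph_mn, ← hy'sum, hsum, hy'def, mn_add, mn_replicate]
        have := mn_map_le y hy0' hδ.le t
        linarith
      have e2 : min τ t ≤ τ ^ a * t ^ (1 - a) := by
        have h1 : 0 ≤ min τ t := le_min hτ0.le ht0.le
        have h2 : 0 < min τ t := lt_min hτ0 ht0
        calc min τ t = (min τ t) ^ a * (min τ t) ^ (1 - a) := by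
              rw [← Real.rpow_add h2]
              simp
          _ ≤ τ ^ a * t ^ (1 - a) := by
              apply mul_le_mul
              · exact Real.rpow_le_rpow h1 (min_le_left _ _) ha0.le
              · exact Real.rpow_le_rpow h1 (min_le_right _ _) (by rw [ha]; linarith)
              · exact Real.rpow_nonneg h1 _
              · exact Real.rpow_nonneg hτ0.le _
      have e3 : t ^ (r - 2) ≤ t ^ (r₁ - 2) :=
        Real.rpow_le_rpow_of_exponent_ge ht0 ht1 (by linarith)
      have e4 : t ^ (1 - a) * t ^ (r₁ - 2) = t ^ (a - 1) := by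
        rw [← Real.rpow_add ht0]
        congr 1
        rw [ha]
        ring
      have e5 : (Ph y t - Ph y' t) * t ^ (r - 2) ≤ (z * τ ^ a) * t ^ (a - 1) := by
        calc (Ph y t - Ph y' t) * t ^ (r - 2) ≤ (z * min τ t) * t ^ (r - 2) :=
              mul_le_mul_of_nonneg_right e1 (Real.rpow_nonneg ht0.le _)
          _ ≤ (z * (τ ^ a * t ^ (1 - a))) * t ^ (r₁ - 2) := by
              apply mul_le_mul _ e3 (Real.rpow_nonneg ht0.le _) (by positivity)
              exact mul_le_mul_of_nonneg_left e2 hz0.le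
          _ = (z * τ ^ a) * (t ^ (1 - a) * t ^ (r₁ - 2)) := by ring
          _ = (z * τ ^ a) * t ^ (a - 1) := by rw [e4]
      have e6 : (Ph y t - Ph x t) * t ^ (r - 2) =
          (Ph y' t - Ph x t) * t ^ (r - 2) + (Ph y t - Ph y' t) * t ^ (r - 2) := by ring
      linarith
    rw [intervalIntegral.integral_add i1 i3, intervalIntegral.integral_const_mul,
      integral_rpow (Or.inl (by linarith))] at hmono
    have h0 : ((1 : ℝ) ^ (a - 1 + 1) - 0 ^ (a - 1 + 1)) / (a - 1 + 1) = 1 / a := by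
      rw [Real.one_rpow, sub_add_cancel, Real.zero_rpow ha0.ne', sub_zero]
    rw [h0] at hmono
    have h1 : τ ^ a < ι * r₁ / (4 * z) := by
      have h2 : τ ^ a < τ₁ ^ a := Real.rpow_lt_rpow hτ0.le hτt ha0
      have h3 : τ₁ ^ a = ι * r₁ / (4 * z) := by
        rw [hτ₁, ← Real.rpow_mul (by positivity), one_div_mul_cancel ha0.ne', Real.rpow_one]
      rw [h3] at h2
      exact h2
    have h2 : z * τ ^ a * (1 / a) ≤ ι / 2 := by
      have h3 : z * τ ^ a ≤ ι * r₁ / 4 := by
        have := mul_le_mul_of_nonneg_left h1.le hz0.le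
        have e : (z : ℝ) * (ι * r₁ / (4 * z)) = ι * r₁ / 4 := by
          field_simp
        rw [e] at this
        exact this
      have h4 := mul_le_mul_of_nonneg_right h3 (by positivity : 0 ≤ 1 / a)
      have e : ι * r₁ / 4 * (1 / a) = ι / 2 := by
        rw [ha]
        field_simp
        ring
      rw [e] at h4
      exact h4
    have h3 := hImin r hr hrR
    simp only [I] at h3 ⊢
    linarith
  -- uniform continuity
  have hFc : ContinuousOn (fun w : ℝ × ℝ => (Ph y' w.2 - Ph x w.2) * w.2 ^ (w.1 - 2))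
      (Icc r₁ R₀ ×ˢ Icc (τ / 2) 2) := by
    apply ContinuousOn.mul
    · exact (((Ph_cont y').comp continuous_snd).sub ((Ph_cont x).comp continuous_snd)).continuousOn
    · apply ContinuousOn.rpow continuousOn_snd
      · exact (continuous_fst.sub continuous_const).continuousOn
      · rintro ⟨r, t⟩ h
        left
        have := h.2.1
        simp only at this ⊢
        have : 0 < t := by linarith
        exact this.ne'
  have huc := (isCompact_Icc.prod isCompact_Icc).uniformContinuousOn_of_continuous hFc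
  rw [Metric.uniformContinuousOn_iff] at huc
  obtain ⟨η, hη, hηF⟩ := huc (ι / 4) (by positivity)
  refine ⟨min 2 (1 + η / 2), lt_min (by norm_num) (by linarith), ?_⟩
  intro q hq hq'
  have hq2 : q < 2 := lt_of_lt_of_le hq' (min_le_left _ _)
  have hq3 : q < 1 + η / 2 := lt_of_lt_of_le hq' (min_le_right _ _)
  have hq0 : 0 < q := by linarith
  set p : ℝ := q⁻¹ with hp
  have hp0 : 0 < p := inv_pos.2 hq0
  have hp1 : p < 1 := inv_lt_one_of_one_lt₀ hq
  have hqp : q * p = 1 := mul_inv_cancel₀ hq0.ne'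
  obtain ⟨K₀, hK₀⟩ := exists_pow_lt_of_lt_one hτ0 hp1
  refine ⟨K₀, ?_⟩
  intro K hK r hr hrR
  have hr0 : 0 < r := by linarith
  have hpK : p ^ K ≤ τ := (pow_le_pow_of_le_one hp0.le hp1.le hK).trans hK₀.le
  set F : ℝ → ℝ := fun t => (Ph y' t - Ph x t) * t ^ (r - 2) with hF
  have hFcont : ContinuousOn F (Ioi 0) := by
    apply ContinuousOn.mul
    · exact ((Ph_cont y').sub (Ph_cont x)).continuousOn
    · apply ContinuousOn.rpow_const continuousOn_id
      intro t ht
      left
      exact (ne_of_gt ht)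
  have hω : ∀ j : ℕ, ∀ t, p ^ (j + 1) ≤ t → t ≤ p ^ j → |F (p ^ (j + 1)) - F t| ≤ ι / 4 := by
    intro j t ht1 ht2
    have hpj : 0 < p ^ (j + 1) := pow_pos hp0 _
    have hpj1 : p ^ (j + 1) ≤ 1 := pow_le_one₀ hp0.le hp1.le
    have hstep : p ^ j = q * p ^ (j + 1) := by
      rw [pow_succ]
      calc p ^ j = p ^ j * (q * p) := by rw [hqp, mul_one]
        _ = q * (p ^ j * p) := by ring
    by_cases hc : τ / 2 ≤ p ^ (j + 1)
    · have hpjj : p ^ j ≤ 1 := pow_le_one₀ hp0.le hp1.le
      have m1 : ((r, p ^ (j + 1)) : ℝ × ℝ) ∈ Icc r₁ R₀ ×ˢ Icc (τ / 2) 2 :=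
        ⟨⟨hr, hrR⟩, ⟨hc, by linarith⟩⟩
      have m2 : ((r, t) : ℝ × ℝ) ∈ Icc r₁ R₀ ×ˢ Icc (τ / 2) 2 :=
        ⟨⟨hr, hrR⟩, ⟨by linarith, by linarith⟩⟩
      have hd : dist ((r, p ^ (j + 1)) : ℝ × ℝ) (r, t) < η := by
        rw [Prod.dist_eq, dist_self, max_lt_iff]
        refine ⟨hη, ?_⟩
        rw [Real.dist_eq, abs_sub_comm, abs_of_nonneg (by linarith)]
        have : p ^ j - p ^ (j + 1) ≤ q - 1 := by
          rw [hstep]
          nlinarith
        linarith
      have := hηF _ m1 _ m2 hd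
      rw [Real.dist_eq] at this
      exact this.le
    · have hc' : p ^ (j + 1) < τ / 2 := not_le.1 hc
      have ht3 : t ≤ τ := by
        have : q * p ^ (j + 1) ≤ 2 * (τ / 2) :=
          mul_le_mul hq2.le hc'.le hpj.le (by norm_num)
        linarith
      have e1 : F t = 0 := by
        simp only [hF]
        rw [hvan2 t ht3, zero_mul]
      have e2 : F (p ^ (j + 1)) = 0 := by
        simp only [hF]
        rw [hvan2 _ (by linarith), zero_mul]
      rw [e1, e2, sub_zero, abs_zero]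
      positivity
  have hri := riem F hFcont p (ι / 4) hp0 hp1 K hω
  -- the integral from 0
  have hI0 : ∫ t in (p ^ K)..1, F t = I x y' r := by
    have i1 := D_int x y' hx0 hy'0 hy'sum hr0
    have hpK0 : 0 < p ^ K := pow_pos hp0 K
    have hpK1 : p ^ K ≤ 1 := pow_le_one₀ hp0.le hp1.le
    have j1 : IntervalIntegrable F volume 0 (p ^ K) :=
      i1.mono_set (by
        rw [uIcc_of_le hpK0.le, uIcc_of_le zero_le_one]
        exact Icc_subset_Icc_right hpK1)
    have j2 : IntervalIntegrable F volume (p ^ K) 1 :=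
      i1.mono_set (by
        rw [uIcc_of_le hpK1, uIcc_of_le zero_le_one]
        exact Icc_subset_Icc_left hpK0.le)
    have e1 : ∫ t in (0 : ℝ)..(p ^ K), F t = 0 := by
      have : ∫ t in (0 : ℝ)..(p ^ K), F t = ∫ t in (0 : ℝ)..(p ^ K), (0 : ℝ) := by
        apply intervalIntegral.integral_congr
        intro t ht
        rw [uIcc_of_le hpK0.le] at ht
        simp only [hF]
        rw [hvan2 t (ht.2.trans hpK), zero_mul]
      rw [this]
      simp
    have e2 := intervalIntegral.integral_add_adjacent_intervals j1 j2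
    rw [e1, zero_add] at e2
    rw [e2]
    rfl
  -- the sum
  have hsumR : ∑ j ∈ Finset.range K, (p ^ j - p ^ (j + 1)) * F (p ^ (j + 1)) =
      (q - 1) * Rs x y' q K r := by
    rw [Rs, sum_neg (fun m : ℤ => (Ph y' (q ^ m) - Ph x (q ^ m)) * (q ^ m) ^ (r - 1)) _ K,
      Finset.mul_sum]
    · apply Finset.sum_congr rfl
      intro j _
      have e1 : q ^ (-((j : ℤ) + 1)) = p ^ (j + 1) := by
        rw [zpow_neg, hp, inv_pow]
        congr 1
      have hpj : 0 < p ^ (j + 1) := pow_pos hp0 _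
      have hstep : p ^ j = q * p ^ (j + 1) := by
        rw [pow_succ]
        calc p ^ j = p ^ j * (q * p) := by rw [hqp, mul_one]
          _ = q * (p ^ j * p) := by ring
      have e2 : p ^ (j + 1) * (p ^ (j + 1)) ^ (r - 2) = (p ^ (j + 1)) ^ (r - 1) := by
        have := Real.rpow_add hpj 1 (r - 2)
        rw [Real.rpow_one] at this
        rw [← this]
        congr 1
        ring
      simp only [e1, hF]
      rw [← e2, hstep]
      ring
    · intro m hm
      have h1 : 1 ≤ q ^ m := one_le_zpow₀ hq.le hm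
      rw [hvan1 _ h1, zero_mul]
  rw [hsumR, hI0] at hri
  have h1 := hIδ r hr hrR
  have h2 : (0 : ℝ) ≤ p ^ K := (pow_pos hp0 K).le
  have h3 := (abs_le.1 hri).1
  have h4 : 0 < (q - 1) * Rs x y' q K r := by nlinarith
  exact (mul_pos_iff_of_pos_left (by linarith)).1 h4

end R100FC
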