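import Pool.Agent.R100.FC.Stm

set_option autoImplicit false

/-! Project FC (MP_261b1b_mp): piece C3c. -/

namespace R100FC

open MeasureTheory Set

namespace C3c

lemma le_zpow {q v : ℝ} (hq : 1 < q) (hv : 0 < v) (m : ℤ) :
    v ≤ q ^ m ↔ Real.log v / Real.log q ≤ m := by
  have hL : 0 < Real.log q := Real.log_pos hq
  rw [div_le_iff₀ hL, ← Real.log_zpow, Real.log_le_log_iff hv (zpow_pos (by linarith) _)]

lemma zpow_le {q v : ℝ} (hq : 1 < q) (hv : 0 < v) (m : ℤ) :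
    q ^ m ≤ v ↔ (m : ℝ) ≤ Real.log v / Real.log q := by
  have hL : 0 < Real.log q := Real.log_pos hq
  rw [le_div_iff₀ hL, ← Real.log_zpow, Real.log_le_log_iff (zpow_pos (by linarith) _) hv]

lemma exists_lower (w : Multiset ℝ) (hw : Pos w) : ∃ t : ℝ, 0 < t ∧ ∀ a ∈ w, t ≤ a := by
  induction w using Multiset.induction_on with
  | empty => exact ⟨1, one_pos, by simp⟩
  | cons a w ih =>
    obtain ⟨t, ht, h⟩ := ih (fun b hb => hw b (Multiset.mem_cons_of_mem hb))
    refine ⟨min t a, lt_min ht (hw a (Multiset.mem_cons_self a w)), ?_⟩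
    intro b hb
    rcases Multiset.mem_cons.1 hb with rfl | hb
    · exact min_le_right _ _
    · exact (min_le_left _ _).trans (h b hb)

lemma exists_upper (w : Multiset ℝ) (Y : ℝ) (hY : 0 < Y) (hw : ∀ u ∈ w, u < Y) :
    ∃ t : ℝ, 0 < t ∧ t < Y ∧ ∀ a ∈ w, a ≤ t := by
  induction w using Multiset.induction_on with
  | empty => exact ⟨Y / 2, by linarith, by linarith, by simp⟩
  | cons a w ih =>
    obtain ⟨t, ht, hty, h⟩ := ih (fun b hb => hw b (Multiset.mem_cons_of_mem hb))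
    refine ⟨max t a, lt_max_of_lt_left ht, max_lt hty (hw a (Multiset.mem_cons_self a w)), ?_⟩
    intro b hb
    rcases Multiset.mem_cons.1 hb with rfl | hb
    · exact le_max_right _ _
    · exact (h b hb).trans (le_max_left _ _)

lemma card_yd (y : Multiset ℝ) (z : ℕ) (δ : ℝ) : (yd y z δ).card = y.card + z := by
  simp [yd]

lemma sum_yd (y : Multiset ℝ) (z : ℕ) (δ : ℝ) (hz : 0 < z) : (yd y z δ).sum = y.sum := by
  unfold yd
  rw [Multiset.sum_add, Multiset.sum_map_mul_left, Multiset.map_id', Multiset.sum_replicate,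
    nsmul_eq_mul]
  have : (z : ℝ) ≠ 0 := by positivity
  field_simp
  ring

lemma mem_yd (y : Multiset ℝ) (z : ℕ) (δ : ℝ) {v : ℝ} (hv : v ∈ y) : (1 - δ) * v ∈ yd y z δ := by
  unfold yd
  rw [Multiset.mem_add]
  left
  exact Multiset.mem_map.2 ⟨v, hv, rfl⟩

/-- number of points in a window, lower bound -/
lemma card_lower (a b : ℝ) : b - a - 1 ≤ ((Finset.Icc ⌈a⌉ ⌊b⌋).card : ℝ) := by
  rw [Int.card_Icc]
  have h1 : (⌊b⌋ + 1 - ⌈a⌉ : ℤ) ≤ ((⌊b⌋ + 1 - ⌈a⌉).toNat : ℤ) := Int.self_le_toNat _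
  have h2 : ((⌊b⌋ + 1 - ⌈a⌉ : ℤ) : ℝ) ≤ ((⌊b⌋ + 1 - ⌈a⌉).toNat : ℝ) := by exact_mod_cast h1
  have h3 := Int.sub_one_lt_floor b
  have h4 := Int.ceil_lt_add_one a
  push_cast at h2
  linarith

/-- number of points in a window, upper bound -/
lemma card_upper (a b : ℝ) (h : a ≤ b) : ((Finset.Icc ⌈a⌉ ⌊b⌋).card : ℝ) ≤ b - a + 1 := by
  rw [Int.card_Icc]
  have h3 := Int.floor_le b
  have h4 := Int.le_ceil a
  rcases le_or_gt (⌊b⌋ + 1 - ⌈a⌉) 0 with h5 | h5
  · rw [Int.toNat_of_nonpos h5]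
    push_cast
    linarith
  · have h1 : ((⌊b⌋ + 1 - ⌈a⌉).toNat : ℤ) = (⌊b⌋ + 1 - ⌈a⌉ : ℤ) := Int.toNat_of_nonneg h5.le
    have h2 : ((⌊b⌋ + 1 - ⌈a⌉).toNat : ℝ) = ((⌊b⌋ + 1 - ⌈a⌉ : ℤ) : ℝ) := by exact_mod_cast h1
    rw [h2]
    push_cast
    linarith

end C3c

open C3c in
theorem sC3c : StmC3c := by
  rintro x y ⟨hx, hy, hs, hy1, hx1, hc, hy0⟩ ⟨Y, hY, hYx⟩
  have hY0 : 0 < Y := hy Y hY
  obtain ⟨X, hX0, hXY, hX⟩ := exists_upper x Y hY0 hYx
  obtain ⟨t', ht', htx⟩ := exists_lower x hx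
  obtain ⟨t0, ht0, htX, ht0x⟩ : ∃ t0 : ℝ, 0 < t0 ∧ t0 < X ∧ ∀ a ∈ x, t0 ≤ a :=
    ⟨min t' (X / 2), lt_min ht' (by linarith), lt_of_le_of_lt (min_le_right _ _) (by linarith),
      fun a ha => (min_le_left _ _).trans (htx a ha)⟩
  obtain ⟨z, hz⟩ : ∃ z, z = x.card - y.card := ⟨_, rfl⟩
  have hz0 : 0 < z := by omega
  rw [← hz]
  have hσ : 0 ≤ y.sum := Multiset.sum_nonneg (fun v hv => (hy v hv).le)
  set σ := y.sum with hσd
  set g := (Y - X) / 6 with hg
  have hg0 : 0 < g := by rw [hg]; linarith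
  set X1 := (2 * X + Y) / 3 with hX1
  set Y1 := (X + 2 * Y) / 3 with hY1
  have hX1X : X < X1 := by rw [hX1]; linarith
  have hX10 : 0 < X1 := by linarith
  have hXY1 : X1 < Y1 := by rw [hX1, hY1]; linarith
  have hY10 : 0 < Y1 := by linarith
  have hl1 : 0 < Real.log Y1 - Real.log X1 := by
    have := Real.log_lt_log hX10 hXY1; linarith
  have hl2 : 0 < Real.log X - Real.log t0 := by
    have := Real.log_lt_log ht0 htX; linarith
  set l1 := Real.log Y1 - Real.log X1 with hl1d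
  set l2 := Real.log X - Real.log t0 with hl2d
  have hratio : 1 < X1 / X := by rw [lt_div_iff₀ hX0]; linarith
  obtain ⟨N, hN⟩ := pow_unbounded_of_one_lt (2 * σ * (l2 + 1) / (g * l1)) hratio
  refine ⟨(N : ℝ) + 1, by have := Nat.cast_nonneg (α := ℝ) N; linarith, g / Y,
    div_pos hg0 hY0, ?_⟩
  intro δ hδ0 hδ
  have hδY : δ * Y ≤ g := by
    rw [lt_div_iff₀ hY0] at hδ
    exact hδ.le
  refine ⟨Real.exp (min 1 (l1 / 2)), ?_, ?_⟩
  · rw [gt_iff_lt, Real.one_lt_exp_iff]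
    exact lt_min one_pos (by linarith)
  intro q hq hq1
  have hL0 : 0 < Real.log q := Real.log_pos hq
  have hL1 : Real.log q < min 1 (l1 / 2) := by
    have := Real.log_lt_log (by linarith) hq1
    rwa [Real.log_exp] at this
  set L := Real.log q with hL
  have hLa : L < 1 := lt_of_lt_of_le hL1 (min_le_left _ _)
  have hLb : L < l1 / 2 := lt_of_lt_of_le hL1 (min_le_right _ _)
  set A : Finset ℤ := Finset.Icc ⌈Real.log X1 / L⌉ ⌊Real.log Y1 / L⌋ with hA
  set B : Finset ℤ := Finset.Icc ⌈Real.log t0 / L⌉ ⌊Real.log X / L⌋ with hB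
  have hAm : ∀ m, m ∈ A ↔ X1 ≤ q ^ m ∧ q ^ m ≤ Y1 := by
    intro m
    rw [hA, Finset.mem_Icc, Int.ceil_le, Int.le_floor, le_zpow hq hX10, zpow_le hq hY10]
  have hBm : ∀ m, m ∈ B ↔ t0 ≤ q ^ m ∧ q ^ m ≤ X := by
    intro m
    rw [hB, Finset.mem_Icc, Int.ceil_le, Int.le_floor, le_zpow hq ht0, zpow_le hq hX0]
  refine ⟨max (⌈Real.log X1 / L⌉).natAbs (⌊Real.log Y1 / L⌋).natAbs, ?_⟩
  intro K hK r hr
  have hK1 : (⌈Real.log X1 / L⌉).natAbs ≤ K := (le_max_left _ _).trans hK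
  have hK2 : (⌊Real.log Y1 / L⌋).natAbs ≤ K := (le_max_right _ _).trans hK
  have hAK : A ⊆ Finset.Icc (-(K : ℤ)) K := by
    intro m hm
    rw [hA, Finset.mem_Icc] at hm
    rw [Finset.mem_Icc]
    omega
  have hr1 : 0 ≤ r - 1 := by
    have := Nat.cast_nonneg (α := ℝ) N
    linarith
  have hXr : 0 < X ^ (r - 1) := Real.rpow_pos_of_pos hX0 _
  have hX1r : 0 < X1 ^ (r - 1) := Real.rpow_pos_of_pos hX10 _
  -- termwise bound
  have hterm : ∀ m : ℤ, (if m ∈ A then g * X1 ^ (r - 1) else 0) -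
      (if m ∈ B then σ * X ^ (r - 1) else 0) ≤
      (Ph (yd y z δ) (q ^ m) - Ph x (q ^ m)) * (q ^ m) ^ (r - 1) := by
    intro m
    have hqm : 0 < q ^ m := zpow_pos (by linarith) m
    have hw : 0 < (q ^ m) ^ (r - 1) := Real.rpow_pos_of_pos hqm _
    have hBn : 0 ≤ (if m ∈ B then σ * X ^ (r - 1) else 0) := by
      split_ifs
      · positivity
      · exact le_refl _
    rcases le_or_gt X (q ^ m) with h1 | h1
    · have hPx : Ph x (q ^ m) = 0 := Ph_eq_zero x _ (fun v hv => (hX v hv).trans h1)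
      rw [hPx, sub_zero]
      by_cases hmA : m ∈ A
      · rw [if_pos hmA]
        obtain ⟨k1, k2⟩ := (hAm m).1 hmA
        have h2 := le_Ph_of_mem (yd y z δ) (q ^ m) (mem_yd y z δ hY)
        have h3 : g ≤ Ph (yd y z δ) (q ^ m) := by
          refine le_trans ?_ h2
          have e1 : (1 - δ) * Y = Y - δ * Y := by ring
          rw [e1]
          have : Y1 = (X + 2 * Y) / 3 := hY1
          have : g = (Y - X) / 6 := hg
          linarith
        have h4 : X1 ^ (r - 1) ≤ (q ^ m) ^ (r - 1) := Real.rpow_le_rpow hX10.le k1 hr1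
        have h5 : g * X1 ^ (r - 1) ≤ Ph (yd y z δ) (q ^ m) * (q ^ m) ^ (r - 1) :=
          mul_le_mul h3 h4 hX1r.le (hg0.le.trans h3)
        linarith
      · rw [if_neg hmA]
        have := mul_nonneg (Ph_nonneg (yd y z δ) (q ^ m)) hw.le
        linarith
    · have hmA : m ∉ A := by
        intro h
        have := ((hAm m).1 h).1
        linarith
      rw [if_neg hmA, zero_sub]
      rcases le_or_gt (q ^ m) t0 with h2 | h2
      · have h3 := sum_sub_le_Ph (yd y z δ) (q ^ m)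
        have h4 := Ph_eq_of_le x (q ^ m) (fun v hv => h2.trans (ht0x v hv))
        rw [sum_yd y z δ hz0, card_yd] at h3
        have h5 : y.card + z = x.card := by omega
        rw [h5] at h3
        have h6 : 0 ≤ Ph (yd y z δ) (q ^ m) - Ph x (q ^ m) := by
          rw [h4, hs]; linarith
        have := mul_nonneg h6 hw.le
        linarith
      · have hmB : m ∈ B := (hBm m).2 ⟨h2.le, h1.le⟩
        rw [if_pos hmB]
        have h3 : Ph x (q ^ m) ≤ σ := by
          rw [← hs]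
          exact Ph_le_sum x hqm.le (fun v hv => (hx v hv).le)
        have h4 := Ph_nonneg (yd y z δ) (q ^ m)
        have h5 : (q ^ m) ^ (r - 1) ≤ X ^ (r - 1) := Real.rpow_le_rpow hqm.le h1.le hr1
        have h6 : σ * (q ^ m) ^ (r - 1) ≤ σ * X ^ (r - 1) := mul_le_mul_of_nonneg_left h5 hσ
        have h7 : -σ * (q ^ m) ^ (r - 1) ≤
            (Ph (yd y z δ) (q ^ m) - Ph x (q ^ m)) * (q ^ m) ^ (r - 1) :=
          mul_le_mul_of_nonneg_right (by linarith) hw.le
        linarith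
  have hsum : (A.card : ℝ) * (g * X1 ^ (r - 1)) - (B.card : ℝ) * (σ * X ^ (r - 1)) ≤
      Rs x (yd y z δ) q K r := by
    unfold Rs
    refine le_trans ?_ (Finset.sum_le_sum (fun m _ => hterm m))
    rw [Finset.sum_sub_distrib, ← Finset.sum_filter, ← Finset.sum_filter, Finset.sum_const,
      Finset.sum_const, nsmul_eq_mul, nsmul_eq_mul]
    have e1 : (Finset.Icc (-(K : ℤ)) K).filter (fun m => m ∈ A) = A := by
      ext m
      rw [Finset.mem_filter]
      exact ⟨fun h => h.2, fun h => ⟨hAK h, h⟩⟩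
    have e2 : (((Finset.Icc (-(K : ℤ)) K).filter (fun m => m ∈ B)).card : ℝ) ≤ B.card := by
      have : ((Finset.Icc (-(K : ℤ)) K).filter (fun m => m ∈ B)).card ≤ B.card := by
        apply Finset.card_le_card
        intro m hm
        exact (Finset.mem_filter.1 hm).2
      exact_mod_cast this
    rw [e1]
    have := mul_le_mul_of_nonneg_right e2 (mul_nonneg hσ hXr.le)
    linarith
  refine lt_of_lt_of_le ?_ hsum
  have hcA := card_lower (Real.log X1 / L) (Real.log Y1 / L)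
  have hcB := card_upper (Real.log t0 / L) (Real.log X / L) (by
    apply div_le_div_of_nonneg_right _ hL0.le
    linarith)
  rw [← hA] at hcA
  rw [← hB] at hcB
  have hcA' : l1 / (2 * L) ≤ A.card := by
    refine le_trans ?_ hcA
    have e1 : Real.log Y1 / L - Real.log X1 / L - 1 = (l1 - L) / L := by
      rw [hl1d]; field_simp
    rw [e1, div_le_div_iff₀ (by positivity) hL0]
    have k : L * (2 * L) ≤ L * l1 := mul_le_mul_of_nonneg_left (by linarith) hL0.le
    linarith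
  have hcB' : (B.card : ℝ) ≤ (l2 + 1) / L := by
    refine le_trans hcB ?_
    have e1 : Real.log X / L - Real.log t0 / L + 1 = (l2 + L) / L := by
      rw [hl2d]; field_simp
    rw [e1]
    apply div_le_div_of_nonneg_right _ hL0.le
    linarith
  -- comparison of the powers
  have hpow : 2 * σ * (l2 + 1) / (g * l1) < (X1 / X) ^ (r - 1) := by
    refine lt_of_lt_of_le hN ?_
    rw [← Real.rpow_natCast]
    exact Real.rpow_le_rpow_of_exponent_le hratio.le (by linarith)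
  rw [Real.div_rpow hX10.le hX0.le, div_lt_div_iff₀ (by positivity) hXr] at hpow
  have h1 : (l1 / (2 * L)) * (g * X1 ^ (r - 1)) ≤ (A.card : ℝ) * (g * X1 ^ (r - 1)) :=
    mul_le_mul_of_nonneg_right hcA' (by positivity)
  have h2 : (B.card : ℝ) * (σ * X ^ (r - 1)) ≤ (l2 + 1) / L * (σ * X ^ (r - 1)) :=
    mul_le_mul_of_nonneg_right hcB' (by positivity)
  have h3 : (l2 + 1) / L * (σ * X ^ (r - 1)) < (l1 / (2 * L)) * (g * X1 ^ (r - 1)) := by
    rw [div_mul_eq_mul_div, div_mul_eq_mul_div, div_lt_div_iff₀ hL0 (by positivity)]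
    have k := mul_lt_mul_of_pos_right hpow hL0
    linarith
  linarith

end R100FC
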