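import Pool.Agent.R100.FC.Stm

namespace R100FC

open MeasureTheory Set

namespace C3h

lemma exists_low (w : Multiset ℝ) (hw : Pos w) : ∃ t : ℝ, 0 < t ∧ ∀ a ∈ w, t ≤ a := by
  induction w using Multiset.induction_on with
  | empty => exact ⟨1, one_pos, by simp⟩
  | cons a w ih =>
    obtain ⟨t, ht, h⟩ := ih (fun b hb => hw b (Multiset.mem_cons_of_mem hb))
    refine ⟨min t a, lt_min ht (hw a (Multiset.mem_cons_self a w)), ?_⟩
    intro b hb
    rcases Multiset.mem_cons.1 hb with rfl | hb
    · exact min_le_right _ _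
    · exact (min_le_left _ _).trans (h b hb)

lemma sum_pos' (w : Multiset ℝ) (hw : Pos w) : 0 ≤ w.sum :=
  Multiset.sum_nonneg fun v hv => (hw v hv).le

lemma sum_yd (y : Multiset ℝ) (z : ℕ) (hz : 0 < z) (δ : ℝ) : (yd y z δ).sum = y.sum := by
  have hz' : (z : ℝ) ≠ 0 := by exact_mod_cast hz.ne'
  unfold yd
  rw [Multiset.sum_add, Multiset.sum_map_mul_left, Multiset.map_id', Multiset.sum_replicate,
    nsmul_eq_mul]
  field_simp
  ring

lemma card_yd (y : Multiset ℝ) (z : ℕ) (δ : ℝ) : (yd y z δ).card = y.card + z := by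
  simp [yd]

end C3h

open C3h in
theorem sC3h : StmC3h := by
  intro x y h
  obtain ⟨hx, hy, hsum, -, -, hcard, hy0⟩ := h
  obtain ⟨m, hm, hlow⟩ := exists_low y hy
  set z : ℕ := x.card - y.card with hz
  have hz0 : 0 < z := by omega
  have hz1 : (1 : ℝ) ≤ z := by exact_mod_cast hz0
  set b : ℕ := y.card with hb
  have hb0 : 0 < b := by rw [hb]; exact Multiset.card_pos.2 hy0
  have hb0' : (0 : ℝ) < b := by exact_mod_cast hb0
  have hσ : 0 ≤ y.sum := sum_pos' y hy
  set σ := y.sum with hσd
  have hpos : 0 < m / 2 / (σ + 1) := by positivity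
  refine ⟨min (1 / 2) (m / 2 / (σ + 1)), lt_min (by norm_num) hpos, ?_⟩
  intro δ hδ0 hδ
  have hδ1 : δ < 1 / 2 := lt_of_lt_of_le hδ (min_le_left _ _)
  have hδ2 : δ < m / 2 / (σ + 1) := lt_of_lt_of_le hδ (min_le_right _ _)
  set τ := δ * σ / z with hτ
  have hτm : τ ≤ m / 2 := by
    rw [lt_div_iff₀ (by linarith)] at hδ2
    rw [hτ, div_le_iff₀ (by linarith)]
    nlinarith
  refine ⟨min (1 / (1 - δ)) ((b + z) / b), lt_min ?_ ?_, ?_⟩
  · rw [lt_div_iff₀ (by linarith)]; linarith
  · rw [lt_div_iff₀ hb0']; linarith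
  intro q hq hq1 t ht
  have hqa : q < 1 / (1 - δ) := lt_of_lt_of_le hq1 (min_le_left _ _)
  have hqb : q < (b + z) / b := lt_of_lt_of_le hq1 (min_le_right _ _)
  have hq0 : 0 < q := by linarith
  rw [lt_div_iff₀ (by linarith)] at hqa
  rw [lt_div_iff₀ hb0'] at hqb
  set s := t / q with hs
  have hs0 : 0 < s := by positivity
  have hts : t = s * q := by rw [hs]; field_simp
  rcases lt_or_ge s τ with hlt | hge
  · have hall : ∀ v ∈ yd y z δ, s ≤ v := by
      intro v hv
      unfold yd at hv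
      rw [Multiset.mem_add] at hv
      rcases hv with hv | hv
      · obtain ⟨a, ha, rfl⟩ := Multiset.mem_map.1 hv
        have := hlow a ha
        nlinarith
      · rw [Multiset.eq_of_mem_replicate hv]
        exact hlt.le
    rw [Ph_eq_of_le _ _ hall, sum_yd y z hz0, card_yd]
    have h1 := sum_sub_le_Ph y t
    refine le_trans ?_ h1
    rw [hts]
    push_cast
    nlinarith [mul_pos hs0 (sub_pos.2 hqb)]
  · have h2 : Ph (Multiset.replicate z τ) s = 0 :=
      Ph_eq_zero _ _ fun v hv => by rw [Multiset.eq_of_mem_replicate hv]; exact hge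
    show Ph (y.map (fun v => (1 - δ) * v) + Multiset.replicate z (δ * y.sum / z)) s ≤ Ph y t
    rw [Ph_add, h2, add_zero]
    unfold Ph
    rw [Multiset.map_map]
    apply Multiset.sum_map_le_sum_map
    intro v hv
    have hv0 := hy v hv
    simp only [Function.comp]
    apply max_le
    · by_cases hc : (1 - δ) * v ≤ s
      · exact le_trans (by linarith) (le_max_right _ _)
      · push Not at hc
        refine le_trans ?_ (le_max_left _ _)
        rw [hts]
        nlinarith [mul_pos (sub_pos.2 hq) (sub_pos.2 hc), mul_pos hv0 (sub_pos.2 hqa)]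
    · exact le_max_right _ _

end R100FC
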