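import Pool.Agent.R100.FC.Stm

/-! Project FC (MP_261b1b_mp), piece C4a: the potential argument. -/

set_option autoImplicit false

namespace R100FC

open MeasureTheory Set

namespace C4a

/-- `∑ min v t` -/
noncomputable def mm (s : Multiset ℝ) (t : ℝ) : ℝ := (s.map (fun v => min v t)).sum

lemma Ph_eq (s : Multiset ℝ) (t : ℝ) : Ph s t = s.sum - mm s t := by
  induction s using Multiset.induction_on with
  | empty => simp [mm]
  | cons a s ih =>
    have h : max (a - t) 0 = a - min a t := by
      rcases le_total a t with h | h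
      · rw [min_eq_left h, max_eq_right (by linarith), sub_self]
      · rw [min_eq_right h, max_eq_left (by linarith)]
    rw [Ph_cons, ih, h]
    simp only [mm, Multiset.map_cons, Multiset.sum_cons]
    ring

/-- entries in `(0, 1]` -/
def UU (s : Multiset ℝ) : Prop := ∀ v ∈ s, 0 < v ∧ v ≤ 1

lemma UU_of {s : Multiset ℝ} (hs : Pos s) (h1 : s.sum = 1) : UU s := by
  intro v hv
  refine ⟨hs v hv, ?_⟩
  rw [← h1]
  exact Multiset.single_le_sum (fun x hx => (hs x hx).le) v hv

/-- the weight of an entry -/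
noncomputable def w (r v : ℝ) : ℝ := ∫ t in (0:ℝ)..1, min v t * t ^ (r - 2)

lemma mm_int (h : StmC4f) {r : ℝ} (hr : 0 < r) (s : Multiset ℝ) (hs : UU s) :
    IntervalIntegrable (fun t => mm s t * t ^ (r - 2)) volume 0 1 ∧
      ∫ t in (0:ℝ)..1, mm s t * t ^ (r - 2) = (s.map (w r)).sum := by
  induction s using Multiset.induction_on with
  | empty =>
    constructor
    · simp [mm]
    · simp [mm]
  | cons a s ih =>
    obtain ⟨i1, i2⟩ := ih (fun v hv => hs v (Multiset.mem_cons_of_mem hv))
    have ha := hs a (Multiset.mem_cons_self a s)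
    have i3 := (h r a hr ha.1 ha.2).1
    have e : (fun t : ℝ => mm (a ::ₘ s) t * t ^ (r - 2)) =
        fun t => min a t * t ^ (r - 2) + mm s t * t ^ (r - 2) := by
      funext t
      simp only [mm, Multiset.map_cons, Multiset.sum_cons]
      ring
    rw [e]
    refine ⟨i3.add i1, ?_⟩
    rw [intervalIntegral.integral_add i3 i1, i2, Multiset.map_cons, Multiset.sum_cons, w]

lemma diff_int (h : StmC4f) {r : ℝ} (hr : 0 < r) (s s' : Multiset ℝ) (hs : UU s) (hs' : UU s')
    (he : s.sum = s'.sum) :
    ∫ t in (0:ℝ)..1, (Ph s' t - Ph s t) * t ^ (r - 2) = (s.map (w r)).sum - (s'.map (w r)).sum := by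
  obtain ⟨i1, i2⟩ := mm_int h hr s hs
  obtain ⟨j1, j2⟩ := mm_int h hr s' hs'
  rw [← i2, ← j2, ← intervalIntegral.integral_sub i1 j1]
  congr 1
  funext t
  rw [Ph_eq, Ph_eq, he]
  ring

/-- `∑ v ^ r` -/
noncomputable def NN (r : ℝ) (s : Multiset ℝ) : ℝ := (s.map (fun v => v ^ r)).sum

/-- the entropy -/
noncomputable def HH (s : Multiset ℝ) : ℝ := (s.map (fun v => -(v * Real.log v))).sum

lemma W_ne (h : StmC4f) {r : ℝ} (hr : 0 < r) (hr1 : r ≠ 1) (s : Multiset ℝ) (hs : UU s) :
    (s.map (w r)).sum = (NN r s - r * s.sum) / (r * (1 - r)) := by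
  induction s using Multiset.induction_on with
  | empty => simp [NN]
  | cons a s ih =>
    have ha := hs a (Multiset.mem_cons_self a s)
    rw [Multiset.map_cons, Multiset.sum_cons, ih (fun v hv => hs v (Multiset.mem_cons_of_mem hv)),
      w, (h r a hr ha.1 ha.2).2.1 hr1, Multiset.sum_cons]
    simp only [NN, Multiset.map_cons, Multiset.sum_cons]
    rw [← add_div]
    congr 1
    ring

lemma W_one (h : StmC4f) (s : Multiset ℝ) (hs : UU s) :
    (s.map (w 1)).sum = s.sum + HH s := by
  induction s using Multiset.induction_on with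
  | empty => simp [HH]
  | cons a s ih =>
    have ha := hs a (Multiset.mem_cons_self a s)
    rw [Multiset.map_cons, Multiset.sum_cons, ih (fun v hv => hs v (Multiset.mem_cons_of_mem hv)),
      w, (h 1 a one_pos ha.1 ha.2).2.2 rfl, Multiset.sum_cons]
    simp only [HH, Multiset.map_cons, Multiset.sum_cons]
    ring

lemma NN_map_mul (r a : ℝ) (ha : 0 < a) (s : Multiset ℝ) (hs : Pos s) :
    NN r (s.map (fun b => a * b)) = a ^ r * NN r s := by
  unfold NN
  rw [Multiset.map_map, ← Multiset.sum_map_mul_left]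
  congr 1
  refine Multiset.map_congr rfl (fun b hb => ?_)
  exact Real.mul_rpow ha.le (hs b hb).le

lemma NN_ten (r : ℝ) (s s' : Multiset ℝ) (hs : Pos s) (hs' : Pos s') :
    NN r (ten s s') = NN r s * NN r s' := by
  induction s using Multiset.induction_on with
  | empty => simp [NN]
  | cons a s ih =>
    have ha := hs a (Multiset.mem_cons_self a s)
    have ih' := ih (fun v hv => hs v (Multiset.mem_cons_of_mem hv))
    have e1 : NN r (ten (a ::ₘ s) s') = NN r (s'.map (fun b => a * b)) + NN r (ten s s') := by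
      rw [ten_cons_left]
      simp [NN]
    rw [e1, NN_map_mul r a ha s' hs', ih']
    simp only [NN, Multiset.map_cons, Multiset.sum_cons]
    ring

lemma HH_map_mul (a : ℝ) (ha : 0 < a) (s : Multiset ℝ) (hs : Pos s) :
    HH (s.map (fun b => a * b)) = -(a * Real.log a) * s.sum + a * HH s := by
  induction s using Multiset.induction_on with
  | empty => simp [HH]
  | cons b s ih =>
    have hb := hs b (Multiset.mem_cons_self b s)
    have ih' := ih (fun v hv => hs v (Multiset.mem_cons_of_mem hv))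
    simp only [HH, Multiset.map_cons, Multiset.sum_cons] at ih' ⊢
    rw [ih', Real.log_mul ha.ne' hb.ne']
    ring

lemma HH_ten (s s' : Multiset ℝ) (hs : Pos s) (hs' : Pos s') :
    HH (ten s s') = HH s * s'.sum + s.sum * HH s' := by
  induction s using Multiset.induction_on with
  | empty => simp [HH]
  | cons a s ih =>
    have ha := hs a (Multiset.mem_cons_self a s)
    have ih' := ih (fun v hv => hs v (Multiset.mem_cons_of_mem hv))
    have e1 : HH (ten (a ::ₘ s) s') = HH (s'.map (fun b => a * b)) + HH (ten s s') := by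
      rw [ten_cons_left]
      simp [HH]
    rw [e1, HH_map_mul a ha s' hs', ih']
    simp only [HH, Multiset.map_cons, Multiset.sum_cons]
    ring

/-- the potential decreases -/
lemma pot (e gap : ℕ → ℝ) (c L : ℝ) (hc : 0 < c) (hg : ∀ k, 0 ≤ gap k) (hL : ∀ k, L ≤ e k)
    (h : ∀ k, e (k + 1) ≤ e k - c * gap k) :
    (∀ k, e k ≤ e 0) ∧ ∀ N : ℕ, ∑ k ∈ Finset.range N, gap k ≤ (e 0 - L) / c := by
  have h1 : ∀ N, c * ∑ k ∈ Finset.range N, gap k ≤ e 0 - e N := by
    intro N
    induction N with
    | zero => simp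
    | succ N ih =>
      rw [Finset.sum_range_succ, mul_add]
      have := h N
      linarith
  refine ⟨fun k => ?_, fun N => ?_⟩
  · have h2 := h1 k
    have h3 : 0 ≤ c * ∑ i ∈ Finset.range k, gap i :=
      mul_nonneg hc.le (Finset.sum_nonneg fun i _ => hg i)
    linarith
  · rw [le_div_iff₀ hc]
    have := h1 N
    have := hL N
    linarith

lemma sum_map_mul_le {s : Multiset ℝ} {f g : ℝ → ℝ} (h : ∀ v ∈ s, f v ≤ g v) :
    (s.map f).sum ≤ (s.map g).sum := Multiset.sum_map_le_sum_map _ _ h

lemma sum_map_const_mul (s : Multiset ℝ) (c : ℝ) :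
    (s.map (fun v => v * c)).sum = s.sum * c := by
  rw [Multiset.sum_map_mul_right, Multiset.map_id']

lemma NN_pos {r : ℝ} {s : Multiset ℝ} (hs : Pos s) (h1 : s.sum = 1) : 0 < NN r s := by
  have hne : s ≠ 0 := by
    rintro rfl
    simp at h1
  obtain ⟨a, ha⟩ := Multiset.exists_mem_of_ne_zero hne
  obtain ⟨s', rfl⟩ := Multiset.exists_cons_of_mem ha
  simp only [NN, Multiset.map_cons, Multiset.sum_cons]
  have h2 : 0 < a ^ r := Real.rpow_pos_of_pos (hs a (Multiset.mem_cons_self a s')) r
  have h3 : 0 ≤ (s'.map (fun v => v ^ r)).sum := by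
    apply Multiset.sum_nonneg
    intro v hv
    obtain ⟨b, hb, rfl⟩ := Multiset.mem_map.1 hv
    exact Real.rpow_nonneg (hs b (Multiset.mem_cons_of_mem hb)).le r
  linarith

end C4a

open C4a in
theorem sC4a : StmC4a := by
  intro hf x y η r hx hy hxs hys hch hr hI
  have hη : ∀ k, Pos (η k) := fun k => (hch.1 k).1
  have hηs : ∀ k, (η k).sum = 1 := fun k => (hch.1 k).2
  have Ux := UU_of hx hxs
  have Uy := UU_of hy hys
  have Uη : ∀ k, UU (η k) := fun k => UU_of (hη k) (hηs k)
  have sx : ∀ k, (ten x (η k)).sum = 1 := fun k => by rw [sum_ten, hxs, hηs]; norm_num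
  have sy : ∀ k, (ten y (η k)).sum = 1 := fun k => by rw [sum_ten, hys, hηs]; norm_num
  have Utx : ∀ k, UU (ten x (η k)) := fun k => UU_of (hx.ten (hη k)) (sx k)
  have Uty : ∀ k, UU (ten y (η k)) := fun k => UU_of (hy.ten (hη k)) (sy k)
  set gap : ℕ → ℝ := fun k => ∫ t in (0:ℝ)..1,
      (Ph (ten y (η (k + 1))) t - Ph (ten x (η k)) t) * t ^ (r - 2) with hgap
  have hgapW : ∀ k, gap k = ((ten x (η k)).map (w r)).sum - ((ten y (η (k + 1))).map (w r)).sum :=
    fun k => diff_int hf hr _ _ (Utx k) (Uty (k + 1)) (by rw [sx, sy])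
  have hIW : I x y r = (x.map (w r)).sum - (y.map (w r)).sum :=
    diff_int hf hr x y Ux Uy (by rw [hxs, hys])
  have hgap0 : ∀ k, 0 ≤ gap k := by
    intro k
    refine intervalIntegral.integral_nonneg zero_le_one (fun t ht => ?_)
    rcases ht.1.eq_or_lt with h0 | h0
    · rw [← h0]
      have e1 : Ph (ten y (η (k + 1))) 0 = 1 := by
        rw [Ph_eq_of_le _ _ (fun v hv => ((Uty (k + 1)) v hv).1.le), sy]; ring
      have e2 : Ph (ten x (η k)) 0 = 1 := by
        rw [Ph_eq_of_le _ _ (fun v hv => ((Utx k) v hv).1.le), sx]; ring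
      rw [e1, e2, sub_self, zero_mul]
    · exact mul_nonneg (sub_nonneg.2 (hch.2 k t h0)) (Real.rpow_nonneg h0.le _)
  -- existence of the bound from a potential
  rcases lt_trichotomy r 1 with hr1 | hr1 | hr1
  · -- r < 1
    have hc0 : 0 < r * (1 - r) := mul_pos hr (by linarith)
    have hNy : 0 < NN r y := NN_pos hy hys
    have hNxy : NN r x ≤ NN r y := by
      rw [hIW, W_ne hf hr hr1.ne x Ux, W_ne hf hr hr1.ne y Uy, hxs, hys, ← sub_div,
        div_le_iff₀ hc0] at hI
      linarith
    have hstep : ∀ k, NN r (η (k + 1)) ≤ NN r (η k) - (r * (1 - r) / NN r y) * gap k := by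
      intro k
      have h1 := hgapW k
      rw [W_ne hf hr hr1.ne _ (Utx k), W_ne hf hr hr1.ne _ (Uty (k + 1)), sx, sy, ← sub_div,
        NN_ten r x _ hx (hη k), NN_ten r y _ hy (hη (k + 1)), eq_div_iff hc0.ne'] at h1
      have h2 : 0 < NN r (η k) := NN_pos (hη k) (hηs k)
      have h3 : NN r x * NN r (η k) ≤ NN r y * NN r (η k) :=
        mul_le_mul_of_nonneg_right hNxy h2.le
      have h4 : NN r y * NN r (η (k + 1)) ≤ NN r y * NN r (η k) - gap k * (r * (1 - r)) := by
        linarith
      have h5 : NN r y * (NN r (η k) - (r * (1 - r) / NN r y) * gap k) =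
          NN r y * NN r (η k) - gap k * (r * (1 - r)) := by
        field_simp
      rw [← h5] at h4
      exact le_of_mul_le_mul_left h4 hNy
    obtain ⟨h1, h2⟩ := pot (fun k => NN r (η k)) gap (r * (1 - r) / NN r y) 0
      (div_pos hc0 hNy) hgap0 (fun k => (NN_pos (hη k) (hηs k)).le) hstep
    set Cs : ℝ := NN r (η 0) + 1 with hCs
    have hCs0 : 0 < Cs := by
      have := NN_pos (r := r) (hη 0) (hηs 0)
      linarith
    refine ⟨Cs ^ (1 / (r - 1)), Real.rpow_pos_of_pos hCs0 _, _, fun k => ?_, h2⟩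
    by_contra hcon
    push Not at hcon
    have hμ : (Cs ^ (1 / (r - 1))) ^ (r - 1) = Cs := by
      rw [← Real.rpow_mul hCs0.le, one_div_mul_cancel (by linarith), Real.rpow_one]
    have h3 : (η k).sum * Cs ≤ NN r (η k) := by
      rw [← sum_map_const_mul]
      refine sum_map_mul_le (fun v hv => ?_)
      have hv0 := hη k v hv
      have h4 : Cs ≤ v ^ (r - 1) := by
        rw [← hμ]
        exact Real.rpow_le_rpow_of_nonpos hv0 (hcon v hv).le (by linarith)
      have h5 : v ^ r = v * v ^ (r - 1) := by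
        rw [Real.rpow_sub_one hv0.ne']
        field_simp
      rw [h5]
      exact mul_le_mul_of_nonneg_left h4 hv0.le
    rw [hηs, one_mul] at h3
    have : NN r (η k) ≤ NN r (η 0) := h1 k
    linarith
  · -- r = 1
    subst hr1
    have hHxy : HH x ≤ HH y := by
      rw [hIW, W_one hf x Ux, W_one hf y Uy, hxs, hys] at hI
      linarith
    have hH0 : ∀ k, 0 ≤ HH (η k) := by
      intro k
      apply Multiset.sum_nonneg
      intro v hv
      obtain ⟨b, hb, rfl⟩ := Multiset.mem_map.1 hv
      have hb' := Uη k b hb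
      have := Real.log_nonpos hb'.1.le hb'.2
      have := mul_nonneg hb'.1.le (neg_nonneg.2 this)
      linarith
    have hstep : ∀ k, HH (η (k + 1)) ≤ HH (η k) - 1 * gap k := by
      intro k
      have h1 := hgapW k
      rw [W_one hf _ (Utx k), W_one hf _ (Uty (k + 1)), sx, sy,
        HH_ten x _ hx (hη k), HH_ten y _ hy (hη (k + 1)), hxs, hys, hηs, hηs] at h1
      linarith
    obtain ⟨h1, h2⟩ := pot (fun k => HH (η k)) gap 1 0 one_pos hgap0 hH0 hstep
    refine ⟨Real.exp (-(HH (η 0) + 1)), Real.exp_pos _, _, fun k => ?_, h2⟩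
    by_contra hcon
    push Not at hcon
    have h3 : (η k).sum * (HH (η 0) + 1) ≤ HH (η k) := by
      rw [← sum_map_const_mul]
      refine sum_map_mul_le (fun v hv => ?_)
      have hv0 := hη k v hv
      have h4 : Real.log v ≤ -(HH (η 0) + 1) := by
        have := Real.log_le_log hv0 (hcon v hv).le
        rwa [Real.log_exp] at this
      have h5 := mul_le_mul_of_nonneg_left h4 hv0.le
      linarith
    rw [hηs, one_mul] at h3
    have : HH (η k) ≤ HH (η 0) := h1 k
    linarith
  · -- r > 1
    have hc0 : 0 < r * (r - 1) := mul_pos hr (by linarith)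
    have hne : r * (1 - r) ≠ 0 := by
      have : r * (1 - r) = -(r * (r - 1)) := by ring
      rw [this]
      exact neg_ne_zero.2 hc0.ne'
    have hneg : r * (1 - r) < 0 := by
      have : r * (1 - r) = -(r * (r - 1)) := by ring
      rw [this]
      linarith
    have hNy : 0 < NN r y := NN_pos hy hys
    have hNxy : NN r y ≤ NN r x := by
      rw [hIW, W_ne hf hr hr1.ne' x Ux, W_ne hf hr hr1.ne' y Uy, hxs, hys, ← sub_div,
        div_le_iff_of_neg hneg] at hI
      linarith
    have hstep : ∀ k, -NN r (η (k + 1)) ≤ -NN r (η k) - (r * (r - 1) / NN r y) * gap k := by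
      intro k
      have h1 := hgapW k
      rw [W_ne hf hr hr1.ne' _ (Utx k), W_ne hf hr hr1.ne' _ (Uty (k + 1)), sx, sy, ← sub_div,
        NN_ten r x _ hx (hη k), NN_ten r y _ hy (hη (k + 1)), eq_div_iff hne] at h1
      have h2 : 0 < NN r (η k) := NN_pos (hη k) (hηs k)
      have h3 : NN r y * NN r (η k) ≤ NN r x * NN r (η k) :=
        mul_le_mul_of_nonneg_right hNxy h2.le
      have h4 : NN r y * (-NN r (η (k + 1))) ≤
          NN r y * (-NN r (η k)) - gap k * (r * (r - 1)) := by
        linarith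
      have h5 : NN r y * (-NN r (η k) - (r * (r - 1) / NN r y) * gap k) =
          NN r y * (-NN r (η k)) - gap k * (r * (r - 1)) := by
        field_simp
      rw [← h5] at h4
      exact le_of_mul_le_mul_left h4 hNy
    have hN1 : ∀ k, NN r (η k) ≤ 1 := by
      intro k
      rw [← hηs k]
      have h6 : (η k).sum = ((η k).map (fun v => v)).sum := by rw [Multiset.map_id']
      rw [h6]
      refine sum_map_mul_le (fun v hv => ?_)
      have hv' := Uη k v hv
      have := Real.rpow_le_rpow_of_exponent_ge hv'.1 hv'.2 hr1.le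
      rwa [Real.rpow_one] at this
    obtain ⟨h1, h2⟩ := pot (fun k => -NN r (η k)) gap (r * (r - 1) / NN r y) (-1)
      (div_pos hc0 hNy) hgap0 (fun k => neg_le_neg (hN1 k)) hstep
    set ν : ℝ := NN r (η 0) / 2 with hν
    have hν1 := NN_pos (r := r) (hη 0) (hηs 0)
    have hν0 : 0 < ν := by
      rw [hν]; linarith
    refine ⟨ν ^ (1 / (r - 1)), Real.rpow_pos_of_pos hν0 _, _, fun k => ?_, h2⟩
    by_contra hcon
    push Not at hcon
    have hμ : (ν ^ (1 / (r - 1))) ^ (r - 1) = ν := by
      rw [← Real.rpow_mul hν0.le, one_div_mul_cancel (by linarith), Real.rpow_one]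
    have h3 : NN r (η k) ≤ (η k).sum * ν := by
      rw [← sum_map_const_mul]
      refine sum_map_mul_le (fun v hv => ?_)
      have hv0 := hη k v hv
      have h4 : v ^ (r - 1) ≤ ν := by
        rw [← hμ]
        exact Real.rpow_le_rpow hv0.le (hcon v hv).le (by linarith)
      have h5 : v ^ r = v * v ^ (r - 1) := by
        rw [Real.rpow_sub_one hv0.ne']
        field_simp
      rw [h5]
      exact mul_le_mul_of_nonneg_left h4 hv0.le
    rw [hηs, one_mul] at h3
    have : -NN r (η k) ≤ -NN r (η 0) := h1 k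
    linarith

end R100FC
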