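import Pool.Agent.R100.FC.Stm

/-! Project FC (MP_261b1b_mp), piece C4b: contradiction near the top. -/

set_option autoImplicit false

namespace R100FC

open MeasureTheory Set Filter

namespace C4b

/-- `∑ min v t` -/
noncomputable def mm (s : Multiset ℝ) (t : ℝ) : ℝ := (s.map (fun v => min v t)).sum

lemma Ph_eq (s : Multiset ℝ) (t : ℝ) : Ph s t = s.sum - mm s t := by
  induction s using Multiset.induction_on with
  | empty => simp [mm]
  | cons a s ih =>
    have h : max (a - t) 0 = a - min a t := by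
      rcases le_total a t with h | h
      · rw [min_eq_left h, max_eq_right (by linarith), sub_self]
      · rw [min_eq_right h, max_eq_left (by linarith)]
    rw [Ph_cons, ih, h]
    simp only [mm, Multiset.map_cons, Multiset.sum_cons]
    ring

lemma cont_Ph (s : Multiset ℝ) : Continuous (Ph s) := by
  induction s using Multiset.induction_on with
  | empty =>
    have : Ph 0 = fun _ => (0 : ℝ) := by funext t; simp
    rw [this]
    exact continuous_const
  | cons a s ih =>
    have : Ph (a ::ₘ s) = fun t => max (a - t) 0 + Ph s t := by funext t; simp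
    rw [this]
    exact ((continuous_const.sub continuous_id).max continuous_const).add ih

lemma min_int {r v : ℝ} (hr : 0 < r) (hv : 0 < v) :
    IntervalIntegrable (fun t => min v t * t ^ (r - 2)) volume 0 1 := by
  have h1 : IntervalIntegrable (fun t : ℝ => t ^ (r - 1)) volume 0 1 :=
    intervalIntegral.intervalIntegrable_rpow' (by linarith)
  rw [intervalIntegrable_iff_integrableOn_Ioc_of_le zero_le_one] at h1 ⊢
  refine Integrable.mono' h1 ?_ ?_
  · refine Measurable.aestronglyMeasurable ?_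
    exact (measurable_const.min measurable_id).mul (measurable_id.pow_const _)
  · refine (ae_restrict_iff' measurableSet_Ioc).2 (Eventually.of_forall fun t ht => ?_)
    have ht0 : 0 < t := ht.1
    have h2 : 0 < t ^ (r - 2) := Real.rpow_pos_of_pos ht0 _
    have h3 : 0 < min v t := lt_min hv ht0
    rw [Real.norm_eq_abs, abs_of_pos (mul_pos h3 h2)]
    have h4 : t ^ (r - 1) = t * t ^ (r - 2) := by
      have : r - 1 = 1 + (r - 2) := by ring
      rw [this, Real.rpow_add ht0, Real.rpow_one]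
    rw [h4]
    exact mul_le_mul_of_nonneg_right (min_le_right _ _) h2.le

lemma mm_int {r : ℝ} (hr : 0 < r) (s : Multiset ℝ) (hs : Pos s) :
    IntervalIntegrable (fun t => mm s t * t ^ (r - 2)) volume 0 1 := by
  induction s using Multiset.induction_on with
  | empty => simp [mm]
  | cons a s ih =>
    have i1 := ih (fun v hv => hs v (Multiset.mem_cons_of_mem hv))
    have i3 := min_int hr (hs a (Multiset.mem_cons_self a s))
    have e : (fun t : ℝ => mm (a ::ₘ s) t * t ^ (r - 2)) =
        fun t => min a t * t ^ (r - 2) + mm s t * t ^ (r - 2) := by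
      funext t
      simp only [mm, Multiset.map_cons, Multiset.sum_cons]
      ring
    rw [e]
    exact i3.add i1

lemma diff_int {r : ℝ} (hr : 0 < r) (s s' : Multiset ℝ) (hs : Pos s) (hs' : Pos s')
    (he : s.sum = s'.sum) :
    IntervalIntegrable (fun t => (Ph s' t - Ph s t) * t ^ (r - 2)) volume 0 1 := by
  have e : (fun t : ℝ => (Ph s' t - Ph s t) * t ^ (r - 2)) =
      fun t => mm s t * t ^ (r - 2) - mm s' t * t ^ (r - 2) := by
    funext t
    rw [Ph_eq, Ph_eq, he]
    ring
  rw [e]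
  exact (mm_int hr s hs).sub (mm_int hr s' hs')

/-- the window: the partial sums are unbounded -/
lemma win (η : ℕ → Multiset ℝ) (hη : ∀ k, Pos (η k)) (hs : ∀ k, (η k).sum = 1) (μ : ℝ) (hμ : 0 < μ)
    (hm : ∀ k, ∃ v ∈ η k, μ ≤ v) (z z' : Multiset ℝ) (Z Z' : ℝ) (hz : Pos z) (hz' : Pos z')
    (hZ : Z ∈ z) (hZ1 : Z ≤ 1) (hZ'0 : 0 < Z') (hZZ : Z' < Z) (hZ' : ∀ u ∈ z', u ≤ Z') :
    ∃ t0 t1 : ℝ, 0 < t0 ∧ t0 < t1 ∧ t1 ≤ 1 ∧ ∀ B : ℝ, ∃ N : ℕ,
      B < ∑ k ∈ Finset.range N, ∫ t in t0..t1, (Ph (ten z (η k)) t - Ph (ten z' (η k)) t) := by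
  classical
  have hmax : ∀ k, ∃ M : ℝ, M ∈ η k ∧ ∀ u ∈ η k, u ≤ M := by
    intro k
    obtain ⟨v, hv, -⟩ := hm k
    obtain ⟨M, hM, hM2⟩ := Finset.exists_max_image (η k).toFinset id
      ⟨v, Multiset.mem_toFinset.2 hv⟩
    exact ⟨M, Multiset.mem_toFinset.1 hM, fun u hu => hM2 u (Multiset.mem_toFinset.2 hu)⟩
  choose M hM hM2 using hmax
  have hM1 : ∀ k, M k ≤ 1 := by
    intro k
    rw [← hs k]
    exact Multiset.single_le_sum (fun x hx => (hη k x hx).le) _ (hM k)
  have hMμ : ∀ k, μ ≤ M k := by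
    intro k
    obtain ⟨v, hv, h⟩ := hm k
    exact h.trans (hM2 k v hv)
  have hbdd : IsBoundedUnder (· ≤ ·) atTop M := isBoundedUnder_of ⟨1, hM1⟩
  have hbdd' : IsBoundedUnder (· ≥ ·) atTop M := isBoundedUnder_of ⟨μ, hMμ⟩
  have hcob : IsCoboundedUnder (· ≤ ·) atTop M := hbdd'.isCoboundedUnder_le
  set Ms : ℝ := limsup M atTop with hMs
  have hMs1 : Ms ≤ 1 := limsup_le_of_le hcob (Eventually.of_forall hM1)
  have hMsμ : μ ≤ Ms := by
    refine le_limsup_of_frequently_le ?_ hbdd
    exact (Eventually.of_forall hMμ).frequently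
  have hMs0 : 0 < Ms := lt_of_lt_of_le hμ hMsμ
  have hZ0 : 0 < Z := hz Z hZ
  set ε : ℝ := (Z - Z') / (4 * Z) with hε
  have hε0 : 0 < ε := div_pos (by linarith) (by linarith)
  have hεZ : 4 * (ε * Z) = Z - Z' := by
    rw [hε]; field_simp
  have hε1 : ε < 1 := by
    rw [hε, div_lt_one (by linarith)]
    linarith
  have hεZ' : ε * Z' < ε * Z := mul_lt_mul_of_pos_left hZZ hε0
  have hεZ0 : 0 < ε * Z := mul_pos hε0 hZ0
  set t0 : ℝ := Z' * Ms * (1 + ε) with ht0
  set t1 : ℝ := Z * Ms * (1 - ε) with ht1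
  have h00 : 0 < t0 := by positivity
  have h01 : t0 < t1 := by
    have : Z' * (1 + ε) < Z * (1 - ε) := by nlinarith
    have h2 := mul_lt_mul_of_pos_right this hMs0
    rw [ht0, ht1]
    nlinarith
  have h11 : t1 ≤ 1 := by
    have h1 : Z * Ms ≤ 1 := by
      calc Z * Ms ≤ 1 * 1 := mul_le_mul hZ1 hMs1 hMs0.le zero_le_one
        _ = 1 := one_mul 1
    calc t1 = (Z * Ms) * (1 - ε) := rfl
      _ ≤ 1 * 1 := mul_le_mul h1 (by linarith) (by linarith) zero_le_one
      _ = 1 := one_mul 1
  refine ⟨t0, t1, h00, h01, h11, ?_⟩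
  set a : ℕ → ℝ := fun k => ∫ t in t0..t1, (Ph (ten z (η k)) t - Ph (ten z' (η k)) t) with ha
  have hev : ∀ᶠ k in atTop, M k < Ms * (1 + ε) := by
    refine eventually_lt_of_limsup_lt ?_ hbdd
    nlinarith
  have hfr : ∃ᶠ k in atTop, Ms * (1 - ε / 2) < M k := by
    refine frequently_lt_of_lt_limsup hcob ?_
    nlinarith
  have hzero : ∀ k, M k < Ms * (1 + ε) → ∀ t, t0 ≤ t → Ph (ten z' (η k)) t = 0 := by
    intro k hk t ht
    refine Ph_eq_zero _ _ (fun v hv => ?_)
    obtain ⟨p, hp, q, hq, rfl⟩ := mem_ten.1 hv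
    have h1 : p * q ≤ Z' * (Ms * (1 + ε)) :=
      mul_le_mul (hZ' p hp) ((hM2 k q hq).trans hk.le) (hη k q hq).le hZ'0.le
    have h2 : Z' * (Ms * (1 + ε)) = t0 := by rw [ht0]; ring
    linarith
  have hci : ∀ k, IntervalIntegrable (fun t => Ph (ten z (η k)) t - Ph (ten z' (η k)) t)
      volume t0 t1 := fun k =>
    ((cont_Ph _).sub (cont_Ph _)).intervalIntegrable _ _
  have hnn : ∀ k, M k < Ms * (1 + ε) → 0 ≤ a k := by
    intro k hk
    refine intervalIntegral.integral_nonneg h01.le (fun t ht => ?_)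
    rw [hzero k hk t ht.1, sub_zero]
    exact Ph_nonneg _ _
  set c : ℝ := (t1 - t0) * (Z * Ms * (ε / 2)) with hc
  have hc0 : 0 < c := mul_pos (by linarith) (by positivity)
  have hbig : ∀ k, M k < Ms * (1 + ε) → Ms * (1 - ε / 2) < M k → c ≤ a k := by
    intro k hk hk2
    have h1 : ∫ _t in t0..t1, (Z * Ms * (ε / 2)) ≤ a k := by
      refine intervalIntegral.integral_mono_on h01.le intervalIntegrable_const (hci k)
        (fun t ht => ?_)
      rw [hzero k hk t ht.1, sub_zero]
      have h2 : Z * M k ∈ ten z (η k) := mem_ten.2 ⟨Z, hZ, M k, hM k, rfl⟩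
      have h3 := le_Ph_of_mem _ t h2
      have h4 : Z * (Ms * (1 - ε / 2)) ≤ Z * M k := mul_le_mul_of_nonneg_left hk2.le hZ0.le
      have h5 : t ≤ t1 := ht.2
      have h6 : Z * (Ms * (1 - ε / 2)) - t1 = Z * Ms * (ε / 2) := by rw [ht1]; ring
      linarith
    rw [intervalIntegral.integral_const, smul_eq_mul] at h1
    exact h1
  by_contra hcon
  push Not at hcon
  obtain ⟨B, hB⟩ := hcon
  obtain ⟨K, hK⟩ := eventually_atTop.1 hev
  have hsum : Summable (fun j => a (j + K)) := by
    refine summable_of_sum_range_le (c := B - ∑ k ∈ Finset.range K, a k)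
      (fun j => hnn _ (hK _ (by omega))) (fun n => ?_)
    have h1 := hB (K + n)
    have h2 : ∑ k ∈ Finset.range (K + n), a k =
        ∑ k ∈ Finset.range K, a k + ∑ j ∈ Finset.range n, a (j + K) := by
      rw [Finset.sum_range_add]
      congr 1
      exact Finset.sum_congr rfl fun j _ => by rw [add_comm]
    have h3 : ∑ k ∈ Finset.range (K + n), a k ≤ B := h1
    linarith
  have hlim := (hsum.tendsto_atTop_zero).eventually (gt_mem_nhds hc0)
  obtain ⟨L, hL⟩ := eventually_atTop.1 hlim
  obtain ⟨k, hk1, hk2⟩ := (frequently_atTop.1 hfr) (K + L)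
  have h1 := hbig k (hK k (by omega)) hk2
  have h2 := hL (k - K) (by omega)
  have h3 : k - K + K = k := by omega
  rw [h3] at h2
  linarith

lemma pos_sum {s : Multiset ℝ} (hs : Pos s) (hne : s ≠ 0) : 0 < s.sum := by
  obtain ⟨a, ha⟩ := Multiset.exists_mem_of_ne_zero hne
  obtain ⟨s', rfl⟩ := Multiset.exists_cons_of_mem ha
  rw [Multiset.sum_cons]
  have h1 := hs a ha
  have h2 : 0 ≤ s'.sum := Multiset.sum_nonneg
    (fun v hv => (hs v (Multiset.mem_cons_of_mem hv)).le)
  linarith

lemma exists_max {s : Multiset ℝ} (hne : s ≠ 0) : ∃ Z ∈ s, ∀ u ∈ s, u ≤ Z := by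
  classical
  obtain ⟨v, hv⟩ := Multiset.exists_mem_of_ne_zero hne
  obtain ⟨M, hM, hM2⟩ := Finset.exists_max_image s.toFinset id ⟨v, Multiset.mem_toFinset.2 hv⟩
  exact ⟨M, Multiset.mem_toFinset.1 hM, fun u hu => hM2 u (Multiset.mem_toFinset.2 hu)⟩

end C4b

open C4b in
theorem sC4b : StmC4b := by
  classical
  intro x y η r μ A hx hy hxs hys hxy hch hr hμ hm hA
  have hη : ∀ k, Pos (η k) := fun k => (hch.1 k).1
  have hηs : ∀ k, (η k).sum = 1 := fun k => (hch.1 k).2
  set x' := x - y with hx'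
  set y' := y - x with hy'
  set w := x ∩ y with hw
  have ex : x = x' + w := by
    ext a
    rw [Multiset.count_add, hx', hw, Multiset.count_sub, Multiset.count_inter]
    omega
  have ey : y = y' + w := by
    ext a
    rw [Multiset.count_add, hy', hw, Multiset.count_sub, Multiset.count_inter]
    omega
  have hdis : ∀ a, a ∈ x' → a ∉ y' := by
    intro a h1 h2
    rw [← Multiset.count_pos, hx', Multiset.count_sub] at h1
    rw [← Multiset.count_pos, hy', Multiset.count_sub] at h2
    omega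
  have px' : Pos x' := fun v hv => hx v (by rw [ex]; exact Multiset.mem_add.2 (Or.inl hv))
  have py' : Pos y' := fun v hv => hy v (by rw [ey]; exact Multiset.mem_add.2 (Or.inl hv))
  have hsum' : x'.sum = y'.sum := by
    have h1 : x.sum = x'.sum + w.sum := by
      conv_lhs => rw [ex]
      exact Multiset.sum_add _ _
    have h2 : y.sum = y'.sum + w.sum := by
      conv_lhs => rw [ey]
      exact Multiset.sum_add _ _
    linarith
  have hx0 : x' ≠ 0 := by
    intro h0
    have h1 : y' = 0 := by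
      by_contra h1
      have h2 := pos_sum py' h1
      rw [← hsum', h0, Multiset.sum_zero] at h2
      exact lt_irrefl _ h2
    exact hxy (by rw [ex, ey, h0, h1])
  have hy0 : y' ≠ 0 := by
    intro h0
    have h2 := pos_sum px' hx0
    rw [hsum', h0, Multiset.sum_zero] at h2
    exact lt_irrefl _ h2
  obtain ⟨X, hX, hX2⟩ := exists_max hx0
  obtain ⟨Y, hY, hY2⟩ := exists_max hy0
  have hX1 : X ≤ 1 := by
    rw [← hxs]
    exact Multiset.single_le_sum (fun u hu => (hx u hu).le) _
      (by rw [ex]; exact Multiset.mem_add.2 (Or.inl hX))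
  have hY1 : Y ≤ 1 := by
    rw [← hys]
    exact Multiset.single_le_sum (fun u hu => (hy u hu).le) _
      (by rw [ey]; exact Multiset.mem_add.2 (Or.inl hY))
  have hXY : X ≠ Y := by
    rintro rfl
    exact hdis _ hX hY
  -- differences
  have hdiff : ∀ k t, Ph (ten y' (η k)) t - Ph (ten x' (η k)) t =
      Ph (ten y (η k)) t - Ph (ten x (η k)) t := by
    intro k t
    have h1 : Ph (ten x (η k)) t = Ph (ten x' (η k)) t + Ph (ten w (η k)) t := by
      conv_lhs => rw [ex]
      rw [ten_add_left, Ph_add]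
    have h2 : Ph (ten y (η k)) t = Ph (ten y' (η k)) t + Ph (ten w (η k)) t := by
      conv_lhs => rw [ey]
      rw [ten_add_left, Ph_add]
    rw [h1, h2]; ring
  set b : ℕ → ℝ → ℝ := fun k t => Ph (ten y (η (k + 1))) t - Ph (ten x (η k)) t with hb
  have hbc : ∀ k, Continuous (b k) := fun k => (cont_Ph _).sub (cont_Ph _)
  -- sums of integrals over a window
  have hsumid : ∀ t0 t1 : ℝ, ∀ N : ℕ,
      ∑ k ∈ Finset.range N, ∫ t in t0..t1, (Ph (ten y' (η k)) t - Ph (ten x' (η k)) t) =
        ∑ k ∈ Finset.range N, (∫ t in t0..t1, b k t) +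
          ((∫ t in t0..t1, Ph (ten y (η 0)) t) - ∫ t in t0..t1, Ph (ten y (η N)) t) := by
    intro t0 t1 N
    have h1 : ∀ k, ∫ t in t0..t1, (Ph (ten y' (η k)) t - Ph (ten x' (η k)) t) =
        (∫ t in t0..t1, b k t) +
          ((∫ t in t0..t1, Ph (ten y (η k)) t) - ∫ t in t0..t1, Ph (ten y (η (k + 1))) t) := by
      intro k
      have hsub : IntervalIntegrable
          (fun t => Ph (ten y (η k)) t - Ph (ten y (η (k + 1))) t) volume t0 t1 :=
        ((cont_Ph _).sub (cont_Ph _)).intervalIntegrable _ _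
      rw [← intervalIntegral.integral_sub ((cont_Ph _).intervalIntegrable _ _)
        ((cont_Ph _).intervalIntegrable _ _), ← intervalIntegral.integral_add
        ((hbc k).intervalIntegrable _ _) hsub]
      refine intervalIntegral.integral_congr (fun t _ => ?_)
      simp only [hb]
      rw [hdiff]
      ring
    induction N with
    | zero => simp
    | succ N ih =>
      rw [Finset.sum_range_succ, ih, h1 N, Finset.sum_range_succ]
      ring
  have hple : ∀ t0 t1 : ℝ, 0 < t0 → t0 < t1 → ∀ k,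
      0 ≤ (∫ t in t0..t1, Ph (ten y (η k)) t) ∧ (∫ t in t0..t1, Ph (ten y (η k)) t) ≤ t1 - t0 := by
    intro t0 t1 h0 h1 k
    constructor
    · exact intervalIntegral.integral_nonneg h1.le (fun t _ => Ph_nonneg _ _)
    · have h2 : (∫ t in t0..t1, Ph (ten y (η k)) t) ≤ ∫ _t in t0..t1, (1 : ℝ) := by
        refine intervalIntegral.integral_mono_on h1.le ((cont_Ph _).intervalIntegrable _ _)
          intervalIntegrable_const (fun t ht => ?_)
        have h3 := Ph_le_sum (ten y (η k)) (t := t) (by linarith [ht.1])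
          (fun v hv => (hy.ten (hη k) v hv).le)
        rw [sum_ten, hys, hηs, one_mul] at h3
        exact h3
      rw [intervalIntegral.integral_const, smul_eq_mul, mul_one] at h2
      exact h2
  have hb0 : ∀ k t, 0 < t → 0 ≤ b k t := fun k t ht => sub_nonneg.2 (hch.2 k t ht)
  rcases lt_or_gt_of_ne hXY with h | h
  · -- X < Y
    obtain ⟨t0, t1, h0, h01, h1, hun⟩ := win η hη hηs μ hμ hm y' x' Y X py' px' hY hY1
      (px' X hX) h hX2
    set κ : ℝ := min (t0 ^ (r - 2)) 1 with hκ
    have hκ0 : 0 < κ := lt_min (Real.rpow_pos_of_pos h0 _) one_pos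
    have hκle : ∀ t, t0 ≤ t → t ≤ 1 → κ ≤ t ^ (r - 2) := by
      intro t ht ht1
      rcases le_total 0 (r - 2) with hr2 | hr2
      · exact (min_le_left _ _).trans (Real.rpow_le_rpow h0.le ht hr2)
      · exact (min_le_right _ _).trans
          (Real.one_le_rpow_of_pos_of_le_one_of_nonpos (lt_of_lt_of_le h0 ht) ht1 hr2)
    have hbk : ∀ k, κ * (∫ t in t0..t1, b k t) ≤ ∫ t in (0:ℝ)..1, b k t * t ^ (r - 2) := by
      intro k
      have hii : IntervalIntegrable (fun t => b k t * t ^ (r - 2)) volume 0 1 :=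
        diff_int hr _ _ (hx.ten (hη k)) (hy.ten (hη (k + 1)))
          (by rw [sum_ten, sum_ten, hxs, hys, hηs, hηs])
      have h2 : ∫ t in t0..t1, b k t * t ^ (r - 2) ≤ ∫ t in (0:ℝ)..1, b k t * t ^ (r - 2) := by
        refine intervalIntegral.integral_mono_interval h0.le h01.le h1 ?_ hii
        refine (ae_restrict_iff' measurableSet_Ioc).2 (Eventually.of_forall fun t ht => ?_)
        exact mul_nonneg (hb0 k t ht.1) (Real.rpow_nonneg ht.1.le _)
      refine le_trans ?_ h2
      rw [← intervalIntegral.integral_const_mul]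
      refine intervalIntegral.integral_mono_on h01.le
        (((hbc k).intervalIntegrable _ _).const_mul κ) ?_ (fun t ht => ?_)
      · refine hii.mono_set ?_
        rw [uIcc_of_le h01.le, uIcc_of_le zero_le_one]
        exact Icc_subset_Icc h0.le h1
      · have h3 := hκle t ht.1 (ht.2.trans h1)
        have h4 := hb0 k t (lt_of_lt_of_le h0 ht.1)
        rw [mul_comm]
        exact mul_le_mul_of_nonneg_left h3 h4
    obtain ⟨N, hN⟩ := hun (A / κ + (t1 - t0))
    rw [hsumid] at hN
    have h3 : κ * ∑ k ∈ Finset.range N, (∫ t in t0..t1, b k t) ≤ A := by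
      rw [Finset.mul_sum]
      exact (Finset.sum_le_sum fun k _ => hbk k).trans (hA N)
    have h4 : ∑ k ∈ Finset.range N, (∫ t in t0..t1, b k t) ≤ A / κ := by
      rw [le_div_iff₀ hκ0, mul_comm]
      exact h3
    have h5 := (hple t0 t1 h0 h01 0).2
    have h6 := (hple t0 t1 h0 h01 N).1
    linarith
  · -- Y < X
    obtain ⟨t0, t1, h0, h01, h1, hun⟩ := win η hη hηs μ hμ hm x' y' X Y px' py' hX hX1
      (py' Y hY) h hY2
    obtain ⟨N, hN⟩ := hun (t1 - t0)
    have h2 : ∑ k ∈ Finset.range N, ∫ t in t0..t1, (Ph (ten x' (η k)) t - Ph (ten y' (η k)) t) =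
        -∑ k ∈ Finset.range N, ∫ t in t0..t1, (Ph (ten y' (η k)) t - Ph (ten x' (η k)) t) := by
      rw [← Finset.sum_neg_distrib]
      refine Finset.sum_congr rfl fun k _ => ?_
      rw [← intervalIntegral.integral_neg]
      refine intervalIntegral.integral_congr (fun t _ => ?_)
      ring
    rw [h2, hsumid] at hN
    have h3 : 0 ≤ ∑ k ∈ Finset.range N, (∫ t in t0..t1, b k t) :=
      Finset.sum_nonneg fun k _ => intervalIntegral.integral_nonneg h01.le
        (fun t ht => hb0 k t (lt_of_lt_of_le h0 ht.1))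
    have h5 := (hple t0 t1 h0 h01 0).1
    have h6 := (hple t0 t1 h0 h01 N).2
    linarith

end R100FC
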