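import Pool.Agent.R100.FC.Stm

/-! Project FC (MP_261b1b_mp), piece C4f: an integral formula. -/

set_option autoImplicit false

namespace R100FC

open MeasureTheory Set

namespace C4f

theorem eq_left {r v : ℝ} : ∀ t ∈ Ioc 0 v, min v t * t ^ (r - 2) = t ^ (r - 1) := by
  intro t ht
  rw [min_eq_right ht.2, show r - 1 = 1 + (r - 2) by ring, Real.rpow_add ht.1, Real.rpow_one]

theorem eq_right {r v : ℝ} : ∀ t ∈ Ioc v 1, min v t * t ^ (r - 2) = v * t ^ (r - 2) := by
  intro t ht
  rw [min_eq_left ht.1.le]

theorem int_left {r v : ℝ} (hr : 0 < r) (hv : 0 < v) :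
    IntervalIntegrable (fun t => min v t * t ^ (r - 2)) volume 0 v := by
  rw [intervalIntegrable_iff_integrableOn_Ioc_of_le hv.le]
  have h := (intervalIntegral.intervalIntegrable_rpow' (r := r - 1) (a := 0) (b := v)
    (by linarith))
  rw [intervalIntegrable_iff_integrableOn_Ioc_of_le hv.le] at h
  exact h.congr_fun (fun t ht => (eq_left t ht).symm) measurableSet_Ioc

theorem int_right {r v : ℝ} (hv : 0 < v) (hv1 : v ≤ 1) :
    IntervalIntegrable (fun t => min v t * t ^ (r - 2)) volume v 1 := by
  apply ContinuousOn.intervalIntegrable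
  rw [uIcc_of_le hv1]
  apply ContinuousOn.mul (by fun_prop)
  apply ContinuousOn.rpow_const continuousOn_id
  intro t ht
  left
  exact (hv.trans_le ht.1).ne'

theorem val_left {r v : ℝ} (hr : 0 < r) (hv : 0 < v) :
    ∫ t in (0:ℝ)..v, min v t * t ^ (r - 2) = v ^ r / r := by
  have h : ∫ t in (0:ℝ)..v, min v t * t ^ (r - 2) = ∫ t in (0:ℝ)..v, t ^ (r - 1) := by
    apply intervalIntegral.integral_congr_ae
    refine ae_of_all _ fun t ht => ?_
    rw [uIoc_of_le hv.le] at ht
    exact eq_left t ht
  rw [h, integral_rpow (Or.inl (by linarith)), show r - 1 + 1 = r by ring, Real.zero_rpow hr.ne',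
    sub_zero]

theorem val_right {r v : ℝ} (hv1 : v ≤ 1) :
    ∫ t in v..1, min v t * t ^ (r - 2) = v * ∫ t in v..1, t ^ (r - 2) := by
  rw [← intervalIntegral.integral_const_mul]
  apply intervalIntegral.integral_congr_ae
  refine ae_of_all _ fun t ht => ?_
  rw [uIoc_of_le hv1] at ht
  exact eq_right t ht

end C4f

open C4f in
theorem sC4f : StmC4f := by
  intro r v hr hv hv1
  have h1 := int_left hr hv
  have h2 := int_right (r := r) hv hv1
  refine ⟨h1.trans h2, ?_, ?_⟩
  · intro hr1
    rw [← intervalIntegral.integral_add_adjacent_intervals h1 h2, val_left hr hv, val_right hv1,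
      integral_rpow]
    · have e : v ^ (r - 2 + 1) = v ^ r / v := by
        rw [show r - 2 + 1 = r - 1 by ring, Real.rpow_sub_one hv.ne']
      rw [e, Real.one_rpow]
      have h3 : r - 2 + 1 ≠ 0 := by
        intro h; apply hr1; linarith
      have h4 : 1 - r ≠ 0 := by
        intro h; apply hr1; linarith
      field_simp
      ring
    · right
      refine ⟨fun h => hr1 (by linarith), ?_⟩
      rw [uIcc_of_le hv1]
      intro h
      exact absurd h.1 (not_le.2 hv)
  · rintro rfl
    rw [← intervalIntegral.integral_add_adjacent_intervals h1 h2, val_left hr hv, val_right hv1]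
    have e : ∫ t in v..1, t ^ ((1:ℝ) - 2) = ∫ t in v..1, t⁻¹ := by
      congr 1
      funext t
      rw [show (1:ℝ) - 2 = -1 by norm_num, Real.rpow_neg_one]
    rw [e, integral_inv_of_pos hv one_pos, Real.rpow_one, Real.log_div one_ne_zero hv.ne',
      Real.log_one]
    ring

end R100FC
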