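import Pool.Agent.R100.FC.Stm

/-! Project FC (MP_261b1b_mp), piece C6: comparison of the maxima. -/

namespace R100FC

open MeasureTheory Set

namespace C6

/-- sum of the minima -/
noncomputable def mn (s : Multiset ℝ) (t : ℝ) : ℝ := (s.map (fun v => min v t)).sum

/-- power sum -/
noncomputable def N (s : Multiset ℝ) (r : ℝ) : ℝ := (s.map (fun v => v ^ r)).sum

theorem Ph_eq (s : Multiset ℝ) (t : ℝ) : Ph s t = s.sum - mn s t := by
  induction s using Multiset.induction_on with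
  | empty => simp [mn]
  | cons a s ih =>
    have h1 : mn (a ::ₘ s) t = min a t + mn s t := by simp [mn]
    rw [Ph_cons, ih, Multiset.sum_cons, h1]
    rcases le_total a t with h | h
    · rw [max_eq_right (by linarith), min_eq_left h]
      ring
    · rw [max_eq_left (by linarith), min_eq_right h]
      ring

theorem int_mn (h4 : StmC4f) (r : ℝ) (hr : 1 < r) (s : Multiset ℝ) (hs : ∀ v ∈ s, 0 < v ∧ v ≤ 1) :
    IntervalIntegrable (fun t => mn s t * t ^ (r - 2)) volume 0 1 ∧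
    ∫ t in (0:ℝ)..1, mn s t * t ^ (r - 2) = (N s r - r * s.sum) / (r * (1 - r)) := by
  induction s using Multiset.induction_on with
  | empty => simp [mn, N]
  | cons a s ih =>
    have ha := hs a (Multiset.mem_cons_self a s)
    obtain ⟨i1, i2⟩ := ih (fun v hv => hs v (Multiset.mem_cons_of_mem hv))
    obtain ⟨j1, j2, -⟩ := h4 r a (by linarith) ha.1 ha.2
    have j2 := j2 (by linarith)
    have h1 : (fun t => mn (a ::ₘ s) t * t ^ (r - 2)) =
        fun t => min a t * t ^ (r - 2) + mn s t * t ^ (r - 2) := by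
      funext t
      simp only [mn, Multiset.map_cons, Multiset.sum_cons]
      ring
    rw [h1]
    refine ⟨j1.add i1, ?_⟩
    rw [intervalIntegral.integral_add j1 i1, i2, j2]
    have h2 : N (a ::ₘ s) r = a ^ r + N s r := by simp [N]
    rw [h2, Multiset.sum_cons, ← add_div]
    congr 1
    ring

theorem I_eq (h4 : StmC4f) (r : ℝ) (hr : 1 < r) (x y : Multiset ℝ) (hx : ∀ v ∈ x, 0 < v ∧ v ≤ 1)
    (hy : ∀ v ∈ y, 0 < v ∧ v ≤ 1) (hs : x.sum = y.sum) :
    I x y r = (N x r - N y r) / (r * (1 - r)) := by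
  obtain ⟨i1, i2⟩ := int_mn h4 r hr x hx
  obtain ⟨j1, j2⟩ := int_mn h4 r hr y hy
  unfold I
  have h1 : (fun t => (Ph y t - Ph x t) * t ^ (r - 2)) =
      fun t => mn x t * t ^ (r - 2) - mn y t * t ^ (r - 2) := by
    funext t
    rw [Ph_eq, Ph_eq, hs]
    ring
  rw [h1, intervalIntegral.integral_sub i1 j1, i2, j2, ← sub_div, hs]
  congr 1
  ring

theorem exists_max {s : Multiset ℝ} (hs : s ≠ 0) : ∃ a ∈ s, ∀ b ∈ s, b ≤ a := by
  classical
  obtain ⟨c, hc⟩ := Multiset.exists_mem_of_ne_zero hs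
  obtain ⟨a, ha, h⟩ := s.toFinset.exists_max_image id ⟨c, Multiset.mem_toFinset.2 hc⟩
  exact ⟨a, Multiset.mem_toFinset.1 ha, fun b hb => h b (Multiset.mem_toFinset.2 hb)⟩

end C6

open C6 in
/-- C6 -/
theorem sC6 : StmC6 := by
  intro h4 x y hx hy hs hy1 hx1 hx0 hy0 hxy hI
  by_contra hcon
  push Not at hcon
  obtain ⟨u0, hu0, hu0m⟩ := exists_max hx0
  obtain ⟨v0, hv0, hv0m⟩ := exists_max hy0
  have hu0p := hx u0 hu0
  have hv0p := hy v0 hv0
  have hlt : v0 < u0 := by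
    obtain ⟨u, hu, hvu⟩ := hcon v0 hv0
    have h1 : v0 ≤ u0 := hvu.trans (hu0m u hu)
    refine lt_of_le_of_ne h1 ?_
    rintro rfl
    exact hxy _ hu0 hv0
  have hkey : ∀ n : ℕ, u0 ^ (n + 2) < y.card * v0 ^ (n + 2) := by
    intro n
    have hr : (1 : ℝ) < ((n + 2 : ℕ) : ℝ) := by
      push_cast
      have : (0 : ℝ) ≤ n := Nat.cast_nonneg n
      linarith
    have h1 := hI ((n + 2 : ℕ) : ℝ) (by linarith)
    rw [I_eq h4 _ hr x y (fun v hv => ⟨hx v hv, hx1 v hv⟩) (fun v hv => ⟨hy v hv, hy1 v hv⟩) hs] at h1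
    have h2 : N x ((n + 2 : ℕ) : ℝ) < N y ((n + 2 : ℕ) : ℝ) := by
      by_contra hge
      push Not at hge
      have h3 : (N x ((n + 2 : ℕ) : ℝ) - N y ((n + 2 : ℕ) : ℝ)) /
          (((n + 2 : ℕ) : ℝ) * (1 - ((n + 2 : ℕ) : ℝ))) ≤ 0 := by
        apply div_nonpos_of_nonneg_of_nonpos (by linarith)
        exact mul_nonpos_of_nonneg_of_nonpos (by linarith) (by linarith)
      linarith
    have h3 : u0 ^ (n + 2) ≤ N x ((n + 2 : ℕ) : ℝ) := by
      have h5 : u0 ^ (((n + 2 : ℕ) : ℝ)) ≤ N x ((n + 2 : ℕ) : ℝ) := by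
        refine Multiset.single_le_sum ?_ _ (Multiset.mem_map.2 ⟨u0, hu0, rfl⟩)
        intro z hz
        obtain ⟨v, hv, rfl⟩ := Multiset.mem_map.1 hz
        exact Real.rpow_nonneg (hx v hv).le _
      rwa [Real.rpow_natCast] at h5
    have h4 : N y ((n + 2 : ℕ) : ℝ) ≤ y.card * v0 ^ (n + 2) := by
      have h5 : N y ((n + 2 : ℕ) : ℝ) ≤
          Multiset.card (y.map (fun v => v ^ (((n + 2 : ℕ) : ℝ)))) • (v0 ^ (n + 2)) := by
        refine Multiset.sum_le_card_nsmul _ _ ?_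
        intro z hz
        obtain ⟨v, hv, rfl⟩ := Multiset.mem_map.1 hz
        rw [Real.rpow_natCast]
        exact pow_le_pow_left₀ (hy v hv).le (hv0m v hv) _
      rwa [Multiset.card_map, nsmul_eq_mul] at h5
    linarith
  have hq : 1 < u0 / v0 := by rw [one_lt_div hv0p]; exact hlt
  obtain ⟨n, hn⟩ := pow_unbounded_of_one_lt (y.card : ℝ) hq
  have h5 : (y.card : ℝ) < (u0 / v0) ^ (n + 2) :=
    hn.trans_le (pow_le_pow_right₀ hq.le (by omega))
  rw [div_pow, lt_div_iff₀ (by positivity)] at h5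
  exact absurd h5 (not_lt.2 (hkey n).le)

end R100FC
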