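import Mathlib

/-! Project FC (MP_261b1b_mp): definitions, basic lemmas. -/

namespace R100FC

open MeasureTheory Set

/-- `Ph s t = ∑_{v ∈ s} max (v - t) 0`. -/
noncomputable def Ph (s : Multiset ℝ) (t : ℝ) : ℝ := (s.map (fun v => max (v - t) 0)).sum

/-- the multiset of all pairwise products. -/
noncomputable def ten (s t : Multiset ℝ) : Multiset ℝ := s.bind (fun a => t.map (fun b => a * b))

/-- all entries are positive. -/
def Pos (s : Multiset ℝ) : Prop := ∀ v ∈ s, 0 < v

/-- a flexible chain of catalysts. -/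
def Chain (x y : Multiset ℝ) (η : ℕ → Multiset ℝ) : Prop :=
  (∀ k, Pos (η k) ∧ (η k).sum = 1) ∧
  ∀ k t, 0 < t → Ph (ten x (η k)) t ≤ Ph (ten y (η (k + 1))) t

/-- existence of a finite catalyst. -/
def Cat (x y : Multiset ℝ) : Prop :=
  ∃ c : Multiset ℝ, c ≠ 0 ∧ Pos c ∧ ∀ t, 0 < t → Ph (ten x c) t ≤ Ph (ten y c) t

/-! ### basic lemmas -/

@[simp] lemma Ph_zero (t : ℝ) : Ph 0 t = 0 := by simp [Ph]

@[simp] lemma Ph_add (s s' : Multiset ℝ) (t : ℝ) : Ph (s + s') t = Ph s t + Ph s' t := by
  simp [Ph]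

@[simp] lemma Ph_cons (a : ℝ) (s : Multiset ℝ) (t : ℝ) :
    Ph (a ::ₘ s) t = max (a - t) 0 + Ph s t := by simp [Ph]

lemma Ph_bind {α : Type*} (s : Multiset α) (f : α → Multiset ℝ) (t : ℝ) :
    Ph (s.bind f) t = (s.map (fun a => Ph (f a) t)).sum := by
  induction s using Multiset.induction_on with
  | empty => simp
  | cons a s ih => simp [ih]

@[simp] lemma ten_zero_left (s : Multiset ℝ) : ten 0 s = 0 := by simp [ten]

@[simp] lemma ten_zero_right (s : Multiset ℝ) : ten s 0 = 0 := by
  induction s using Multiset.induction_on with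
  | empty => simp [ten]
  | cons a s ih => simp [ten] at ih ⊢; 

lemma ten_add_left (s s' t : Multiset ℝ) : ten (s + s') t = ten s t + ten s' t := by
  simp [ten, Multiset.add_bind]

lemma ten_cons_left (a : ℝ) (s t : Multiset ℝ) :
    ten (a ::ₘ s) t = t.map (fun b => a * b) + ten s t := by
  simp [ten]

lemma ten_add_right (s t t' : Multiset ℝ) : ten s (t + t') = ten s t + ten s t' := by
  induction s using Multiset.induction_on with
  | empty => simp
  | cons a s ih =>
    rw [ten_cons_left, ten_cons_left, ten_cons_left, ih, Multiset.map_add]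
    abel

lemma ten_cons_right (s t : Multiset ℝ) (b : ℝ) :
    ten s (b ::ₘ t) = s.map (fun a => a * b) + ten s t := by
  induction s using Multiset.induction_on with
  | empty => simp
  | cons a s ih =>
    rw [ten_cons_left, ten_cons_left, ih, Multiset.map_cons, Multiset.map_cons]
    rw [Multiset.cons_add, Multiset.cons_add]
    congr 1
    abel

lemma ten_comm (s t : Multiset ℝ) : ten s t = ten t s := by
  induction s using Multiset.induction_on with
  | empty => simp
  | cons a s ih =>
    rw [ten_cons_left, ten_cons_right, ih]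
    congr 1
    apply Multiset.map_congr rfl
    intro b _
    ring

lemma ten_sum_right {α : Type*} (s : Multiset ℝ) (S : Finset α) (f : α → Multiset ℝ) :
    ten s (∑ i ∈ S, f i) = ∑ i ∈ S, ten s (f i) := by
  classical
  induction S using Finset.induction_on with
  | empty => simp
  | insert a S ha ih => rw [Finset.sum_insert ha, Finset.sum_insert ha, ten_add_right, ih]

lemma Ph_sum {α : Type*} (S : Finset α) (f : α → Multiset ℝ) (t : ℝ) :
    Ph (∑ i ∈ S, f i) t = ∑ i ∈ S, Ph (f i) t := by
  classical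
  induction S using Finset.induction_on with
  | empty => simp
  | insert a S ha ih => rw [Finset.sum_insert ha, Finset.sum_insert ha, Ph_add, ih]

@[simp] lemma card_ten (s t : Multiset ℝ) : (ten s t).card = s.card * t.card := by
  induction s using Multiset.induction_on with
  | empty => simp
  | cons a s ih =>
    rw [ten_cons_left, Multiset.card_add, Multiset.card_map, ih, Multiset.card_cons]; ring

@[simp] lemma sum_ten (s t : Multiset ℝ) : (ten s t).sum = s.sum * t.sum := by
  induction s using Multiset.induction_on with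
  | empty => simp
  | cons a s ih =>
    rw [ten_cons_left, Multiset.sum_add, ih, Multiset.sum_cons, Multiset.sum_map_mul_left,
      Multiset.map_id']
    ring

lemma mem_ten {s t : Multiset ℝ} {v : ℝ} : v ∈ ten s t ↔ ∃ a ∈ s, ∃ b ∈ t, v = a * b := by
  simp only [ten, Multiset.mem_bind, Multiset.mem_map]
  constructor
  · rintro ⟨a, ha, b, hb, h⟩; exact ⟨a, ha, b, hb, h.symm⟩
  · rintro ⟨a, ha, b, hb, h⟩; exact ⟨a, ha, b, hb, h.symm⟩

lemma Pos.ten {s t : Multiset ℝ} (hs : Pos s) (ht : Pos t) : Pos (ten s t) := by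
  intro v hv
  obtain ⟨a, ha, b, hb, rfl⟩ := mem_ten.1 hv
  exact mul_pos (hs a ha) (ht b hb)

lemma Ph_nonneg (s : Multiset ℝ) (t : ℝ) : 0 ≤ Ph s t := by
  apply Multiset.sum_nonneg
  intro v hv
  obtain ⟨a, _, rfl⟩ := Multiset.mem_map.1 hv
  exact le_max_right _ _

lemma Ph_antitone (s : Multiset ℝ) {t t' : ℝ} (h : t ≤ t') : Ph s t' ≤ Ph s t := by
  apply Multiset.sum_map_le_sum_map
  intro v _
  exact max_le_max (by linarith) le_rfl

/-- `Ph s t ≥ sum - card * t`. -/
lemma sum_sub_le_Ph (s : Multiset ℝ) (t : ℝ) : s.sum - s.card * t ≤ Ph s t := by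
  induction s using Multiset.induction_on with
  | empty => simp
  | cons a s ih =>
    have := le_max_left (a - t) 0
    rw [Ph_cons, Multiset.sum_cons, Multiset.card_cons]
    push_cast
    nlinarith

/-- if all entries are `≥ t` then `Ph s t = sum - card * t`. -/
lemma Ph_eq_of_le (s : Multiset ℝ) (t : ℝ) (h : ∀ v ∈ s, t ≤ v) :
    Ph s t = s.sum - s.card * t := by
  induction s using Multiset.induction_on with
  | empty => simp
  | cons a s ih =>
    have ha := h a (Multiset.mem_cons_self a s)
    have ih' := ih (fun v hv => h v (Multiset.mem_cons_of_mem hv))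
    rw [Ph_cons, Multiset.sum_cons, Multiset.card_cons, ih', max_eq_left (by linarith)]
    push_cast
    ring

/-- if all entries are `≤ t` then `Ph s t = 0`. -/
lemma Ph_eq_zero (s : Multiset ℝ) (t : ℝ) (h : ∀ v ∈ s, v ≤ t) : Ph s t = 0 := by
  induction s using Multiset.induction_on with
  | empty => simp
  | cons a s ih =>
    have ha := h a (Multiset.mem_cons_self a s)
    rw [Ph_cons, ih (fun v hv => h v (Multiset.mem_cons_of_mem hv)), max_eq_right (by linarith)]
    simp

/-- a single entry gives a lower bound. -/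
lemma le_Ph_of_mem (s : Multiset ℝ) (t : ℝ) {v : ℝ} (hv : v ∈ s) : v - t ≤ Ph s t := by
  obtain ⟨s', rfl⟩ := Multiset.exists_cons_of_mem hv
  rw [Ph_cons]
  have := le_max_left (v - t) 0
  have := Ph_nonneg s' t
  linarith

lemma Ph_le_sum (s : Multiset ℝ) {t : ℝ} (ht : 0 ≤ t) (h : ∀ v ∈ s, 0 ≤ v) : Ph s t ≤ s.sum := by
  induction s using Multiset.induction_on with
  | empty => simp
  | cons a s ih =>
    have ha := h a (Multiset.mem_cons_self a s)
    have ih' := ih (fun v hv => h v (Multiset.mem_cons_of_mem hv))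
    rw [Ph_cons, Multiset.sum_cons]
    have : max (a - t) 0 ≤ a := max_le (by linarith) ha
    linarith

/-- scaling. -/
lemma Ph_map_mul (s : Multiset ℝ) {a : ℝ} (ha : 0 < a) (t : ℝ) :
    Ph (s.map (fun b => a * b)) t = a * Ph s (t / a) := by
  induction s using Multiset.induction_on with
  | empty => simp
  | cons b s ih =>
    rw [Multiset.map_cons, Ph_cons, Ph_cons, ih, mul_add]
    congr 1
    rw [mul_max_of_nonneg _ _ ha.le, mul_zero]
    congr 1
    field_simp

/-- `Ph (ten c s) t = ∑_{a ∈ c} a * Ph s (t / a)`. -/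
lemma Ph_ten_left (c s : Multiset ℝ) (hc : Pos c) (t : ℝ) :
    Ph (ten c s) t = (c.map (fun a => a * Ph s (t / a))).sum := by
  rw [ten, Ph_bind]
  apply congrArg
  apply Multiset.map_congr rfl
  intro a ha
  exact Ph_map_mul s (hc a ha) t

/-- `Ph (ten s c) t = ∑_{a ∈ c} a * Ph s (t / a)`. -/
lemma Ph_ten_right (s c : Multiset ℝ) (hc : Pos c) (t : ℝ) :
    Ph (ten s c) t = (c.map (fun a => a * Ph s (t / a))).sum := by
  rw [ten_comm, Ph_ten_left c s hc t]

/-- rank comparison. -/
lemma card_le_of_Ph_le (u v : Multiset ℝ) (hu : Pos u) (hv : Pos v) (hs : u.sum = v.sum)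
    (h : ∀ t, 0 < t → Ph u t ≤ Ph v t) : v.card ≤ u.card := by
  obtain ⟨t, ht, h1, h2⟩ : ∃ t : ℝ, 0 < t ∧ (∀ a ∈ u, t ≤ a) ∧ (∀ a ∈ v, t ≤ a) := by
    have key : ∀ w : Multiset ℝ, Pos w → ∃ t : ℝ, 0 < t ∧ ∀ a ∈ w, t ≤ a := by
      intro w
      induction w using Multiset.induction_on with
      | empty => intro _; exact ⟨1, one_pos, by simp⟩
      | cons a w ih =>
        intro hw
        obtain ⟨t, ht, h⟩ := ih (fun b hb => hw b (Multiset.mem_cons_of_mem hb))
        refine ⟨min t a, lt_min ht (hw a (Multiset.mem_cons_self a w)), ?_⟩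
        intro b hb
        rcases Multiset.mem_cons.1 hb with rfl | hb
        · exact min_le_right _ _
        · exact (min_le_left _ _).trans (h b hb)
    obtain ⟨t1, ht1, h1⟩ := key u hu
    obtain ⟨t2, ht2, h2⟩ := key v hv
    exact ⟨min t1 t2, lt_min ht1 ht2, fun a ha => (min_le_left _ _).trans (h1 a ha),
      fun a ha => (min_le_right _ _).trans (h2 a ha)⟩
  have h3 := h t ht
  rw [Ph_eq_of_le u t h1, Ph_eq_of_le v t h2, hs] at h3
  have h4 : (v.card : ℝ) * t ≤ u.card * t := by linarith
  have h5 : (v.card : ℝ) ≤ u.card := le_of_mul_le_mul_right h4 ht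
  exact_mod_cast h5

end R100FC
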