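import Pool.Agent.R100.FC.Defs

/-! Project FC (MP_261b1b_mp): exact statements of the independent pieces.
Complete proofs: `NOTES.md` in this folder. -/

namespace R100FC

open MeasureTheory Set

/-! ## Part B: equal ranks -/

/-- top recurrence -/
def RecTop (M : ℝ) (θ : ℕ → Multiset ℝ) : Prop :=
  ∀ ε > 0, ∃ g : ℕ, 0 < g ∧ ∀ k, ∃ j, k ≤ j ∧ j < k + g ∧ ∃ v ∈ θ j, M * (1 - ε) < v

/-- bottom recurrence -/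
def RecBot (m : ℝ) (θ : ℕ → Multiset ℝ) : Prop :=
  ∀ ε > 0, ∃ g : ℕ, 0 < g ∧ ∀ k, ∃ j, k ≤ j ∧ j < k + g ∧ ∃ v ∈ θ j, v < m * (1 + ε)

/-- B1: from a chain with equal cardinalities to an extremal chain (compactness). -/
def StmB1 : Prop := ∀ (x y : Multiset ℝ) (η : ℕ → Multiset ℝ), Pos x → Pos y →
  x.sum = 1 → y.sum = 1 → x.card = y.card → Chain x y η →
  ∃ (R : ℕ) (m M : ℝ) (θ : ℕ → Multiset ℝ), 0 < m ∧ m ≤ M ∧ Chain x y θ ∧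
    (∀ k, (θ k).card = R) ∧ (∀ k, ∀ v ∈ θ k, m ≤ v ∧ v ≤ M) ∧ RecTop M θ ∧ RecBot m θ

/-- the data produced by B2 and consumed by B3. -/
def Window (x y : Multiset ℝ) (m M : ℝ) (C : ℕ → Multiset ℝ) (s1 s2 s3 s4 : ℝ) : Prop :=
  (∀ N, C N ≠ 0) ∧ (∀ N, ∀ v ∈ C N, m ≤ v ∧ v ≤ M) ∧
  (∀ N t, 0 < t → -1 ≤ Ph (ten y (C N)) t - Ph (ten x (C N)) t) ∧
  0 < s3 ∧ s3 < s4 ∧ 0 < s1 ∧ s1 < s2 ∧ (∀ u ∈ x, u * M ≤ s1 ∧ s4 ≤ u * m) ∧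
  (∀ B : ℝ, ∃ N, ∀ s, ((s1 ≤ s ∧ s ≤ s2) ∨ (s3 ≤ s ∧ s ≤ s4)) →
    B ≤ Ph (ten y (C N)) s - Ph (ten x (C N)) s)

/-- B2: the extremal chain gives a window. -/
def StmB2 : Prop := ∀ (x y : Multiset ℝ) (R : ℕ) (m M : ℝ) (θ : ℕ → Multiset ℝ), Pos x → Pos y →
  x.sum = 1 → y.sum = 1 → x.card = y.card → x ≠ y → 0 < m → m ≤ M → Chain x y θ →
  (∀ k, (θ k).card = R) → (∀ k, ∀ v ∈ θ k, m ≤ v ∧ v ≤ M) → RecTop M θ → RecBot m θ →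
  ∃ (x' y' w : Multiset ℝ) (C : ℕ → Multiset ℝ) (s1 s2 s3 s4 : ℝ),
    x = x' + w ∧ y = y' + w ∧ Window x' y' m M C s1 s2 s3 s4

/-- B3: smoothing: a window gives a catalyst. -/
def StmB3 : Prop := ∀ (x y : Multiset ℝ) (m M : ℝ) (C : ℕ → Multiset ℝ) (s1 s2 s3 s4 : ℝ),
  Pos x → Pos y → x.sum = y.sum → x.card = y.card → 0 < m → m ≤ M →
  Window x y m M C s1 s2 s3 s4 → Cat x y

/-! ## Part C: rank x > rank y -/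

/-- C1: Poincaré / Pólya for univariate real polynomials. -/
def StmC1 : Prop := ∀ p : Polynomial ℝ, (∀ z : ℝ, 0 < z → 0 < p.eval z) →
  ∃ N : ℕ, ∀ m, 0 ≤ ((1 + Polynomial.X) ^ N * p).coeff m

/-- the power mean functional of the pair. -/
noncomputable def I (x y : Multiset ℝ) (r : ℝ) : ℝ :=
  ∫ t in (0:ℝ)..1, (Ph y t - Ph x t) * t ^ (r - 2)

/-- perturbation of `y` with `z` additional entries. -/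
noncomputable def yd (y : Multiset ℝ) (z : ℕ) (δ : ℝ) : Multiset ℝ :=
  y.map (fun v => (1 - δ) * v) + Multiset.replicate z (δ * y.sum / z)

/-- Riemann-type sum. -/
noncomputable def Rs (x y : Multiset ℝ) (q : ℝ) (K : ℕ) (r : ℝ) : ℝ :=
  ∑ m ∈ Finset.Icc (-(K:ℤ)) K, (Ph y (q ^ m) - Ph x (q ^ m)) * (q ^ m) ^ (r - 1)

/-- C2: positivity of the sums gives a catalyst. -/
def StmC2 : Prop := StmC1 → ∀ (x y y₁ : Multiset ℝ) (q : ℝ) (K₀ : ℕ), Pos x → Pos y → Pos y₁ →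
  x.sum = y₁.sum → x.card = y₁.card → 1 < q →
  (∀ t, 0 < t → Ph y₁ (t / q) ≤ Ph y t) →
  (∀ K, K₀ ≤ K → ∀ r : ℝ, 0 < Rs x y₁ q K r) → Cat x y

/-- common hypotheses of C3a, C3b, C3c -/
def HypC3 (x y : Multiset ℝ) : Prop :=
  Pos x ∧ Pos y ∧ x.sum = y.sum ∧ (∀ v ∈ y, v ≤ 1) ∧ (∀ u ∈ x, u ≤ 1) ∧ y.card < x.card ∧ y ≠ 0

/-- C3h: the comparison of `yd` with `y`. -/
def StmC3h : Prop := ∀ x y : Multiset ℝ, HypC3 x y →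
  ∃ δ₁ > 0, ∀ δ, 0 < δ → δ < δ₁ → ∃ q₁ > 1, ∀ q, 1 < q → q < q₁ →
    ∀ t, 0 < t → Ph (yd y (x.card - y.card) δ) (t / q) ≤ Ph y t

/-- C3a: small `r`. -/
def StmC3a : Prop := ∀ x y : Multiset ℝ, HypC3 x y →
  ∃ r₁ > 0, r₁ < 1 ∧ ∃ δ₁ > 0, ∀ δ, 0 < δ → δ < δ₁ → ∃ q₁ > 1, ∀ q, 1 < q → q < q₁ →
    ∃ K₀ : ℕ, ∀ K, K₀ ≤ K → ∀ r ≤ r₁, 0 < Rs x (yd y (x.card - y.card) δ) q K r

/-- C3b: `r` in a compact interval. -/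
def StmC3b : Prop := ∀ x y : Multiset ℝ, HypC3 x y → (∀ r > 0, 0 < I x y r) →
  ∀ r₁ R₀ : ℝ, 0 < r₁ → r₁ < 1 → 1 ≤ R₀ →
  ∃ δ₁ > 0, ∀ δ, 0 < δ → δ < δ₁ → ∃ q₁ > 1, ∀ q, 1 < q → q < q₁ →
    ∃ K₀ : ℕ, ∀ K, K₀ ≤ K → ∀ r, r₁ ≤ r → r ≤ R₀ → 0 < Rs x (yd y (x.card - y.card) δ) q K r

/-- C3c: large `r`. -/
def StmC3c : Prop := ∀ x y : Multiset ℝ, HypC3 x y → (∃ v ∈ y, ∀ u ∈ x, u < v) →
  ∃ R₀ ≥ 1, ∃ δ₁ > 0, ∀ δ, 0 < δ → δ < δ₁ → ∃ q₁ > 1, ∀ q, 1 < q → q < q₁ →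
    ∃ K₀ : ℕ, ∀ K, K₀ ≤ K → ∀ r ≥ R₀, 0 < Rs x (yd y (x.card - y.card) δ) q K r

/-- C4f: the integral formula. -/
def StmC4f : Prop := ∀ r v : ℝ, 0 < r → 0 < v → v ≤ 1 →
  IntervalIntegrable (fun t => min v t * t ^ (r - 2)) volume 0 1 ∧
  (r ≠ 1 → ∫ t in (0:ℝ)..1, min v t * t ^ (r - 2) = (v ^ r - r * v) / (r * (1 - r))) ∧
  (r = 1 → ∫ t in (0:ℝ)..1, min v t * t ^ (r - 2) = v - v * Real.log v)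

/-- C4a: if `I x y r ≤ 0` then the maxima stay bounded below and the gains are summable. -/
def StmC4a : Prop := StmC4f → ∀ (x y : Multiset ℝ) (η : ℕ → Multiset ℝ) (r : ℝ), Pos x → Pos y →
  x.sum = 1 → y.sum = 1 → Chain x y η → 0 < r → I x y r ≤ 0 →
  ∃ μ > 0, ∃ A : ℝ, (∀ k, ∃ v ∈ η k, μ ≤ v) ∧
    ∀ N : ℕ, ∑ k ∈ Finset.range N, ∫ t in (0:ℝ)..1,
      (Ph (ten y (η (k + 1))) t - Ph (ten x (η k)) t) * t ^ (r - 2) ≤ A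

/-- C4b: contradiction near the top. -/
def StmC4b : Prop := ∀ (x y : Multiset ℝ) (η : ℕ → Multiset ℝ) (r μ A : ℝ), Pos x → Pos y →
  x.sum = 1 → y.sum = 1 → x ≠ y → Chain x y η → 0 < r → 0 < μ → (∀ k, ∃ v ∈ η k, μ ≤ v) →
  (∀ N : ℕ, ∑ k ∈ Finset.range N, ∫ t in (0:ℝ)..1,
      (Ph (ten y (η (k + 1))) t - Ph (ten x (η k)) t) * t ^ (r - 2) ≤ A) → False

/-- C6: comparison of the maxima. -/
def StmC6 : Prop := StmC4f → ∀ x y : Multiset ℝ, Pos x → Pos y → x.sum = y.sum →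
  (∀ v ∈ y, v ≤ 1) → (∀ u ∈ x, u ≤ 1) → x ≠ 0 → y ≠ 0 → (∀ u ∈ x, u ∉ y) →
  (∀ r > 0, 0 < I x y r) → ∃ v ∈ y, ∀ u ∈ x, u < v

end R100FC
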